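import Pool.Agent.Helper81.HG.Sch
import Pool.Agent.Helper81.HG.Defs

/-!
# All schemes of finite type over the integers
-/

set_option autoImplicit false

open AlgebraicGeometry CategoryTheory TopologicalSpace MvPolynomial
open Pool.Agent.Helper81.CP Pool.Agent.Helper81.HG

namespace Pool.Agent.Helper45.RM

/-- rings of finite type -/
lemma g_of_ft {G : ∀ (R : Type) [CommRing R], Prop} (hG : RG G) (hH : ∀ m, HypG G m)
    {R : Type} [CommRing R] (hR : FT R) : G R := by
  obtain ⟨n, φ, hφ⟩ := hR
  let I : Ideal (MvPolynomial (Fin n) ℤ) := RingHom.ker φ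
  obtain ⟨S', hS'⟩ := (inferInstance : IsNoetherianRing (MvPolynomial (Fin n) ℤ)).noetherian I
  have hS'' : Ideal.span (S' : Set (MvPolynomial (Fin n) ℤ)) = I := hS'
  have h1 := go_mem hG (hH n) S' 1
  rw [hG.gl_one] at h1
  have e : (MvPolynomial (Fin n) ℤ ⧸ Ideal.span (S' : Set (MvPolynomial (Fin n) ℤ))) ≃+* R :=
    (Ideal.quotEquivOfEq hS'').trans (RingHom.quotientKerEquivOfSurjective hφ)
  exact hG.iso _ _ (ft_rng _) e h1

/-- **All schemes of finite type over `ℤ`.** -/
theorem g_of_all {G : Scheme.{0} → Prop} (hG : SG G) (hH : ∀ m, HypG (rg G) m)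
    (X : Scheme.{0}) (hX : IsFT X) : G X := by
  have := hX.isNoetherian
  have hwf : WellFoundedLT (Closeds X) := inferInstance
  have key : ∀ C : Closeds X, ∀ (Z : Scheme.{0}) (ι : Z ⟶ X), IsClosedImmersion ι →
      Set.range ι ⊆ C → G Z := by
    intro C
    induction C using hwf.induction with
    | ind C ih =>
      intro Z ι hι hr
      have hZ : IsFT Z := hX.of_isClosedImmersion ι hι
      rcases isEmpty_or_nonempty Z with he | ⟨⟨z⟩⟩
      · exact hG.empty Z he
      · obtain ⟨A, j, hj, hz, _⟩ :=
          Scheme.exists_affine_mem_range_and_range_subset (TopologicalSpace.Opens.mem_top z)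
        have hopen : IsOpen (Set.range j) := j.isOpenEmbedding.isOpen_range
        obtain ⟨Z', ι', hι', hr'⟩ := exists_complement (Set.range j)ᶜ hopen.isClosed_compl
        have hA : FT A := (hZ.of_isOpenImmersion j hj).ft
        have hcomp : IsClosedImmersion (ι' ≫ ι) := inferInstance
        have hlt : (⟨Set.range (ι' ≫ ι), (ι' ≫ ι).isClosedEmbedding.isClosed_range⟩ :
            Closeds X) < C := by
          have hle : Set.range (ι' ≫ ι) ⊆ (C : Set X) := by
            rintro _ ⟨y, rfl⟩
            rw [Scheme.Hom.comp_apply]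
            exact hr ⟨_, rfl⟩
          refine lt_of_le_of_ne hle fun heq => ?_
          have h3 : ι z ∈ (C : Set X) := hr ⟨z, rfl⟩
          rw [← heq] at h3
          obtain ⟨y, hy⟩ := h3
          rw [Scheme.Hom.comp_apply] at hy
          have h4 : ι' y = z := ι.isClosedEmbedding.injective hy
          have h5 : z ∈ Set.range ι' := ⟨y, h4⟩
          rw [hr'] at h5
          exact h5 hz
        have h1 : G (Spec A) := g_of_ft hG.rg hH hA
        have h2 : G Z' := ih _ hlt Z' (ι' ≫ ι) hcomp subset_rfl
        exact hG.glue Z Z' (Spec A) ι' j hZ hι' hj (by rw [hr', compl_compl]) h2 h1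
  exact key ⊤ X (𝟙 X) inferInstance (by simp)

end Pool.Agent.Helper45.RM
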