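import Pool.Agent.Helper81.HG.Base

/-!
# Polynomial equations by additions and multiplications, over all rings
-/

set_option autoImplicit false

open MvPolynomial
open Pool.Agent.Helper81.CP Pool.Agent.Helper81.HG

namespace Pool.Agent.Helper45.RM

/-- constraints -/
inductive Con (Y : Type)
  | add (a b c : Y) : Con Y
  | mul (a b c : Y) : Con Y

/-- the constraint holds -/
def Con.Holds {Y R : Type} [CommRing R] (t : Y → R) : Con Y → Prop
  | .add a b c => t a + t b = t c
  | .mul a b c => t a * t b = t c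

/-- the equation of a constraint -/
noncomputable def Con.eqn {Y : Type} : Con Y → MvPolynomial Y ℤ
  | .add a b c => X a + X b - X c
  | .mul a b c => X a * X b - X c

lemma Con.ev_eqn {Y R : Type} [CommRing R] (t : Y → R) (c : Con Y) :
    ev t c.eqn = 0 ↔ c.Holds t := by
  cases c with
  | add a b c => simp only [Con.eqn, map_sub, map_add, ev_X, sub_eq_zero, Con.Holds]
  | mul a b c => simp only [Con.eqn, map_sub, map_mul, ev_X, sub_eq_zero, Con.Holds]

/-- the system of the constraints, with the variable `o` equal to one and the variables in `S`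
equal to zero -/
noncomputable def xS {Y K : Type} (o : Y) (S : Set Y) (cs : K → Con Y) :
    Set (MvPolynomial Y ℤ) :=
  insert (X o - 1) (X '' S ∪ Set.range fun c => (cs c).eqn)

lemma pt_xs {Y K R : Type} [CommRing R] {o : Y} {S : Set Y} {cs : K → Con Y} {t : Y → R} :
    Pt (xS o S cs) t ↔ t o = 1 ∧ (∀ v ∈ S, t v = 0) ∧ ∀ c, (cs c).Holds t := by
  unfold xS
  rw [Pt.insert_iff]
  unfold Pt
  simp only [Set.mem_union, or_imp, forall_and, Set.forall_mem_image, Set.forall_mem_range,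
    ev_X, map_sub, map_one, sub_eq_zero, Con.ev_eqn]

section
variable {σ : Type}

/-- all additions and multiplications in the set `T` of polynomials hold for `y` -/
def Ok (T : Set (MvPolynomial σ ℤ)) {R : Type} [CommRing R] (y : MvPolynomial σ ℤ → R) : Prop :=
  y 1 = 1 ∧ ∀ a ∈ T, ∀ b ∈ T, (a + b ∈ T → y a + y b = y (a + b)) ∧
    (a * b ∈ T → y a * y b = y (a * b))

/-- the additions and multiplications in `T` determine the values of all elements of `T` -/
def Full (T : Set (MvPolynomial σ ℤ)) : Prop :=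
  0 ∈ T ∧ 1 ∈ T ∧ (∀ i, X i ∈ T) ∧ ∀ (R : Type) [CommRing R] (y : MvPolynomial σ ℤ → R),
    Ok T y → ∀ a ∈ T, y a = ev (fun i => y (X i)) a

lemma Ok.mono {T T' : Set (MvPolynomial σ ℤ)} (h : T ⊆ T') {R : Type} [CommRing R]
    {y : MvPolynomial σ ℤ → R} (hy : Ok T' y) : Ok T y :=
  ⟨hy.1, fun a ha b hb => ⟨fun hc => (hy.2 a (h ha) b (h hb)).1 (h hc),
    fun hc => (hy.2 a (h ha) b (h hb)).2 (h hc)⟩⟩

lemma Full.union {T T' : Set (MvPolynomial σ ℤ)} (h : Full T) (h' : Full T') :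
    Full (T ∪ T') := by
  refine ⟨Or.inl h.1, Or.inl h.2.1, fun i => Or.inl (h.2.2.1 i), fun R _ y hy a ha => ?_⟩
  rcases ha with ha | ha
  · exact h.2.2.2 R y (hy.mono Set.subset_union_left) a ha
  · exact h'.2.2.2 R y (hy.mono Set.subset_union_right) a ha

lemma Full.insert {T : Set (MvPolynomial σ ℤ)} (h : Full T) {c : MvPolynomial σ ℤ}
    (hc : ∀ (R : Type) [CommRing R] (y : MvPolynomial σ ℤ → R), Ok (Set.insert c T) y →
      (∀ a ∈ T, y a = ev (fun i => y (X i)) a) → y c = ev (fun i => y (X i)) c) :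
    Full (Set.insert c T) := by
  have hs : T ⊆ Set.insert c T := Set.subset_insert c T
  refine ⟨hs h.1, hs h.2.1, fun i => hs (h.2.2.1 i), fun R _ y hy a ha => ?_⟩
  have h1 := h.2.2.2 R y (hy.mono hs)
  rcases ha with rfl | ha
  · exact hc R y hy h1
  · exact h1 a ha

lemma Full.add {T : Set (MvPolynomial σ ℤ)} (h : Full T) {a b : MvPolynomial σ ℤ} (ha : a ∈ T)
    (hb : b ∈ T) : Full (Set.insert (a + b) T) := by
  have hs : T ⊆ Set.insert (a + b) T := Set.subset_insert _ T
  refine h.insert fun R _ y hy h1 => ?_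
  rw [← (hy.2 a (hs ha) b (hs hb)).1 (Set.mem_insert _ _), h1 a ha, h1 b hb, map_add]

lemma Full.mul {T : Set (MvPolynomial σ ℤ)} (h : Full T) {a b : MvPolynomial σ ℤ} (ha : a ∈ T)
    (hb : b ∈ T) : Full (Set.insert (a * b) T) := by
  have hs : T ⊆ Set.insert (a * b) T := Set.subset_insert _ T
  refine h.insert fun R _ y hy h1 => ?_
  rw [← (hy.2 a (hs ha) b (hs hb)).2 (Set.mem_insert _ _), h1 a ha, h1 b hb, map_mul]

lemma Full.neg {T : Set (MvPolynomial σ ℤ)} (h : Full T) {a : MvPolynomial σ ℤ} (ha : a ∈ T) :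
    Full (Set.insert (-a) T) := by
  have hs : T ⊆ Set.insert (-a) T := Set.subset_insert _ T
  refine h.insert fun R _ y hy h1 => ?_
  have h2 := (hy.2 a (hs ha) (-a) (Set.mem_insert _ _)).1 (by
    rw [add_neg_cancel]
    exact hs h.1)
  rw [add_neg_cancel, h1 0 h.1, map_zero] at h2
  rw [eq_neg_of_add_eq_zero_right h2, h1 a ha, map_neg]

lemma full_base : Full ({0, 1} ∪ Set.range X : Set (MvPolynomial σ ℤ)) := by
  refine ⟨Or.inl (Or.inl rfl), Or.inl (Or.inr rfl), fun i => Or.inr ⟨i, rfl⟩,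
    fun R _ y hy a ha => ?_⟩
  rcases ha with (rfl | rfl) | ⟨i, rfl⟩
  · have h1 := (hy.2 0 (Or.inl (Or.inl rfl)) 0 (Or.inl (Or.inl rfl))).1 (by
      rw [add_zero]
      exact Or.inl (Or.inl rfl))
    rw [add_zero] at h1
    rw [map_zero]
    linear_combination h1
  · rw [map_one]; exact hy.1
  · rw [ev_X]

/-- every polynomial belongs to a finite full set -/
theorem exists_full [Finite σ] (f : MvPolynomial σ ℤ) :
    ∃ T : Set (MvPolynomial σ ℤ), T.Finite ∧ Full T ∧ f ∈ T := by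
  have hb : ({0, 1} ∪ Set.range X : Set (MvPolynomial σ ℤ)).Finite :=
    (Set.toFinite _).union (Set.finite_range _)
  induction f using MvPolynomial.induction_on with
  | C a =>
    induction a using Int.induction_on with
    | zero => exact ⟨_, hb, full_base, by rw [C_0]; exact Or.inl (Or.inl rfl)⟩
    | succ i ih =>
      obtain ⟨T, h1, h2, h3⟩ := ih
      exact ⟨_, h1.insert _, h2.add h3 h2.2.1, by
        rw [C_add, C_1]
        exact Set.mem_insert _ _⟩
    | pred i ih =>
      obtain ⟨T, h1, h2, h3⟩ := ih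
      have h4 := h2.neg h2.2.1
      refine ⟨_, (h1.insert _).insert _, h4.add (Set.mem_insert_of_mem _ h3)
        (Set.mem_insert _ _), ?_⟩
      rw [C_sub, C_1, sub_eq_add_neg]
      exact Set.mem_insert _ _
  | add p q hp hq =>
    obtain ⟨T, h1, h2, h3⟩ := hp
    obtain ⟨T', h1', h2', h3'⟩ := hq
    exact ⟨_, (h1.union h1').insert _, (h2.union h2').add (Or.inl h3) (Or.inr h3'),
      Set.mem_insert _ _⟩
  | mul_X p i hp =>
    obtain ⟨T, h1, h2, h3⟩ := hp
    exact ⟨_, h1.insert _, h2.mul h3 (h2.2.2.1 i), Set.mem_insert _ _⟩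

/-- **Universality**: the hypersurface `f = 0` is the system of some constraints. -/
theorem gs_circ {G : ∀ (R : Type) [CommRing R], Prop} (hG : RG G) [Finite σ]
    (f : MvPolynomial σ ℤ) : ∃ (Y K : Type) (_ : Finite Y) (_ : Finite K) (o : Y) (S : Set Y)
      (cs : K → Con Y), GS G (xS o S cs) ↔ GS G {f} := by
  classical
  obtain ⟨T, hT, hF, hf⟩ := exists_full f
  have hfin : Finite T := hT
  let K : Type := {k : (T × T) × (T × Bool) //
    (k.2.2 = true → (k.1.1 : MvPolynomial σ ℤ) + k.1.2 = k.2.1) ∧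
    (k.2.2 = false → (k.1.1 : MvPolynomial σ ℤ) * k.1.2 = k.2.1)}
  let cs : K → Con T := fun k => if k.1.2.2 = true then Con.add k.1.1.1 k.1.1.2 k.1.2.1 else
    Con.mul k.1.1.1 k.1.1.2 k.1.2.1
  let o : T := ⟨1, hF.2.1⟩
  let S : Set T := {⟨f, hf⟩}
  have hx : ∀ (R : Type) [CommRing R] (x : σ → R),
      Pt ({f} : Set (MvPolynomial σ ℤ)) x ↔ ev x f = 0 := by
    intro R _ x
    simp [Pt]
  -- values at the elements of `T`
  have hval : ∀ (R : Type) [CommRing R] (y : T → R), Pt (xS o S cs) y →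
      ∀ a : T, y a = ev (fun i => y ⟨X i, hF.2.2.1 i⟩) (a : MvPolynomial σ ℤ) := by
    intro R _ y hy a
    rw [pt_xs] at hy
    obtain ⟨h1, h2, h3⟩ := hy
    let y' : MvPolynomial σ ℤ → R := fun p => if h : p ∈ T then y ⟨p, h⟩ else 0
    have hy' : ∀ (p) (h : p ∈ T), y' p = y ⟨p, h⟩ := fun p h => dif_pos h
    have hok : Ok T y' := by
      refine ⟨(hy' 1 hF.2.1).trans h1, fun a ha b hb => ⟨fun hc => ?_, fun hc => ?_⟩⟩
      · have h4 := h3 ⟨((⟨a, ha⟩, ⟨b, hb⟩), (⟨a + b, hc⟩, true)), fun _ => rfl,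
          fun h => absurd h (by simp)⟩
        rw [hy' a ha, hy' b hb, hy' _ hc]
        exact h4
      · have h4 := h3 ⟨((⟨a, ha⟩, ⟨b, hb⟩), (⟨a * b, hc⟩, false)), fun h => absurd h (by simp),
          fun _ => rfl⟩
        rw [hy' a ha, hy' b hb, hy' _ hc]
        exact h4
    have h5 := hF.2.2.2 R y' hok a.1 a.2
    rw [hy' a.1 a.2] at h5
    rw [h5]
    congr 2
    funext i
    exact hy' _ (hF.2.2.1 i)
  refine ⟨T, K, inferInstance, inferInstance, o, S, cs, ?_⟩
  refine hG.gs_iso (fun R _ y i => y ⟨X i, hF.2.2.1 i⟩) (fun R _ x a => ev x (a : MvPolynomial σ ℤ))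
    ?_ ?_ ?_ ?_ ?_ ?_
  · intro A B _ _ φ y _ j; rfl
  · intro A B _ _ φ x _ a
    exact ev_map φ x _
  · intro R _ y hy
    rw [hx, ← hval R y hy ⟨f, hf⟩]
    rw [pt_xs] at hy
    exact hy.2.1 _ rfl
  · intro R _ x hx'
    rw [hx] at hx'
    rw [pt_xs]
    refine ⟨map_one _, ?_, ?_⟩
    · rintro v rfl
      exact hx'
    · rintro ⟨⟨⟨a, b⟩, c, e⟩, h1, h2⟩
      cases e
      · show Con.Holds _ (Con.mul a b c)
        show ev x (a : MvPolynomial σ ℤ) * ev x (b : MvPolynomial σ ℤ) = ev x c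
        rw [← map_mul, h2 rfl]
      · show Con.Holds _ (Con.add a b c)
        show ev x (a : MvPolynomial σ ℤ) + ev x (b : MvPolynomial σ ℤ) = ev x c
        rw [← map_add, h1 rfl]
  · intro R _ y hy
    funext a
    exact (hval R y hy a).symm
  · intro R _ x _
    funext i
    exact ev_X x i

end

end Pool.Agent.Helper45.RM
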