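import Pool.Agent.Helper45.RM.Orth
import Pool.Agent.Helper81.HG.Sch

/-!
# Classes which contain all orthogonality relations
-/

set_option autoImplicit false

open MvPolynomial
open Pool.Agent.Helper81.CP Pool.Agent.Helper81.HG

namespace Pool.Agent.Helper45.RM

/-- a class which contains everything that has all cut-and-paste properties of two members -/
def Sem (G : ∀ (R : Type) [CommRing R], Prop) : Prop :=
  ∀ (σ₁ σ₂ σ₃ : Type) [Finite σ₁] [Finite σ₂] [Finite σ₃] (E₁ : Set (MvPolynomial σ₁ ℤ))
    (E₂ : Set (MvPolynomial σ₂ ℤ)) (E₃ : Set (MvPolynomial σ₃ ℤ)),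
    (∀ Q : (∀ (R : Type) [CommRing R], ℤ → Prop), RingCP Q → Good Q E₁ → Good Q E₂ → Good Q E₃) →
    GS G E₁ → GS G E₂ → GS G E₃

lemma sem_ctl (𝒞 : Set AlgebraicGeometry.Scheme.{0}) : Sem (rg (Ctl 𝒞)) := by
  intro σ₁ σ₂ σ₃ _ _ _ E₁ E₂ E₃ h h1 h2
  exact ctl_mono h1 h2 fun P hP g1 g2 => h _ hP.ringCP g1 g2

/-- all orthogonality relations in dimension `d` -/
def OHyp (G : ∀ (R : Type) [CommRing R], Prop) (d : ℕ) : Prop :=
  ∀ (A B : Type) [Finite A] [Finite B] (E : Set (A × B)), GS G (orS d E)

variable {G : ∀ (R : Type) [CommRing R], Prop}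

lemma ohyp_lower (hS : Sem G) {d : ℕ} (h : OHyp G (d + 1)) : OHyp G d := by
  intro A B _ _ E
  exact hS _ _ _ _ _ _ (fun Q hQ h1 h0 => good_or_lower hQ E h1 h0) (h (Option A) B (ext1 E))
    (h A B E)

lemma ohyp_le (hS : Sem G) {d e : ℕ} (hde : e ≤ d) (h : OHyp G d) : OHyp G e := by
  induction d with
  | zero => rwa [Nat.le_zero.1 hde]
  | succ d ih =>
    rcases Nat.lt_or_ge e (d + 1) with h1 | h1
    · exact ih (by omega) (ohyp_lower hS h)
    · rwa [le_antisymm hde h1]

/-! ### Inclusion and exclusion -/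

section
variable (hG : RG G) {A B : Type} [Finite A] [Finite B] {d : ℕ}

/-- orthogonality relations and pairs with product one -/
noncomputable def cS (d : ℕ) {A B : Type} (E N : Set (A × B)) : Set (MvPolynomial (OV d A B) ℤ) :=
  orS d E ∪ (fun e => pr e - 1) '' N

omit [Finite A] [Finite B] in
lemma pt_cs' {E N : Set (A × B)} {R : Type} [CommRing R] {x : OV d A B → R} :
    Pt (cS d E N) x ↔ (∀ e ∈ E, dt x e.1 e.2 = 0) ∧ ∀ e ∈ N, dt x e.1 e.2 = 1 := by
  have h : Pt (cS d E N) x ↔ Pt (orS d E) x ∧ ∀ e ∈ N, ev x (pr e - 1) = 0 := by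
    unfold cS Pt
    simp only [Set.mem_union, or_imp, forall_and, Set.forall_mem_image]
  rw [h, pt_ors]
  simp only [map_sub, map_one, sub_eq_zero, ev_pr]

omit [Finite A] [Finite B] in
lemma pt_insert_ors {E : Set (A × B)} {e : A × B} {R : Type} [CommRing R] {x : OV d A B → R} :
    Pt (insert (pr e) (orS d E)) x ↔ Pt (orS d (insert e E)) x := by
  rw [Pt.insert_iff, pt_ors, pt_ors, ev_pr, Set.forall_mem_insert]

include hG

/-- inverting one more family of products -/
lemma go_or_mul (p : MvPolynomial (OV d A B) ℤ) (h : ∀ E : Set (A × B), GO G (orS d E) p)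
    {V : Type} (S : Finset V) (f : V → A × B) :
    ∀ E : Set (A × B), GO G (orS d E) (p * ∏ v ∈ S, pr (f v)) := by
  classical
  induction S using Finset.induction_on with
  | empty =>
    intro E
    rw [Finset.prod_empty, mul_one]
    exact h E
  | insert v S hv ih =>
    intro E
    rw [Finset.prod_insert hv]
    have h1 : p * (pr (f v) * ∏ v ∈ S, pr (f v)) = (p * ∏ v ∈ S, pr (f v)) * pr (f v) := by ring
    rw [h1]
    refine hG.gl_opn _ (ih E) ?_
    refine (hG.gl_congr fun R _ x => ?_).1 (ih (insert (f v) E))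
    unfold Lc
    rw [pt_insert_ors]

end

/-! ### Scaling -/

section
variable {A B : Type} {d : ℕ}

/-- the coordinates of a point -/
def Wp (d : ℕ) {A B : Type} (a : A) : Set (OV d A B) := Set.range fun i => Sum.inl (a, i)

/-- the coordinates of a line -/
def Wl (d : ℕ) {A B : Type} (b : B) : Set (OV d A B) := Set.range fun i => Sum.inr (b, i)

lemma dt_scl_p {R : Type} [CommRing R] (a : A) (c : R) (x : OV d A B → R) (b : B) :
    dt (scl (Wp d a) c x) a b = c * dt x a b := by
  unfold dt
  rw [Finset.mul_sum]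
  refine Finset.sum_congr rfl fun i _ => ?_
  unfold scl Wp
  rw [if_pos ⟨i, rfl⟩, if_neg (by rintro ⟨j, h⟩; cases h), mul_assoc]

lemma dt_scl_p_ne {R : Type} [CommRing R] {a a' : A} (h : a' ≠ a) (c : R) (x : OV d A B → R)
    (b : B) : dt (scl (Wp d a) c x) a' b = dt x a' b := by
  unfold dt
  refine Finset.sum_congr rfl fun i _ => ?_
  unfold scl Wp
  rw [if_neg (by rintro ⟨j, h'⟩; cases h'; exact h rfl), if_neg (by rintro ⟨j, h⟩; cases h)]

lemma dt_scl_l {R : Type} [CommRing R] (b : B) (c : R) (x : OV d A B → R) (a : A) :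
    dt (scl (Wl d b) c x) a b = c * dt x a b := by
  unfold dt
  rw [Finset.mul_sum]
  refine Finset.sum_congr rfl fun i _ => ?_
  unfold scl Wl
  rw [if_neg (by rintro ⟨j, h⟩; cases h), if_pos ⟨i, rfl⟩]
  ring

lemma dt_scl_l_ne {R : Type} [CommRing R] {b b' : B} (h : b' ≠ b) (c : R) (x : OV d A B → R)
    (a : A) : dt (scl (Wl d b) c x) a b' = dt x a b' := by
  unfold dt
  refine Finset.sum_congr rfl fun i _ => ?_
  unfold scl Wl
  rw [if_neg (by rintro ⟨j, h⟩; cases h), if_neg (by rintro ⟨j, h'⟩; cases h'; exact h rfl)]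

/-- units are preserved by scaling -/
def US (W : Set (OV d A B)) (p : MvPolynomial (OV d A B) ℤ) : Prop :=
  ∀ (R : Type) [CommRing R] (x : OV d A B → R) (c : R), IsUnit c → IsUnit (ev x p) →
    IsUnit (ev (scl W c x) p)

lemma US.mul {W : Set (OV d A B)} {p q : MvPolynomial (OV d A B) ℤ} (hp : US W p) (hq : US W q) :
    US W (p * q) := by
  intro R _ x c hc h
  rw [map_mul, IsUnit.mul_iff] at h ⊢
  exact ⟨hp R x c hc h.1, hq R x c hc h.2⟩

lemma US.one {W : Set (OV d A B)} : US W (1 : MvPolynomial (OV d A B) ℤ) := by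
  intro R _ x c _ _
  rw [map_one]
  exact isUnit_one

lemma US.prod {W : Set (OV d A B)} {V : Type} (S : Finset V) (f : V → MvPolynomial (OV d A B) ℤ)
    (h : ∀ v, US W (f v)) : US W (∏ v ∈ S, f v) := by
  classical
  induction S using Finset.induction_on with
  | empty => rw [Finset.prod_empty]; exact US.one
  | insert v S hv ih => rw [Finset.prod_insert hv]; exact (h v).mul ih

lemma us_p (a : A) (e : A × B) : US (Wp d a) (pr e) := by
  intro R _ x c hc h
  rw [ev_pr] at h ⊢
  by_cases ha : e.1 = a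
  · rw [ha, dt_scl_p]
    rw [ha] at h
    exact hc.mul h
  · rw [dt_scl_p_ne ha]
    exact h

lemma us_l (b : B) (e : A × B) : US (Wl d b) (pr e) := by
  intro R _ x c hc h
  rw [ev_pr] at h ⊢
  by_cases hb : e.2 = b
  · rw [hb, dt_scl_l]
    rw [hb] at h
    exact hc.mul h
  · rw [dt_scl_l_ne hb]
    exact h

variable [Finite A] [Finite B] (hG : RG G)

include hG

/-- normalization of the products with some new points -/
lemma phase_p {E : Set (A × B)} {V : Type} (f : V → A) (hf : Function.Injective f) (β : V → B)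
    (p : MvPolynomial (OV d A B) ℤ) (hp : ∀ a, US (Wp d a) p) (S : Finset V) :
    ∀ N : Set (A × B), (∀ e ∈ N, ∀ v ∈ S, e.1 ≠ f v) →
      GO G (cS d E N) (p * ∏ v ∈ S, pr (f v, β v)) →
      GO G (cS d E (N ∪ (fun v => (f v, β v)) '' S)) p := by
  classical
  induction S using Finset.induction_on with
  | empty =>
    intro N _ h
    rw [Finset.prod_empty, mul_one] at h
    rw [Finset.coe_empty, Set.image_empty, Set.union_empty]
    exact h
  | insert v S hv ih =>
    intro N hN h
    rw [Finset.prod_insert hv] at h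
    have h1 : p * (pr (f v, β v) * ∏ v ∈ S, pr (f v, β v)) =
      (p * ∏ v ∈ S, pr (f v, β v)) * pr (f v, β v) := by ring
    rw [h1, hG.gl_scale (Wp d (f v)) (pr (f v, β v))] at h
    · have h2 : GO G (cS d E (insert (f v, β v) N)) (p * ∏ v ∈ S, pr (f v, β v)) := by
        refine (hG.gl_congr fun R _ x => ?_).1 h
        unfold Lc
        rw [Pt.insert_iff, pt_cs', pt_cs', map_sub, map_one, sub_eq_zero, ev_pr,
          Set.forall_mem_insert]
        tauto
      have h3 := ih (insert (f v, β v) N) (by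
        intro e he w hw
        rcases he with rfl | he
        · exact fun h => hv (by rw [hf h]; exact hw)
        · exact hN e he w (Finset.mem_insert_of_mem hw)) h2
      have h4 : insert (f v, β v) N ∪ (fun v => (f v, β v)) '' (S : Set V) =
          N ∪ (fun v => (f v, β v)) '' ((insert v S : Finset V) : Set V) := by
        rw [Finset.coe_insert, Set.image_insert_eq, Set.insert_union, Set.union_insert]
      rwa [h4] at h3
    · rintro R _ x c hc ⟨hx1, hx2⟩
      refine ⟨?_, ((hp (f v)).mul (US.prod S _ fun w => us_p (f v) _)) R x c hc hx2⟩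
      rw [pt_cs'] at hx1 ⊢
      refine ⟨fun e he => ?_, fun e he => ?_⟩
      · by_cases ha : e.1 = f v
        · have h3 := hx1.1 e he
          rw [ha] at h3
          rw [ha, dt_scl_p, h3, mul_zero]
        · rw [dt_scl_p_ne ha]
          exact hx1.1 e he
      · rw [dt_scl_p_ne (hN e he v (Finset.mem_insert_self _ _))]
        exact hx1.2 e he
    · intro R _ x c
      rw [ev_pr, ev_pr]
      exact dt_scl_p (f v) c x (β v)

/-- normalization of the products with some new lines -/
lemma phase_l {E : Set (A × B)} {V : Type} (f : V → B) (hf : Function.Injective f) (α : V → A)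
    (p : MvPolynomial (OV d A B) ℤ) (hp : ∀ b, US (Wl d b) p) (S : Finset V) :
    ∀ N : Set (A × B), (∀ e ∈ N, ∀ v ∈ S, e.2 ≠ f v) →
      GO G (cS d E N) (p * ∏ v ∈ S, pr (α v, f v)) →
      GO G (cS d E (N ∪ (fun v => (α v, f v)) '' S)) p := by
  classical
  induction S using Finset.induction_on with
  | empty =>
    intro N _ h
    rw [Finset.prod_empty, mul_one] at h
    rw [Finset.coe_empty, Set.image_empty, Set.union_empty]
    exact h
  | insert v S hv ih =>
    intro N hN h
    rw [Finset.prod_insert hv] at h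
    have h1 : p * (pr (α v, f v) * ∏ v ∈ S, pr (α v, f v)) =
      (p * ∏ v ∈ S, pr (α v, f v)) * pr (α v, f v) := by ring
    rw [h1, hG.gl_scale (Wl d (f v)) (pr (α v, f v))] at h
    · have h2 : GO G (cS d E (insert (α v, f v) N)) (p * ∏ v ∈ S, pr (α v, f v)) := by
        refine (hG.gl_congr fun R _ x => ?_).1 h
        unfold Lc
        rw [Pt.insert_iff, pt_cs', pt_cs', map_sub, map_one, sub_eq_zero, ev_pr,
          Set.forall_mem_insert]
        tauto
      have h3 := ih (insert (α v, f v) N) (by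
        intro e he w hw
        rcases he with rfl | he
        · exact fun h => hv (by rw [hf h]; exact hw)
        · exact hN e he w (Finset.mem_insert_of_mem hw)) h2
      have h4 : insert (α v, f v) N ∪ (fun v => (α v, f v)) '' (S : Set V) =
          N ∪ (fun v => (α v, f v)) '' ((insert v S : Finset V) : Set V) := by
        rw [Finset.coe_insert, Set.image_insert_eq, Set.insert_union, Set.union_insert]
      rwa [h4] at h3
    · rintro R _ x c hc ⟨hx1, hx2⟩
      refine ⟨?_, ((hp (f v)).mul (US.prod S _ fun w => us_l (f v) _)) R x c hc hx2⟩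
      rw [pt_cs'] at hx1 ⊢
      refine ⟨fun e he => ?_, fun e he => ?_⟩
      · by_cases ha : e.2 = f v
        · have h3 := hx1.1 e he
          rw [ha] at h3
          rw [ha, dt_scl_l, h3, mul_zero]
        · rw [dt_scl_l_ne ha]
          exact hx1.1 e he
      · rw [dt_scl_l_ne (hN e he v (Finset.mem_insert_self _ _))]
        exact hx1.2 e he
    · intro R _ x c
      rw [ev_pr, ev_pr]
      exact dt_scl_l (f v) c x (α v)

end

end Pool.Agent.Helper45.RM
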