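import Pool.Agent.Helper81.HG.Defs

/-!
# Orthogonality relations and representations of right-angled Artin groups: the schemes
-/

set_option autoImplicit false

open AlgebraicGeometry MvPolynomial
open Pool.Agent.Helper81.HG

namespace Pool.Agent.Helper45.RM

/-- The scheme over `ℤ/N` of families of vectors `p_a`, `a ∈ A`, and of linear forms `l_b`,
`b ∈ B`, on `d`-dimensional space with `l_b (p_a) = 0` for all pairs `(a, b)` in `E`. -/
noncomputable def Orth (N d : ℕ) {A B : Type} (E : Set (A × B)) : Scheme.{0} :=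
  Zeros N {f : MvPolynomial ((A × Fin d) ⊕ (B × Fin d)) ℤ | ∃ e ∈ E,
    f = ∑ i, X (Sum.inl (e.1, i)) * X (Sum.inr (e.2, i))}

/-- The universal element with index `v` of the Heisenberg group of dimension `2 m + 1`: the
matrix with rows `(1, a, c)`, `(0, 1, b)`, `(0, 0, 1)`, where `a` and `b` are the row and the column
of the variables `a_i` and `b_i`, `i < m`, and `1` in the middle is the identity matrix. -/
noncomputable def heis {m : ℕ} {V : Type} (v : V) :
    Matrix (Unit ⊕ Fin m ⊕ Unit) (Unit ⊕ Fin m ⊕ Unit)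
      (MvPolynomial (V × (Fin m ⊕ Fin m ⊕ Unit)) ℤ)
  | Sum.inl _, Sum.inl _ => 1
  | Sum.inl _, Sum.inr (Sum.inl i) => X (v, Sum.inl i)
  | Sum.inl _, Sum.inr (Sum.inr _) => X (v, Sum.inr (Sum.inr ()))
  | Sum.inr (Sum.inl i), Sum.inr (Sum.inl j) => if i = j then 1 else 0
  | Sum.inr (Sum.inl i), Sum.inr (Sum.inr _) => X (v, Sum.inr (Sum.inl i))
  | Sum.inr (Sum.inr _), Sum.inr (Sum.inr _) => 1
  | _, _ => 0

/-- the matrix `M_v M_w - M_w M_v` for the universal elements `M_v` and `M_w` -/
noncomputable def bracket {m : ℕ} {V : Type} (v w : V) :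
    Matrix (Unit ⊕ Fin m ⊕ Unit) (Unit ⊕ Fin m ⊕ Unit)
      (MvPolynomial (V × (Fin m ⊕ Fin m ⊕ Unit)) ℤ) :=
  heis v * heis w - heis w * heis v

/-- The scheme over `ℤ/N` of homomorphisms from the right-angled Artin group of the graph `Γ` to
the Heisenberg group of dimension `2 m + 1`: families of elements indexed by the vertices of `Γ`
such that the elements at adjacent vertices commute. -/
noncomputable def HomHeis (N m : ℕ) {V : Type} (Γ : SimpleGraph V) : Scheme.{0} :=
  Zeros N {f : MvPolynomial (V × (Fin m ⊕ Fin m ⊕ Unit)) ℤ | ∃ v w, Γ.Adj v w ∧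
    ∃ i j, f = bracket v w i j}

/-- The scheme over `ℤ/N` of homomorphisms to the Heisenberg group of dimension `2 m + 1` from the
group with generators `x_v`, `v ∈ V`, and relations `[x_i, x_j] = [x_k, x_l]` for `(i, j, k, l)` in
`E`: in the Heisenberg group, `[M, M']` is the sum of the identity and `M M' - M' M`. -/
noncomputable def HomComm (N m : ℕ) {V : Type} (E : Set (V × V × V × V)) : Scheme.{0} :=
  Zeros N {f : MvPolynomial (V × (Fin m ⊕ Fin m ⊕ Unit)) ℤ | ∃ e ∈ E,
    ∃ i j, f = bracket e.1 e.2.1 i j - bracket e.2.2.1 e.2.2.2 i j}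

/-- the schemes of finite type over `ℤ/N` -/
def FiniteType (N : ℕ) : Set Scheme.{0} :=
  {X | ∃ f : X ⟶ Spec (CommRingCat.of (ZMod N)), LocallyOfFiniteType f ∧ QuasiCompact f}

/-- orthogonality relations in dimension `d` -/
def OrthClass (N d : ℕ) : Set Scheme.{0} :=
  {Y | ∃ (A B : Type) (_ : Finite A) (_ : Finite B) (E : Set (A × B)), Y = Orth N d E}

/-- homomorphisms from the right-angled Artin groups of finite graphs to the Heisenberg group
of dimension `2 m + 1` -/
def HeisClass (N m : ℕ) : Set Scheme.{0} :=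
  {Y | ∃ (V : Type) (_ : Finite V) (Γ : SimpleGraph V), Y = HomHeis N m Γ}

/-- homomorphisms to the Heisenberg group of dimension `2 m + 1` from the groups with finitely many
generators and any relations `[x_i, x_j] = [x_k, x_l]` -/
def CommClass (N m : ℕ) : Set Scheme.{0} :=
  {Y | ∃ (V : Type) (_ : Finite V) (E : Set (V × V × V × V)), Y = HomComm N m E}

/-- the same as `HeisClass` for finite bipartite graphs -/
def BipartiteHeisClass (N m : ℕ) : Set Scheme.{0} :=
  {Y | ∃ (V : Type) (_ : Finite V) (Γ : SimpleGraph V), Γ.Colorable 2 ∧ Y = HomHeis N m Γ}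

end Pool.Agent.Helper45.RM
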