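import Pool.Agent.Helper45.RM.Defs
import Pool.Agent.Helper45.RM.Cls

/-!
# Homomorphisms to the Heisenberg groups and orthogonality relations
-/

set_option autoImplicit false

open MvPolynomial
open Pool.Agent.Helper81.CP Pool.Agent.Helper81.HG

namespace Pool.Agent.Helper45.RM

/-- the equations of the homomorphisms from a right-angled Artin group to a Heisenberg group -/
noncomputable def heS (m : ℕ) {V : Type} (Γ : SimpleGraph V) :
    Set (MvPolynomial (V × (Fin m ⊕ Fin m ⊕ Unit)) ℤ) :=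
  {f | ∃ v w, Γ.Adj v w ∧ ∃ i j, f = bracket v w i j}

lemma bracket_cases {m : ℕ} {V : Type} (v w : V) (i j : Unit ⊕ Fin m ⊕ Unit) :
    (bracket v w i j : MvPolynomial (V × (Fin m ⊕ Fin m ⊕ Unit)) ℤ) = 0 ∨
    (bracket v w i j : MvPolynomial (V × (Fin m ⊕ Fin m ⊕ Unit)) ℤ) =
      ∑ l, X (v, Sum.inl l) * X (w, Sum.inr (Sum.inl l)) -
        ∑ l, X (w, Sum.inl l) * X (v, Sum.inr (Sum.inl l)) := by
  rcases i with i | i | i
  · rcases j with j | j | j
    · left
      simp [Matrix.mul_apply, bracket, heis]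
    · left
      simp [Matrix.mul_apply, bracket, heis]
      ring
    · right
      simp [Matrix.mul_apply, bracket, heis]
      ring
  · rcases j with j | j | j
    · left
      simp [Matrix.mul_apply, bracket, heis]
    · left
      simp [Matrix.mul_apply, bracket, heis]
    · left
      simp [Matrix.mul_apply, bracket, heis]
      ring
  · rcases j with j | j | j
    · left
      simp [Matrix.mul_apply, bracket, heis]
    · left
      simp [Matrix.mul_apply, bracket, heis]
    · left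
      simp [Matrix.mul_apply, bracket, heis]

lemma bracket_corner {m : ℕ} {V : Type} (v w : V) :
    (bracket v w (Sum.inl ()) (Sum.inr (Sum.inr ())) :
      MvPolynomial (V × (Fin m ⊕ Fin m ⊕ Unit)) ℤ) =
      ∑ l, X (v, Sum.inl l) * X (w, Sum.inr (Sum.inl l)) -
        ∑ l, X (w, Sum.inl l) * X (v, Sum.inr (Sum.inl l)) := by
  simp [Matrix.mul_apply, bracket, heis]
  ring

lemma pt_hes {m : ℕ} {V R : Type} [CommRing R] {Γ : SimpleGraph V}
    {x : V × (Fin m ⊕ Fin m ⊕ Unit) → R} : Pt (heS m Γ) x ↔ ∀ v w, Γ.Adj v w →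
      ∑ l, x (v, Sum.inl l) * x (w, Sum.inr (Sum.inl l)) =
        ∑ l, x (w, Sum.inl l) * x (v, Sum.inr (Sum.inl l)) := by
  constructor
  · intro h v w hvw
    have h1 := h _ ⟨v, w, hvw, Sum.inl (), Sum.inr (Sum.inr ()), rfl⟩
    rw [bracket_corner] at h1
    simp only [map_sum, map_mul, map_sub, ev_X] at h1
    exact sub_eq_zero.1 h1
  · rintro h _ ⟨v, w, hvw, i, j, rfl⟩
    rcases bracket_cases v w i j with h1 | h1
    · rw [h1, map_zero]
    · rw [h1]
      simp only [map_sum, map_mul, map_sub, ev_X]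
      exact sub_eq_zero.2 (h v w hvw)

/-- the bipartite graph of a relation -/
def bip {A B : Type} (E : Set (A × B)) : SimpleGraph (A ⊕ B) where
  Adj x y := (∃ e ∈ E, x = Sum.inl e.1 ∧ y = Sum.inr e.2) ∨
    ∃ e ∈ E, y = Sum.inl e.1 ∧ x = Sum.inr e.2
  symm := ⟨fun x y h => Or.symm h⟩
  loopless := ⟨fun x h => by
    rcases h with ⟨e, _, h1, h2⟩ | ⟨e, _, h1, h2⟩
    · rw [h1] at h2; cases h2
    · rw [h1] at h2; cases h2⟩

lemma bip_colorable {A B : Type} (E : Set (A × B)) : (bip E).Colorable 2 := by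
  refine ⟨SimpleGraph.Coloring.mk (Sum.elim (fun _ => 0) fun _ => 1) ?_⟩
  rintro v w (⟨e, _, rfl, rfl⟩ | ⟨e, _, rfl, rfl⟩)
  · simp
  · simp

/-- bipartite graphs and orthogonality relations -/
theorem gs_bip {G : ∀ (R : Type) [CommRing R], Prop} (hG : RG G) (m : ℕ) {A B : Type}
    [Finite A] [Finite B] (E : Set (A × B)) :
    GS G (heS m (bip E)) ↔ GS G (orS (m + m) E) := by
  rw [← hG.gs_emb (Sum.inl : OV (m + m) A B → OV (m + m) A B ⊕ (A ⊕ B)) Sum.inl_injective]
  have hU : ∀ (R : Type) [CommRing R] (z : OV (m + m) A B ⊕ (A ⊕ B) → R),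
      Pt (rename (Sum.inl : OV (m + m) A B → OV (m + m) A B ⊕ (A ⊕ B)) '' orS (m + m) E) z ↔
        ∀ e ∈ E, dt (fun i => z (Sum.inl i)) e.1 e.2 = 0 := by
    intro R _ z
    rw [← pt_ors]
    simp only [Pt, Set.forall_mem_image, ev_rename]
  refine hG.gs_iso
    (fun R _ x => Sum.elim (Sum.elim
      (fun p => Fin.addCases (motive := fun _ => R) (fun i => x (Sum.inl p.1, Sum.inl i))
        (fun i => x (Sum.inl p.1, Sum.inr (Sum.inl i))) p.2)
      (fun p => Fin.addCases (motive := fun _ => R) (fun i => x (Sum.inr p.1, Sum.inr (Sum.inl i)))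
        (fun i => - x (Sum.inr p.1, Sum.inl i)) p.2))
      (fun v => x (v, Sum.inr (Sum.inr ()))))
    (fun R _ y => fun p => match p with
      | (Sum.inl a, Sum.inl i) => y (Sum.inl (Sum.inl (a, Fin.castAdd m i)))
      | (Sum.inl a, Sum.inr (Sum.inl i)) => y (Sum.inl (Sum.inl (a, Fin.natAdd m i)))
      | (Sum.inr b, Sum.inl i) => - y (Sum.inl (Sum.inr (b, Fin.natAdd m i)))
      | (Sum.inr b, Sum.inr (Sum.inl i)) => y (Sum.inl (Sum.inr (b, Fin.castAdd m i)))
      | (v, Sum.inr (Sum.inr _)) => y (Sum.inr v))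
    ?_ ?_ ?_ ?_ ?_ ?_
  · intro R R' _ _ φ x _ j
    rcases j with (⟨a, i⟩ | ⟨b, i⟩) | j
    · refine Fin.addCases (fun i => ?_) (fun i => ?_) i
      · simp only [Sum.elim_inl, Fin.addCases_left]
      · simp only [Sum.elim_inl, Fin.addCases_right]
    · refine Fin.addCases (fun i => ?_) (fun i => ?_) i
      · simp only [Sum.elim_inl, Sum.elim_inr, Fin.addCases_left]
      · simp only [Sum.elim_inl, Sum.elim_inr, Fin.addCases_right, map_neg]
    · rfl
  · intro R R' _ _ φ y _ j
    rcases j with ⟨a | b, i | i | i⟩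
    · rfl
    · rfl
    · rfl
    · exact map_neg φ _
    · rfl
    · rfl
  · intro R _ x hx
    rw [pt_hes] at hx
    rw [hU]
    intro e he
    have h1 := hx _ _ (Or.inl ⟨e, he, rfl, rfl⟩)
    unfold dt
    rw [Fin.sum_univ_add]
    simp only [Sum.elim_inl, Sum.elim_inr, Fin.addCases_left, Fin.addCases_right]
    rw [h1, ← Finset.sum_add_distrib]
    exact Finset.sum_eq_zero fun i _ => by ring
  · intro R _ y hy
    rw [hU] at hy
    rw [pt_hes]
    have key : ∀ e ∈ E, ∑ l, y (Sum.inl (Sum.inl (e.1, Fin.castAdd m l))) *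
        y (Sum.inl (Sum.inr (e.2, Fin.castAdd m l))) =
        ∑ l, - y (Sum.inl (Sum.inr (e.2, Fin.natAdd m l))) *
          y (Sum.inl (Sum.inl (e.1, Fin.natAdd m l))) := by
      intro e he
      have h1 := hy e he
      unfold dt at h1
      rw [Fin.sum_univ_add] at h1
      rw [eq_neg_of_add_eq_zero_left h1, ← Finset.sum_neg_distrib]
      exact Finset.sum_congr rfl fun i _ => by ring
    rintro v w (⟨e, he, rfl, rfl⟩ | ⟨e, he, rfl, rfl⟩)
    · exact key e he
    · exact (key e he).symm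
  · intro R _ x _
    funext j
    rcases j with ⟨a | b, i | i | i⟩
    · simp only [Sum.elim_inl, Fin.addCases_left]
    · simp only [Sum.elim_inl, Fin.addCases_right]
    · rfl
    · simp only [Sum.elim_inl, Sum.elim_inr, Fin.addCases_right, neg_neg]
    · simp only [Sum.elim_inl, Sum.elim_inr, Fin.addCases_left]
    · rfl
  · intro R _ y _
    funext j
    rcases j with (⟨a, i⟩ | ⟨b, i⟩) | (j | j)
    · refine Fin.addCases (fun i => ?_) (fun i => ?_) i
      · simp only [Sum.elim_inl, Fin.addCases_left]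
      · simp only [Sum.elim_inl, Fin.addCases_right]
    · refine Fin.addCases (fun i => ?_) (fun i => ?_) i
      · simp only [Sum.elim_inl, Sum.elim_inr, Fin.addCases_left]
      · simp only [Sum.elim_inl, Sum.elim_inr, Fin.addCases_right, neg_neg]
    · rfl
    · rfl

end Pool.Agent.Helper45.RM
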