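import Pool.Agent.Helper81.HG.Base
import Pool.Agent.Helper45.RM.Circ
import Pool.Agent.Helper45.RM.Heis

/-!
# Equal commutators in the Heisenberg group of dimension three
-/

set_option autoImplicit false

open MvPolynomial
open Pool.Agent.Helper81.CP Pool.Agent.Helper81.HG

namespace Pool.Agent.Helper45.RM

/-- the equations `[M_i, M_j] = [M_k, M_l]` for `(i, j, k, l) ∈ E` -/
noncomputable def coS (m : ℕ) {V : Type} (E : Set (V × V × V × V)) :
    Set (MvPolynomial (V × (Fin m ⊕ Fin m ⊕ Unit)) ℤ) :=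
  {f | ∃ e ∈ E, ∃ i j, f = bracket e.1 e.2.1 i j - bracket e.2.2.1 e.2.2.2 i j}

/-- relations with trivial commutators -/
lemma cos_hes (m : ℕ) {V : Type} (Γ : SimpleGraph V) :
    coS m {e : V × V × V × V | Γ.Adj e.1 e.2.1 ∧ e.2.2 = (e.1, e.1)} = heS m Γ := by
  ext f
  constructor
  · rintro ⟨⟨v, w, u⟩, ⟨h1, h2⟩, i, j, rfl⟩
    have h3 : u = (v, v) := h2
    subst h3
    refine ⟨v, w, h1, i, j, ?_⟩
    simp only [bracket, sub_self, Matrix.zero_apply, sub_zero]
  · rintro ⟨v, w, h1, i, j, rfl⟩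
    refine ⟨(v, w, v, v), ⟨h1, rfl⟩, i, j, ?_⟩
    simp only [bracket, sub_self, Matrix.zero_apply, sub_zero]

lemma bracket_off {m : ℕ} {V : Type} (i j : Unit ⊕ Fin m ⊕ Unit)
    (h : ¬ (i = Sum.inl () ∧ j = Sum.inr (Sum.inr ()))) (v w : V) :
    (bracket v w i j : MvPolynomial (V × (Fin m ⊕ Fin m ⊕ Unit)) ℤ) = 0 := by
  rcases i with i | i | i
  · rcases j with j | j | j
    · simp [Matrix.mul_apply, bracket, heis]
    · simp [Matrix.mul_apply, bracket, heis]
      ring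
    · exact absurd ⟨rfl, rfl⟩ h
  · rcases j with j | j | j
    · simp [Matrix.mul_apply, bracket, heis]
    · simp [Matrix.mul_apply, bracket, heis]
    · simp [Matrix.mul_apply, bracket, heis]
      ring
  · rcases j with j | j | j
    · simp [Matrix.mul_apply, bracket, heis]
    · simp [Matrix.mul_apply, bracket, heis]
    · simp [Matrix.mul_apply, bracket, heis]

/-- the alternating form of the coordinates `a` and `b` -/
def omg {V R : Type} [CommRing R] (x : V × Fin 2 → R) (v w : V) : R :=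
  x (v, 0) * x (w, 1) - x (w, 0) * x (v, 1)

/-- the polynomial of the alternating form -/
noncomputable def omp {V : Type} (v w : V) : MvPolynomial (V × Fin 2) ℤ :=
  X (v, 0) * X (w, 1) - X (w, 0) * X (v, 1)

lemma ev_omp {V R : Type} [CommRing R] (x : V × Fin 2 → R) (v w : V) :
    ev x (omp v w) = omg x v w := by
  unfold omp omg
  simp only [map_sub, map_mul, ev_X]

/-- the system of equal alternating forms -/
noncomputable def ecS {V : Type} (E : Set (V × V × V × V)) : Set (MvPolynomial (V × Fin 2) ℤ) :=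
  (fun e => omp e.1 e.2.1 - omp e.2.2.1 e.2.2.2) '' E

lemma pt_ecs {V R : Type} [CommRing R] {E : Set (V × V × V × V)} {x : V × Fin 2 → R} :
    Pt (ecS E) x ↔ ∀ e ∈ E, omg x e.1 e.2.1 = omg x e.2.2.1 e.2.2.2 := by
  unfold ecS Pt
  simp only [Set.forall_mem_image, map_sub, ev_omp, sub_eq_zero]

/-- the coordinates `a` and `b` -/
def kab {V : Type} (p : V × Fin 2) : V × (Fin 1 ⊕ Fin 1 ⊕ Unit) :=
  (p.1, if p.2 = 0 then Sum.inl 0 else Sum.inr (Sum.inl 0))

lemma kab_inj {V : Type} : Function.Injective (kab (V := V)) := by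
  rintro ⟨v, i⟩ ⟨w, j⟩ h
  have h1 : v = w := congrArg Prod.fst h
  have h2 := congrArg Prod.snd h
  subst h1
  fin_cases i <;> fin_cases j <;> simp [kab] at h2 ⊢

lemma ev_bracket {V R : Type} [CommRing R] (x : V × (Fin 1 ⊕ Fin 1 ⊕ Unit) → R) (v w : V) :
    ev x (bracket v w (Sum.inl ()) (Sum.inr (Sum.inr ()))) = omg (fun p => x (kab p)) v w := by
  rw [bracket_corner]
  simp only [map_mul, map_sub, ev_X, Fin.sum_univ_one]
  rfl

lemma pt_cos {V R : Type} [CommRing R] {E : Set (V × V × V × V)}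
    {x : V × (Fin 1 ⊕ Fin 1 ⊕ Unit) → R} : Pt (coS 1 E) x ↔
      Pt (ecS E) (fun p => x (kab p)) := by
  rw [pt_ecs]
  constructor
  · intro h e he
    have h1 := h _ ⟨e, he, Sum.inl (), Sum.inr (Sum.inr ()), rfl⟩
    rw [map_sub, ev_bracket, ev_bracket, sub_eq_zero] at h1
    exact h1
  · rintro h _ ⟨e, he, i, j, rfl⟩
    by_cases hij : i = Sum.inl () ∧ j = Sum.inr (Sum.inr ())
    · obtain ⟨rfl, rfl⟩ := hij
      rw [map_sub, ev_bracket, ev_bracket, sub_eq_zero]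
      exact h e he
    · rw [bracket_off i j hij, bracket_off i j hij, sub_self, map_zero]

lemma gs_cos {G : ∀ (R : Type) [CommRing R], Prop} (hG : RG G) {V : Type} [Finite V]
    (E : Set (V × V × V × V)) : GS G (coS 1 E) ↔ GS G (ecS E) := by
  rw [← hG.gs_emb kab kab_inj (ecS E)]
  refine hG.gs_congr fun R _ x => ?_
  rw [pt_cos]
  unfold Pt
  simp only [Set.forall_mem_image, ev_rename]

/-! ### Constraints -/

/-- the generators -/
inductive Gn (Y K : Type)
  | e0 | e1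
  | x (v : Y) | y (v : Y)
  | u (c : K) | w (c : K)

instance {Y K : Type} [Finite Y] [Finite K] : Finite (Gn Y K) := by
  have h : Function.Surjective (fun p : Bool ⊕ (Y ⊕ Y) ⊕ (K ⊕ K) => (match p with
      | Sum.inl true => Gn.e0
      | Sum.inl false => Gn.e1
      | Sum.inr (Sum.inl (Sum.inl v)) => Gn.x v
      | Sum.inr (Sum.inl (Sum.inr v)) => Gn.y v
      | Sum.inr (Sum.inr (Sum.inl c)) => Gn.u c
      | Sum.inr (Sum.inr (Sum.inr c)) => Gn.w c : Gn Y K)) := by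
    rintro (_ | _ | v | v | c | c)
    · exact ⟨Sum.inl true, rfl⟩
    · exact ⟨Sum.inl false, rfl⟩
    · exact ⟨Sum.inr (Sum.inl (Sum.inl v)), rfl⟩
    · exact ⟨Sum.inr (Sum.inl (Sum.inr v)), rfl⟩
    · exact ⟨Sum.inr (Sum.inr (Sum.inl c)), rfl⟩
    · exact ⟨Sum.inr (Sum.inr (Sum.inr c)), rfl⟩
  exact Finite.of_surjective _ h

/-- the first two arguments and the value of a constraint -/
def Con.a1 {Y : Type} : Con Y → Y
  | .add a _ _ => a
  | .mul a _ _ => a

/-- the second argument -/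
def Con.a2 {Y : Type} : Con Y → Y
  | .add _ b _ => b
  | .mul _ b _ => b

/-- the relation of a constraint -/
def Con.rel {Y K : Type} (k : K) : Con Y → Gn Y K × Gn Y K × Gn Y K × Gn Y K
  | .add _ _ c => (.u k, .w k, .x c, .e1)
  | .mul a b c => (.x a, .y b, .x c, .e1)

/-- the relations -/
def eqE {Y K : Type} (o : Y) (S : Set Y) (cs : K → Con Y) :
    Set (Gn Y K × Gn Y K × Gn Y K × Gn Y K) :=
  {e | e = (.x o, .e1, .e0, .e1) ∨ (∃ v ∈ S, e = (.x v, .e1, .e0, .e0)) ∨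
    (∃ v, e = (.e0, .x v, .e0, .e0) ∨ e = (.y v, .e1, .e0, .e0) ∨
      e = (.e0, .y v, .x v, .e1)) ∨
    ∃ k, e = (.u k, .e1, .x (cs k).a1, .e1) ∨ e = (.e0, .u k, .e0, .e1) ∨
      e = (.e1, .w k, .x (cs k).a2, .e1) ∨ e = (.e0, .w k, .e0, .e1) ∨ e = (cs k).rel k}

/-- the normalized coordinates -/
def gnv {Y K R : Type} [CommRing R] (cs : K → Con Y) (t : Y → R) : Gn Y K → Fin 2 → R
  | .e0 => ![1, 0]
  | .e1 => ![0, 1]
  | .x v => ![t v, 0]
  | .y v => ![0, t v]
  | .u k => ![t (cs k).a1, 1]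
  | .w k => ![- t (cs k).a2, 1]

lemma gnv_map {Y K R S : Type} [CommRing R] [CommRing S] (φ : R →+* S) (cs : K → Con Y)
    (t : Y → R) (p : Gn Y K) (j : Fin 2) :
    φ (gnv cs t p j) = gnv cs (fun v => φ (t v)) p j := by
  cases p <;> fin_cases j <;> simp [gnv]

/-- the families with the matrix `y` as the first two elements -/
def gnu {Y K R : Type} [CommRing R] (cs : K → Con Y) (y : Y ⊕ Fin 4 → R) :
    Gn Y K × Fin 2 → R := fun p =>
  gnv cs (fun v => y (Sum.inl v)) p.1 0 * (![y (Sum.inr 0), y (Sum.inr 1)] : Fin 2 → R) p.2 +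
    gnv cs (fun v => y (Sum.inl v)) p.1 1 * (![y (Sum.inr 2), y (Sum.inr 3)] : Fin 2 → R) p.2

lemma omg_gnu {Y K R : Type} [CommRing R] (cs : K → Con Y) (y : Y ⊕ Fin 4 → R)
    (p q : Gn Y K) : omg (gnu cs y) p q =
      (y (Sum.inr 0) * y (Sum.inr 3) - y (Sum.inr 1) * y (Sum.inr 2)) *
        (gnv cs (fun v => y (Sum.inl v)) p 0 * gnv cs (fun v => y (Sum.inl v)) q 1 -
          gnv cs (fun v => y (Sum.inl v)) q 0 * gnv cs (fun v => y (Sum.inl v)) p 1) := by
  unfold omg gnu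
  simp only [Matrix.cons_val_zero, Matrix.cons_val_one]
  ring

section

variable {Y K R : Type} [CommRing R] {o : Y} {S : Set Y} {cs : K → Con Y}

lemma cramer (x : Gn Y K × Fin 2 → R) (p : Gn Y K) (i : Fin 2) :
    omg x p .e1 * x (.e0, i) + omg x .e0 p * x (.e1, i) = omg x .e0 .e1 * x (p, i) := by
  unfold omg
  fin_cases i
  · simp only [Fin.zero_eta]
    ring
  · simp only [Fin.mk_one]
    ring

lemma pluecker (x : Gn Y K × Fin 2 → R) (p q : Gn Y K) :
    omg x p .e1 * omg x .e0 q - omg x q .e1 * omg x .e0 p = omg x .e0 .e1 * omg x p q := by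
  unfold omg
  ring

/-- the normalized coordinates are determined -/
lemma gnv_eq {x : Gn Y K × Fin 2 → R} (hx : ∀ e ∈ eqE o S cs,
    omg x e.1 e.2.1 = omg x e.2.2.1 e.2.2.2) {d : R} (hd : omg x .e0 .e1 * d = 1)
    (p : Gn Y K) : omg x p .e1 * d = gnv cs (fun v => omg x (.x v) .e1 * d) p 0 ∧
      omg x .e0 p * d = gnv cs (fun v => omg x (.x v) .e1 * d) p 1 := by
  have h0 : omg x .e0 .e0 = 0 := by unfold omg; ring
  have h1 : omg x .e1 .e1 = 0 := by unfold omg; ring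
  rcases p with _ | _ | v | v | k | k
  · exact ⟨by rw [hd]; rfl, by rw [h0, zero_mul]; rfl⟩
  · exact ⟨by rw [h1, zero_mul]; rfl, by rw [hd]; rfl⟩
  · have h2 : omg x .e0 (.x v) = omg x .e0 .e0 :=
      hx (.e0, .x v, .e0, .e0) (Or.inr (Or.inr (Or.inl ⟨v, Or.inl rfl⟩)))
    exact ⟨rfl, by rw [h2, h0, zero_mul]; rfl⟩
  · have h2 : omg x (.y v) .e1 = omg x .e0 .e0 :=
      hx (.y v, .e1, .e0, .e0) (Or.inr (Or.inr (Or.inl ⟨v, Or.inr (Or.inl rfl)⟩)))
    have h3 : omg x .e0 (.y v) = omg x (.x v) .e1 :=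
      hx (.e0, .y v, .x v, .e1) (Or.inr (Or.inr (Or.inl ⟨v, Or.inr (Or.inr rfl)⟩)))
    exact ⟨by rw [h2, h0, zero_mul]; rfl, by rw [h3]; rfl⟩
  · have h2 : omg x (.u k) .e1 = omg x (.x (cs k).a1) .e1 :=
      hx (.u k, .e1, .x (cs k).a1, .e1) (Or.inr (Or.inr (Or.inr ⟨k, Or.inl rfl⟩)))
    have h3 : omg x .e0 (.u k) = omg x .e0 .e1 :=
      hx (.e0, .u k, .e0, .e1) (Or.inr (Or.inr (Or.inr ⟨k, Or.inr (Or.inl rfl)⟩)))
    exact ⟨by rw [h2]; rfl, by rw [h3, hd]; rfl⟩
  · have h2 : omg x .e1 (.w k) = omg x (.x (cs k).a2) .e1 :=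
      hx (.e1, .w k, .x (cs k).a2, .e1) (Or.inr (Or.inr (Or.inr ⟨k, Or.inr (Or.inr (Or.inl rfl))⟩)))
    have h3 : omg x .e0 (.w k) = omg x .e0 .e1 :=
      hx (.e0, .w k, .e0, .e1)
        (Or.inr (Or.inr (Or.inr ⟨k, Or.inr (Or.inr (Or.inr (Or.inl rfl)))⟩)))
    have h4 : omg x (.w k) .e1 = - omg x .e1 (.w k) := by unfold omg; ring
    exact ⟨by rw [h4, h2, neg_mul]; rfl, by rw [h3, hd]; rfl⟩

lemma omg_eq {x : Gn Y K × Fin 2 → R} (hx : ∀ e ∈ eqE o S cs,
    omg x e.1 e.2.1 = omg x e.2.2.1 e.2.2.2) {d : R} (hd : omg x .e0 .e1 * d = 1)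
    (p q : Gn Y K) : omg x p q * d =
      gnv cs (fun v => omg x (.x v) .e1 * d) p 0 * gnv cs (fun v => omg x (.x v) .e1 * d) q 1 -
      gnv cs (fun v => omg x (.x v) .e1 * d) q 0 * gnv cs (fun v => omg x (.x v) .e1 * d) p 1 := by
  rw [← (gnv_eq hx hd p).1, ← (gnv_eq hx hd p).2, ← (gnv_eq hx hd q).1, ← (gnv_eq hx hd q).2]
  have h1 := pluecker x p q
  have h2 : omg x p q = omg x .e0 .e1 * omg x p q * d := by
    linear_combination (- omg x p q) * hd
  rw [h2, ← h1]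
  ring

lemma xs_of_eq {x : Gn Y K × Fin 2 → R} (hx : ∀ e ∈ eqE o S cs,
    omg x e.1 e.2.1 = omg x e.2.2.1 e.2.2.2) {d : R} (hd : omg x .e0 .e1 * d = 1) :
    Pt (xS o S cs) (fun v => omg x (.x v) .e1 * d) := by
  have h0 : omg x .e0 .e0 = 0 := by unfold omg; ring
  rw [pt_xs]
  refine ⟨?_, fun v hv => ?_, fun k => ?_⟩
  · have h1 : omg x (.x o) .e1 = omg x .e0 .e1 := hx (.x o, .e1, .e0, .e1) (Or.inl rfl)
    rw [h1, hd]
  · have h1 : omg x (.x v) .e1 = omg x .e0 .e0 :=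
      hx (.x v, .e1, .e0, .e0) (Or.inr (Or.inl ⟨v, hv, rfl⟩))
    rw [h1, h0, zero_mul]
  · have h1 := hx ((cs k).rel k) (Or.inr (Or.inr (Or.inr
      ⟨k, Or.inr (Or.inr (Or.inr (Or.inr rfl)))⟩)))
    rcases hc : cs k with ⟨a, b, c⟩ | ⟨a, b, c⟩
    · rw [hc] at h1
      have h2 : omg x (.u k) (.w k) * d = omg x (.x c) .e1 * d := by
        rw [show omg x (.u k) (.w k) = omg x (.x c) .e1 from h1]
      rw [omg_eq hx hd] at h2
      simp only [gnv, hc, Con.a1, Con.a2, Matrix.cons_val_zero, Matrix.cons_val_one] at h2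
      show omg x (.x a) .e1 * d + omg x (.x b) .e1 * d = omg x (.x c) .e1 * d
      rw [← h2]
      ring
    · rw [hc] at h1
      have h2 : omg x (.x a) (.y b) * d = omg x (.x c) .e1 * d := by
        rw [show omg x (.x a) (.y b) = omg x (.x c) .e1 from h1]
      rw [omg_eq hx hd] at h2
      simp only [gnv, Matrix.cons_val_zero, Matrix.cons_val_one] at h2
      show omg x (.x a) .e1 * d * (omg x (.x b) .e1 * d) = omg x (.x c) .e1 * d
      rw [← h2]
      ring

lemma eq_of_xs {y : Y ⊕ Fin 4 → R} (hy : Pt (xS o S cs) fun v => y (Sum.inl v)) :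
    ∀ e ∈ eqE o S cs, omg (gnu cs y) e.1 e.2.1 = omg (gnu cs y) e.2.2.1 e.2.2.2 := by
  rw [pt_xs] at hy
  obtain ⟨h1, h2, h3⟩ := hy
  have key : ∀ p q p' q' : Gn Y K,
      gnv cs (fun v => y (Sum.inl v)) p 0 * gnv cs (fun v => y (Sum.inl v)) q 1 -
          gnv cs (fun v => y (Sum.inl v)) q 0 * gnv cs (fun v => y (Sum.inl v)) p 1 =
      gnv cs (fun v => y (Sum.inl v)) p' 0 * gnv cs (fun v => y (Sum.inl v)) q' 1 -
          gnv cs (fun v => y (Sum.inl v)) q' 0 * gnv cs (fun v => y (Sum.inl v)) p' 1 →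
      omg (gnu cs y) p q = omg (gnu cs y) p' q' := by
    intro p q p' q' h
    rw [omg_gnu, omg_gnu, h]
  rintro e (rfl | ⟨v, hv, rfl⟩ | ⟨v, rfl | rfl | rfl⟩ | ⟨k, rfl | rfl | rfl | rfl | rfl⟩)
  · refine key _ _ _ _ ?_
    simp [gnv, h1]
  · refine key _ _ _ _ ?_
    simp [gnv, h2 v hv]
  · refine key _ _ _ _ ?_
    simp [gnv]
  · refine key _ _ _ _ ?_
    simp [gnv]
  · refine key _ _ _ _ ?_
    simp [gnv]
  · refine key _ _ _ _ ?_
    simp [gnv]
  · refine key _ _ _ _ ?_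
    simp [gnv]
  · refine key _ _ _ _ ?_
    simp [gnv]
  · refine key _ _ _ _ ?_
    simp [gnv]
  · have h4 := h3 k
    rcases hc : cs k with ⟨a, b, c⟩ | ⟨a, b, c⟩
    · rw [hc] at h4
      refine key _ _ _ _ ?_
      simp only [gnv, hc, Con.a1, Con.a2, Matrix.cons_val_zero, Matrix.cons_val_one, Con.rel]
      have h5 : y (Sum.inl a) + y (Sum.inl b) = y (Sum.inl c) := h4
      rw [← h5]
      ring
    · rw [hc] at h4
      refine key _ _ _ _ ?_
      simp only [gnv, Matrix.cons_val_zero, Matrix.cons_val_one, Con.rel]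
      have h5 : y (Sum.inl a) * y (Sum.inl b) = y (Sum.inl c) := h4
      rw [← h5]
      ring

end

lemma pt_ren {Y R : Type} [CommRing R] {E : Set (MvPolynomial Y ℤ)} {y : Y ⊕ Fin 4 → R} :
    Pt (rename Sum.inl '' E) y ↔ Pt E fun v => y (Sum.inl v) := by
  unfold Pt
  simp only [Set.forall_mem_image, ev_rename]

lemma ev_dt {Y R : Type} [CommRing R] (y : Y ⊕ Fin 4 → R) :
    ev y (Pool.Agent.Helper81.HG.dt Y) = y (Sum.inr 0) * y (Sum.inr 3) - y (Sum.inr 1) * y (Sum.inr 2) := by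
  unfold Pool.Agent.Helper81.HG.dt
  simp only [map_sub, map_mul, ev_X]

/-- **Families of plane vectors with equal determinants encode constraints.** -/
theorem go_eqc {G : ∀ (R : Type) [CommRing R], Prop} (hG : RG G) {Y K : Type} [Finite Y]
    [Finite K] (o : Y) (S : Set Y) (cs : K → Con Y) :
    GO G (ecS (eqE o S cs)) (omp .e0 .e1) ↔ GO G (rename Sum.inl '' xS o S cs) (Pool.Agent.Helper81.HG.dt Y) := by
  have hinv : ∀ {R : Type} [CommRing R] {a : R}, IsUnit a → a * Ring.inverse a = 1 :=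
    fun h => Ring.mul_inverse_cancel _ h
  refine hG.gl_iso
    (fun R _ x => Sum.elim (fun v => omg x (.x v) .e1 * Ring.inverse (omg x .e0 .e1))
      (![x (.e0, 0), x (.e0, 1), x (.e1, 0), x (.e1, 1)]))
    (fun R _ y => gnu cs y) ?_ ?_ ?_ ?_ ?_ ?_
  · intro R R' _ _ φ x hx j
    have hu := hx.2
    rw [ev_omp] at hu
    rcases j with v | j
    · show φ (omg x (.x v) .e1 * Ring.inverse (omg x .e0 .e1)) =
        omg (fun i => φ (x i)) (.x v) .e1 * Ring.inverse (omg (fun i => φ (x i)) .e0 .e1)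
      rw [map_mul, map_inv_of_unit φ hu]
      unfold omg
      simp only [map_sub, map_mul]
    · fin_cases j <;> rfl
  · intro R R' _ _ φ y _ p
    show φ (gnu cs y p) = gnu cs (fun j => φ (y j)) p
    unfold gnu
    rw [map_add, map_mul, map_mul, gnv_map, gnv_map]
    obtain ⟨p, i⟩ := p
    fin_cases i <;> rfl
  · intro R _ x hx
    obtain ⟨h1, h2⟩ := hx
    rw [ev_omp] at h2
    rw [pt_ecs] at h1
    refine ⟨?_, ?_⟩
    · rw [pt_ren]
      exact xs_of_eq h1 (hinv h2)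
    · rw [ev_dt]
      show IsUnit (x (.e0, 0) * x (.e1, 1) - x (.e0, 1) * x (.e1, 0))
      have h3 : x (.e0, 0) * x (.e1, 1) - x (.e0, 1) * x (.e1, 0) = omg x .e0 .e1 := by
        unfold omg
        ring
      rw [h3]
      exact h2
  · intro R _ y hy
    obtain ⟨h1, h2⟩ := hy
    rw [pt_ren] at h1
    rw [ev_dt] at h2
    refine ⟨?_, ?_⟩
    · rw [pt_ecs]
      exact eq_of_xs h1
    · rw [ev_omp, omg_gnu]
      simpa [gnv] using h2
  · intro R _ x hx
    obtain ⟨h1, h2⟩ := hx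
    rw [ev_omp] at h2
    rw [pt_ecs] at h1
    funext p
    obtain ⟨p, i⟩ := p
    have h3 := gnv_eq h1 (hinv h2) p
    have h4 := cramer x p i
    have h5 : x (p, i) = Ring.inverse (omg x .e0 .e1) * (omg x .e0 .e1 * x (p, i)) := by
      rw [← mul_assoc, mul_comm (Ring.inverse _), hinv h2, one_mul]
    unfold gnu
    simp only [Sum.elim_inl, Sum.elim_inr]
    rw [← h3.1, ← h3.2, h5, ← h4]
    fin_cases i
    · simp only [Matrix.cons_val_zero, Matrix.cons_val_one, Fin.zero_eta, Matrix.cons_val]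
      ring
    · simp only [Matrix.cons_val_zero, Matrix.cons_val_one, Fin.mk_one, Matrix.cons_val]
      ring
  · intro R _ y hy
    obtain ⟨h1, h2⟩ := hy
    rw [ev_dt] at h2
    have h3 : omg (gnu cs y) .e0 .e1 =
        y (Sum.inr 0) * y (Sum.inr 3) - y (Sum.inr 1) * y (Sum.inr 2) := by
      rw [omg_gnu]
      simp [gnv]
    funext j
    rcases j with v | j
    · simp only [Sum.elim_inl]
      rw [h3, omg_gnu]
      have h4 := hinv h2
      simp only [gnv, Matrix.cons_val_zero, Matrix.cons_val_one, mul_one, mul_zero, sub_zero]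

      linear_combination y (Sum.inl v) * h4
    · simp only [Sum.elim_inr]
      fin_cases j <;> simp [gnu, gnv]

/-- **Universality of equal commutators in the Heisenberg group of dimension three.** -/
theorem hyp_of_eqc {G : ∀ (R : Type) [CommRing R], Prop} (hG : RG G)
    (h : ∀ (V : Type) [Finite V] (E : Set (V × V × V × V)), GS G (ecS E))
    {σ : Type} [Finite σ] (f : MvPolynomial σ ℤ) : GS G {f} := by
  obtain ⟨Y, K, _, _, o, S, cs, hf⟩ := gs_circ hG f
  have h1 : GS G (insert (omp .e0 .e1) (ecS (eqE o S cs))) := by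
    refine (hG.gs_congr fun R _ x => ?_).1
      (h (Gn Y K) (insert (.e0, .e1, .e0, .e0) (eqE o S cs)))
    rw [Pt.insert_iff, ev_omp, pt_ecs, pt_ecs, Set.forall_mem_insert]
    have h0 : omg x .e0 .e0 = 0 := by unfold omg; ring
    simp only [h0]
  have h2 := (go_eqc hG o S cs).1 (hG.gs_opn (h (Gn Y K) (eqE o S cs)) h1)
  exact hf.1 (hG.gl2 Y _ h2)

end Pool.Agent.Helper45.RM
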