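import Pool.Agent.Helper45.RM.Gln

/-!
# Orthogonality relations: lowering the dimension
-/

set_option autoImplicit false

open MvPolynomial
open Pool.Agent.Helper81.CP

namespace Pool.Agent.Helper45.RM

/-- variables: vectors `p_a` and linear forms `l_b` -/
abbrev OV (d : ℕ) (A B : Type) : Type := (A × Fin d) ⊕ (B × Fin d)

/-- the value of the form `l_b` on the vector `p_a`, for `e = (a, b)` -/
noncomputable def pr {d : ℕ} {A B : Type} (e : A × B) : MvPolynomial (OV d A B) ℤ :=
  ∑ i, X (Sum.inl (e.1, i)) * X (Sum.inr (e.2, i))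

/-- orthogonality relations -/
noncomputable def orS (d : ℕ) {A B : Type} (E : Set (A × B)) : Set (MvPolynomial (OV d A B) ℤ) :=
  {f | ∃ e ∈ E, f = ∑ i, X (Sum.inl (e.1, i)) * X (Sum.inr (e.2, i))}

/-- the value of a form on a vector -/
def dt {d : ℕ} {A B R : Type} [CommRing R] (x : OV d A B → R) (a : A) (b : B) : R :=
  ∑ i, x (Sum.inl (a, i)) * x (Sum.inr (b, i))

lemma ev_pr {d : ℕ} {A B R : Type} [CommRing R] (x : OV d A B → R) (e : A × B) :
    ev x (pr e) = dt x e.1 e.2 := by
  unfold pr dt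
  simp only [map_sum, map_mul, ev_X]

lemma pt_ors {d : ℕ} {A B R : Type} [CommRing R] {E : Set (A × B)} {x : OV d A B → R} :
    Pt (orS d E) x ↔ ∀ e ∈ E, dt x e.1 e.2 = 0 := by
  constructor
  · intro h e he
    rw [← ev_pr]
    exact h _ ⟨e, he, rfl⟩
  · rintro h _ ⟨e, he, rfl⟩
    exact (ev_pr x e).trans (h e he)

section
variable {Q : ∀ (R : Type) [CommRing R], ℤ → Prop} (hQ : RingCP Q) {A B : Type} [Finite A]
  [Finite B] (E : Set (A × B)) {d : ℕ}

/-- one more point, which lies on all lines -/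
def ext1 {A B : Type} (E : Set (A × B)) : Set (Option A × B) :=
  {e | e.1 = none ∨ ∃ a, e.1 = some a ∧ (a, e.2) ∈ E}

/-- the new point -/
noncomputable def wor (d : ℕ) (A B : Type) : Fin (d + 1) → MvPolynomial (OV (d + 1) (Option A) B) ℤ :=
  fun a => X (Sum.inl (none, a))

/-- the action of the general linear group -/
noncomputable def actOr : Act (orS (d + 1) (ext1 E)) (wor d A B) where
  act := fun R _ g g' x => Sum.elim
    (fun p => g.mulVec (fun a => x (Sum.inl (p.1, a))) p.2)
    (fun p => Matrix.vecMul (fun a => x (Sum.inr (p.1, a))) g' p.2)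
  nat := by
    intro R S _ _ φ g g' x i
    rcases i with i | i
    · show φ (g.mulVec _ i.2) = (g.map φ).mulVec _ i.2
      simp only [Matrix.mulVec, dotProduct, map_sum, map_mul, Matrix.map_apply]
    · show φ (Matrix.vecMul _ g' i.2) = Matrix.vecMul _ (g'.map φ) i.2
      simp only [Matrix.vecMul, dotProduct, map_sum, map_mul, Matrix.map_apply]
  pres := by
    intro R _ g g' x _ hg hx
    rw [pt_ors] at hx ⊢
    intro e he
    exact (dot_inv g g' hg _ _).trans (hx e he)
  inv := by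
    intro R _ g g' x hg hg'
    funext i
    rcases i with i | i
    · show g'.mulVec (g.mulVec (fun a => x (Sum.inl (i.1, a)))) i.2 = _
      rw [Matrix.mulVec_mulVec, hg', Matrix.one_mulVec]
    · show Matrix.vecMul (Matrix.vecMul (fun a => x (Sum.inr (i.1, a))) g') g i.2 = _
      rw [Matrix.vecMul_vecMul, hg', Matrix.vecMul_one]
  equiv := by
    intro R _ g g' x
    unfold wor
    simp only [ev_X]
    rfl

/-- new point zero -/
lemma qs_or_zero (hQ : RingCP Q) (s : ℤ) :
    QS Q (FW (orS (d + 1) (ext1 E)) (wor d A B) (d + 1)) s ↔ QS Q (orS (d + 1) E) s := by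
  have hw : ∀ (R : Type) [CommRing R] (x : OV (d + 1) (Option A) B → R),
      Pt (FW (orS (d + 1) (ext1 E)) (wor d A B) (d + 1)) x ↔
        (∀ e ∈ ext1 E, dt x e.1 e.2 = 0) ∧ ∀ a, x (Sum.inl (none, a)) = 0 := by
    intro R _ x
    rw [pt_fw, pt_ors]
    unfold wor
    simp only [ev_X, Fin.is_lt, true_implies]
  refine hQ.qs_iso
    (fun R _ x => Sum.elim (fun p => x (Sum.inl (some p.1, p.2))) (fun p => x (Sum.inr p)))
    (fun R _ y => Sum.elim (fun p => p.1.elim 0 fun a => y (Sum.inl (a, p.2)))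
      (fun p => y (Sum.inr p))) ?_ ?_ ?_ ?_ ?_ ?_ s
  · intro R S _ _ φ x _ j
    rcases j with j | j <;> rfl
  · intro R S _ _ φ y _ j
    rcases j with ⟨_ | a, i⟩ | j
    · exact map_zero φ
    · rfl
    · rfl
  · intro R _ x hx
    rw [hw] at hx
    rw [pt_ors]
    intro e he
    exact hx.1 (some e.1, e.2) (Or.inr ⟨e.1, rfl, he⟩)
  · intro R _ y hy
    rw [pt_ors] at hy
    rw [hw]
    refine ⟨?_, fun a => rfl⟩
    rintro ⟨_ | a, b⟩ he
    · show ∑ i : Fin (d + 1), (0 : R) * _ = 0
      simp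
    · rcases he with h | ⟨a', h, h'⟩
      · cases h
      · cases h
        exact hy (a, b) h'
  · intro R _ x hx
    rw [hw] at hx
    funext j
    rcases j with ⟨_ | a, i⟩ | j
    · exact (hx.2 i).symm
    · rfl
    · rfl
  · intro R _ y _
    funext j
    rcases j with j | j <;> rfl

/-- new point `e_0` -/
lemma qs_or_step (hQ : RingCP Q) (s : ℤ) : QS Q (UW (orS (d + 1) (ext1 E)) (wor d A B)) s ↔
    QS Q (rename (Sum.inl : OV d A B → OV d A B ⊕ A) '' orS d E) s := by
  have hU : ∀ (R : Type) [CommRing R] (z : OV d A B ⊕ A → R),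
      Pt (rename (Sum.inl : OV d A B → OV d A B ⊕ A) '' orS d E) z ↔
        ∀ e ∈ E, dt (fun i => z (Sum.inl i)) e.1 e.2 = 0 := by
    intro R _ z
    rw [← pt_ors]
    simp only [Pt, Set.forall_mem_image, ev_rename]
  have hw : ∀ (R : Type) [CommRing R] (x : OV (d + 1) (Option A) B → R),
      Pt (UW (orS (d + 1) (ext1 E)) (wor d A B)) x ↔
        (∀ e ∈ ext1 E, dt x e.1 e.2 = 0) ∧
          ∀ a, x (Sum.inl (none, a)) = if a = 0 then 1 else 0 := by
    intro R _ x
    rw [pt_uw, pt_ors]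
    unfold wor
    simp only [ev_X, funext_iff, e0, Pi.single_apply]
  refine hQ.qs_iso
    (fun R _ x => Sum.elim (Sum.elim (fun p => x (Sum.inl (some p.1, p.2.succ)))
      (fun p => x (Sum.inr (p.1, p.2.succ)))) (fun a => x (Sum.inl (some a, 0))))
    (fun R _ y => Sum.elim
      (fun p => p.1.elim (if p.2 = 0 then 1 else 0) fun a => Fin.cases (motive := fun _ => R)
        (y (Sum.inr a)) (fun i => y (Sum.inl (Sum.inl (a, i)))) p.2)
      (fun p => Fin.cases (motive := fun _ => R) 0 (fun i => y (Sum.inl (Sum.inr (p.1, i)))) p.2))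
    ?_ ?_ ?_ ?_ ?_ ?_ s
  · intro R S _ _ φ x _ j
    rcases j with (j | j) | j <;> rfl
  · intro R S _ _ φ y _ j
    rcases j with ⟨_ | a, i⟩ | ⟨b, i⟩
    · show φ (if i = 0 then 1 else 0) = if i = 0 then 1 else 0
      split_ifs <;> simp
    · refine Fin.cases ?_ (fun i => ?_) i <;> rfl
    · refine Fin.cases ?_ (fun i => ?_) i
      · exact map_zero φ
      · rfl
  · intro R _ x hx
    rw [hw] at hx
    obtain ⟨h1, h2⟩ := hx
    rw [hU]
    intro e he
    have h3 := h1 (none, e.2) (Or.inl rfl)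
    have h4 := h1 (some e.1, e.2) (Or.inr ⟨e.1, rfl, he⟩)
    unfold dt at h3 h4 ⊢
    rw [Fin.sum_univ_succ] at h3 h4
    have h5 : x (Sum.inr (e.2, 0)) = 0 := by simpa [h2, Fin.succ_ne_zero] using h3
    rw [h5, mul_zero, zero_add] at h4
    exact h4
  · intro R _ y hy
    rw [hU] at hy
    rw [hw]
    refine ⟨?_, fun a => rfl⟩
    rintro ⟨_ | a, b⟩ he
    · unfold dt
      rw [Fin.sum_univ_succ]
      show (if (0 : Fin (d + 1)) = 0 then (1 : R) else 0) * 0 +
        ∑ i : Fin d, (if i.succ = 0 then (1 : R) else 0) * _ = 0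
      simp [Fin.succ_ne_zero]
    · rcases he with h | ⟨a', h, h'⟩
      · cases h
      · cases h
        unfold dt
        rw [Fin.sum_univ_succ]
        show y (Sum.inr a) * 0 +
          ∑ i : Fin d, y (Sum.inl (Sum.inl (a, i))) * y (Sum.inl (Sum.inr (b, i))) = 0
        rw [mul_zero, zero_add]
        exact hy (a, b) h'
  · intro R _ x hx
    rw [hw] at hx
    obtain ⟨h1, h2⟩ := hx
    funext j
    rcases j with ⟨_ | a, i⟩ | ⟨b, i⟩
    · exact (h2 i).symm
    · refine Fin.cases ?_ (fun i => ?_) i <;> rfl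
    · refine Fin.cases ?_ (fun i => ?_) i
      · have h3 := h1 (none, b) (Or.inl rfl)
        unfold dt at h3
        rw [Fin.sum_univ_succ] at h3
        have h5 : x (Sum.inr (b, 0)) = 0 := by simpa [h2, Fin.succ_ne_zero] using h3
        exact h5.symm
      · rfl
  · intro R _ y _
    funext j
    rcases j with (⟨a, i⟩ | ⟨b, i⟩) | a <;> rfl

include hQ

/-- **Lowering the dimension.** -/
theorem good_or_lower (h1 : Good Q (orS (d + 1) (ext1 E))) (h0 : Good Q (orS (d + 1) E)) :
    Good Q (orS d E) := by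
  refine (hQ.good_sum (τ := A) (orS d E)).1 fun s => (qs_or_step E hQ s).1 ?_
  exact good_reduce hQ _ (actOr E) h1 (fun s => (qs_or_zero E hQ s).2 (h0 s)) s

end

end Pool.Agent.Helper45.RM
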