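import Pool.Agent.Helper45.RM.Circ
import Pool.Agent.Helper45.RM.Orth

/-!
# Additions and multiplications as configurations of points and lines, over all rings
-/

set_option autoImplicit false

open MvPolynomial
open Pool.Agent.Helper81.CP Pool.Agent.Helper81.HG

namespace Pool.Agent.Helper45.RM

section
variable {A B : Type} (π : A → Fin 3) (lam : B → Fin 3)

/-- the incidences of a frame -/
def frE (A B : Type) : Set ((Fin 3 ⊕ A) × Option (Fin 3 ⊕ B)) :=
  {e | ∃ i j : Fin 3, i ≠ j ∧ e = (Sum.inl i, some (Sum.inl j))}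

/-- the non-incidences -/
def frF : Set ((Fin 3 ⊕ A) × Option (Fin 3 ⊕ B)) :=
  {e | (∃ i, e = (Sum.inl i, none)) ∨ (∃ i, e = (Sum.inl i, some (Sum.inl i))) ∨
    (∃ a, e = (Sum.inr a, some (Sum.inl (π a)))) ∨ ∃ b, e = (Sum.inl (lam b), some (Sum.inr b))}

/-- normalization -/
def IsNorm {k : Type} [CommRing k]
    (x : (Fin 3 ⊕ A → Fin 3 → k) × (Option (Fin 3 ⊕ B) → Fin 3 → k)) : Prop :=
  (∀ i, x.1 (Sum.inl i) = Pi.single i 1) ∧ (∀ j, x.2 (some (Sum.inl j)) = Pi.single j 1) ∧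
    x.2 none = 1 ∧ (∀ a, x.1 (Sum.inr a) (π a) = 1) ∧ ∀ b, x.2 (some (Sum.inr b)) (lam b) = 1

end

/-- points: `(1 : -1 : 0)`, `(0 : 1 : -1)`, `(1 : -t : 0)`, `(1 : 0 : -t)`, `(0 : 1 : -t)`, and
`(1 : -t : -t')` -/
inductive Po (Y K : Type) : Type
  | o1 : Po Y K
  | o2 : Po Y K
  | x (v : Y) : Po Y K
  | y (v : Y) : Po Y K
  | z (v : Y) : Po Y K
  | r (c : K) : Po Y K

/-- lines -/
inductive Ln (Y K : Type) : Type
  | d (v : Y) : Ln Y K
  | e (v : Y) : Ln Y K
  | a (c : K) : Ln Y K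
  | b (c : K) : Ln Y K
  | c (c : K) : Ln Y K

section
variable {Y K : Type}

instance [Finite Y] [Finite K] : Finite (Po Y K) := by
  refine Finite.of_injective (β := (Unit ⊕ Unit) ⊕ (Y ⊕ Y) ⊕ (Y ⊕ K)) (fun p => match p with
    | .o1 => Sum.inl (Sum.inl ())
    | .o2 => Sum.inl (Sum.inr ())
    | .x v => Sum.inr (Sum.inl (Sum.inl v))
    | .y v => Sum.inr (Sum.inl (Sum.inr v))
    | .z v => Sum.inr (Sum.inr (Sum.inl v))
    | .r c => Sum.inr (Sum.inr (Sum.inr c))) ?_
  intro p q h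
  cases p <;> cases q <;> simp_all

instance [Finite Y] [Finite K] : Finite (Ln Y K) := by
  refine Finite.of_injective (β := (Y ⊕ Y) ⊕ K ⊕ (K ⊕ K)) (fun p => match p with
    | .d v => Sum.inl (Sum.inl v)
    | .e v => Sum.inl (Sum.inr v)
    | .a c => Sum.inr (Sum.inl c)
    | .b c => Sum.inr (Sum.inr (Sum.inl c))
    | .c c => Sum.inr (Sum.inr (Sum.inr c))) ?_
  intro p q h
  cases p <;> cases q <;> simp_all

/-- the side which does not contain the point -/
def pii : Po Y K → Fin 3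
  | .o1 => 0
  | .o2 => 1
  | .x _ => 0
  | .y _ => 0
  | .z _ => 1
  | .r _ => 0

/-- arguments of a constraint -/
def arg1 : Con Y → Y
  | .add a _ _ => a
  | .mul a _ _ => a

def arg2 : Con Y → Y
  | .add _ b _ => b
  | .mul _ b _ => b

def arg3 : Con Y → Y
  | .add _ _ c => c
  | .mul _ _ c => c

def isAdd : Con Y → Bool
  | .add _ _ _ => true
  | .mul _ _ _ => false

/-- the vertex of the frame which is not on the line -/
def lamm (cs : K → Con Y) : Ln Y K → Fin 3
  | .d _ => 2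
  | .e _ => 2
  | .a _ => 1
  | .b _ => 2
  | .c c => if isAdd (cs c) then 1 else 2

/-- incidences -/
inductive Inc (o : Y) (S : Set Y) (cs : K → Con Y) :
    (Fin 3 ⊕ Po Y K) × Option (Fin 3 ⊕ Ln Y K) → Prop
  | o1s : Inc o S cs (Sum.inr .o1, some (Sum.inl 2))
  | o1l : Inc o S cs (Sum.inr .o1, none)
  | o2s : Inc o S cs (Sum.inr .o2, some (Sum.inl 0))
  | o2l : Inc o S cs (Sum.inr .o2, none)
  | xs (v : Y) : Inc o S cs (Sum.inr (.x v), some (Sum.inl 2))
  | ys (v : Y) : Inc o S cs (Sum.inr (.y v), some (Sum.inl 1))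
  | zs (v : Y) : Inc o S cs (Sum.inr (.z v), some (Sum.inl 0))
  | xo : Inc o S cs (Sum.inr (.x o), none)
  | xS (v : Y) (h : v ∈ S) : Inc o S cs (Sum.inr (.x v), some (Sum.inl 1))
  | dx (v : Y) : Inc o S cs (Sum.inr (.x v), some (Sum.inr (.d v)))
  | dO (v : Y) : Inc o S cs (Sum.inr .o2, some (Sum.inr (.d v)))
  | dy (v : Y) : Inc o S cs (Sum.inr (.y v), some (Sum.inr (.d v)))
  | eO (v : Y) : Inc o S cs (Sum.inr .o1, some (Sum.inr (.e v)))
  | ez (v : Y) : Inc o S cs (Sum.inr (.z v), some (Sum.inr (.e v)))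
  | ey (v : Y) : Inc o S cs (Sum.inr (.y v), some (Sum.inr (.e v)))
  | as (c : K) : Inc o S cs (Sum.inl 2, some (Sum.inr (.a c)))
  | ax (c : K) : Inc o S cs (Sum.inr (.x (arg1 (cs c))), some (Sum.inr (.a c)))
  | bs (c : K) : Inc o S cs (Sum.inl 1, some (Sum.inr (.b c)))
  | by' (c : K) : Inc o S cs (Sum.inr (.y (arg2 (cs c))), some (Sum.inr (.b c)))
  | ra (c : K) : Inc o S cs (Sum.inr (.r c), some (Sum.inr (.a c)))
  | rb (c : K) : Inc o S cs (Sum.inr (.r c), some (Sum.inr (.b c)))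
  | c1 (c : K) (h : isAdd (cs c) = true) : Inc o S cs (Sum.inr (.r c), some (Sum.inr (.c c)))
  | c2 (c : K) (h : isAdd (cs c) = true) : Inc o S cs (Sum.inr .o2, some (Sum.inr (.c c)))
  | c3 (c : K) (h : isAdd (cs c) = true) :
      Inc o S cs (Sum.inr (.x (arg3 (cs c))), some (Sum.inr (.c c)))
  | c4 (c : K) (h : isAdd (cs c) = false) :
      Inc o S cs (Sum.inr (.x (arg1 (cs c))), some (Sum.inr (.c c)))
  | c5 (c : K) (h : isAdd (cs c) = false) :
      Inc o S cs (Sum.inr (.z (arg2 (cs c))), some (Sum.inr (.c c)))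
  | c6 (c : K) (h : isAdd (cs c) = false) :
      Inc o S cs (Sum.inr (.y (arg3 (cs c))), some (Sum.inr (.c c)))

variable {k : Type} [CommRing k]

/-- the points of the configuration of a solution -/
def ptv (cs : K → Con Y) (t : Y → k) : Po Y K → Fin 3 → k
  | .o1 => ![1, -1, 0]
  | .o2 => ![0, 1, -1]
  | .x v => ![1, -t v, 0]
  | .y v => ![1, 0, -t v]
  | .z v => ![0, 1, -t v]
  | .r c => ![1, -t (arg1 (cs c)), -t (arg2 (cs c))]

/-- the lines of the configuration of a solution -/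
def lnv (cs : K → Con Y) (t : Y → k) : Ln Y K → Fin 3 → k
  | .d v => ![t v, 1, 1]
  | .e v => ![t v, t v, 1]
  | .a c => ![t (arg1 (cs c)), 1, 0]
  | .b c => ![t (arg2 (cs c)), 0, 1]
  | .c c => if isAdd (cs c) then ![t (arg1 (cs c)) + t (arg2 (cs c)), 1, 1]
      else ![t (arg1 (cs c)) * t (arg2 (cs c)), t (arg2 (cs c)), 1]

/-- the configuration of a solution -/
def cfgv (cs : K → Con Y) (t : Y → k) :
    (Fin 3 ⊕ Po Y K → Fin 3 → k) × (Option (Fin 3 ⊕ Ln Y K) → Fin 3 → k) :=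
  (fun i => i.elim (fun i => Pi.single i 1) (ptv cs t),
   fun j => j.elim 1 (fun j => j.elim (fun j => Pi.single j 1) (lnv cs t)))

lemma dot3 (x y : Fin 3 → k) : x ⬝ᵥ y = x 0 * y 0 + x 1 * y 1 + x 2 * y 2 := by
  unfold dotProduct
  rw [Fin.sum_univ_three]

lemma holds_iff (o : Y) (t : Y → k) (h1 : t o = 1) (c : Con Y) : c.Holds t ↔
    (isAdd c = true → t (arg1 c) + t (arg2 c) = t (arg3 c)) ∧
      (isAdd c = false → t (arg1 c) * t (arg2 c) = t (arg3 c)) := by
  cases c with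
  | add a b c => simp [Con.Holds, isAdd, arg1, arg2, arg3]
  | mul a b c => simp [Con.Holds, isAdd, arg1, arg2, arg3, h1]

lemma cfgv_norm (cs : K → Con Y) (t : Y → k) : IsNorm pii (lamm cs) (cfgv cs t) := by
  refine ⟨fun i => rfl, fun j => rfl, rfl, fun a => ?_, fun b => ?_⟩
  · cases a <;> rfl
  · cases b with
    | c c =>
      show (if isAdd (cs c) then ![t (arg1 (cs c)) + t (arg2 (cs c)), 1, 1]
        else ![t (arg1 (cs c)) * t (arg2 (cs c)), t (arg2 (cs c)), 1]) (lamm cs (.c c)) = 1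
      have hl : lamm cs (.c c) = if isAdd (cs c) then 1 else 2 := rfl
      rw [hl]
      by_cases h : isAdd (cs c) = true
      · rw [if_pos h, if_pos h]; rfl
      · rw [if_neg h, if_neg h]; rfl
    | _ => rfl

lemma cfgv_inc (o : Y) (S : Set Y) (cs : K → Con Y) (t : Y → k) (ho : t o = 1)
    (hS : ∀ y ∈ S, t y = 0) (hc : ∀ c, (cs c).Holds t)
    (e : (Fin 3 ⊕ Po Y K) × Option (Fin 3 ⊕ Ln Y K)) (he : Inc o S cs e) :
    (cfgv cs t).1 e.1 ⬝ᵥ (cfgv cs t).2 e.2 = 0 := by
  rw [dot3]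
  cases he <;> simp [cfgv, ptv, lnv, *]
  case c3 c h =>
    have h1 := ((holds_iff o t ho (cs c)).1 (hc c)).1 h
    rw [h1, add_neg_cancel]
  case c6 c h =>
    have h1 := ((holds_iff o t ho (cs c)).1 (hc c)).2 h
    rw [h1, add_neg_cancel]

/-- a normalized configuration is the configuration of a solution -/
lemma nrm_eq (o : Y) (S : Set Y) (cs : K → Con Y)
    (x : (Fin 3 ⊕ Po Y K → Fin 3 → k) × (Option (Fin 3 ⊕ Ln Y K) → Fin 3 → k))
    (h : IsNorm pii (lamm cs) x) (hI : ∀ e, Inc o S cs e → x.1 e.1 ⬝ᵥ x.2 e.2 = 0) (t : Y → k)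
    (ht : ∀ v, t v = - x.1 (Sum.inr (.x v)) 1) :
    x = cfgv cs t ∧ t o = 1 ∧ (∀ v ∈ S, t v = 0) ∧ ∀ c, (cs c).Holds t := by
  obtain ⟨hp, hl, h0, ha, hb⟩ := h
  have side : ∀ (a : Po Y K) (j : Fin 3), Inc o S cs (Sum.inr a, some (Sum.inl j)) →
      x.1 (Sum.inr a) j = 0 := by
    intro a j hi
    have h1 := hI _ hi
    rw [hl, dotProduct_single, mul_one] at h1
    exact h1
  have vert : ∀ (b : Ln Y K) (i : Fin 3), Inc o S cs (Sum.inl i, some (Sum.inr b)) →
      x.2 (some (Sum.inr b)) i = 0 := by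
    intro b i hi
    have h1 := hI _ hi
    rw [hp, single_dotProduct, one_mul] at h1
    exact h1
  have unit : ∀ (a : Po Y K), Inc o S cs (Sum.inr a, none) →
      x.1 (Sum.inr a) 0 + x.1 (Sum.inr a) 1 + x.1 (Sum.inr a) 2 = 0 := by
    intro a hi
    have h1 := hI _ hi
    rw [h0, dot3] at h1
    simpa using h1
  have gen : ∀ (a : Po Y K) (b : Ln Y K), Inc o S cs (Sum.inr a, some (Sum.inr b)) →
      x.1 (Sum.inr a) 0 * x.2 (some (Sum.inr b)) 0 + x.1 (Sum.inr a) 1 * x.2 (some (Sum.inr b)) 1 +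
        x.1 (Sum.inr a) 2 * x.2 (some (Sum.inr b)) 2 = 0 := by
    intro a b hi
    have h1 := hI _ hi
    rw [dot3] at h1
    exact h1
  -- constants
  have o10 : x.1 (Sum.inr .o1) 0 = 1 := ha .o1
  have o12 := side _ _ .o1s
  have o11 : x.1 (Sum.inr .o1) 1 = -1 := by linear_combination unit _ .o1l - o10 - o12
  have o21 : x.1 (Sum.inr .o2) 1 = 1 := ha .o2
  have o20 := side _ _ .o2s
  have o22 : x.1 (Sum.inr .o2) 2 = -1 := by linear_combination unit _ .o2l - o21 - o20
  -- variables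
  have x0 : ∀ v, x.1 (Sum.inr (.x v)) 0 = 1 := fun v => ha (.x v)
  have x1 : ∀ v, x.1 (Sum.inr (.x v)) 1 = - t v := fun v => by rw [ht, neg_neg]
  have x2 : ∀ v, x.1 (Sum.inr (.x v)) 2 = 0 := fun v => side _ _ (.xs v)
  have y0 : ∀ v, x.1 (Sum.inr (.y v)) 0 = 1 := fun v => ha (.y v)
  have y1 : ∀ v, x.1 (Sum.inr (.y v)) 1 = 0 := fun v => side _ _ (.ys v)
  have z1 : ∀ v, x.1 (Sum.inr (.z v)) 1 = 1 := fun v => ha (.z v)
  have z0 : ∀ v, x.1 (Sum.inr (.z v)) 0 = 0 := fun v => side _ _ (.zs v)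
  have d2 : ∀ v, x.2 (some (Sum.inr (.d v))) 2 = 1 := fun v => hb (.d v)
  have d1 : ∀ v, x.2 (some (Sum.inr (.d v))) 1 = 1 := by
    intro v
    have h1 := gen _ _ (.dO v)
    rw [o20, o21, o22, d2] at h1
    linear_combination h1
  have d0 : ∀ v, x.2 (some (Sum.inr (.d v))) 0 = t v := by
    intro v
    have h1 := gen _ _ (.dx v)
    rw [x0, x1, x2, d1] at h1
    linear_combination h1
  have y2 : ∀ v, x.1 (Sum.inr (.y v)) 2 = - t v := by
    intro v
    have h1 := gen _ _ (.dy v)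
    rw [y0, y1, d0, d2] at h1
    linear_combination h1
  have e2 : ∀ v, x.2 (some (Sum.inr (.e v))) 2 = 1 := fun v => hb (.e v)
  have e0 : ∀ v, x.2 (some (Sum.inr (.e v))) 0 = t v := by
    intro v
    have h1 := gen _ _ (.ey v)
    rw [y0, y1, y2, e2] at h1
    linear_combination h1
  have e1 : ∀ v, x.2 (some (Sum.inr (.e v))) 1 = t v := by
    intro v
    have h1 := gen _ _ (.eO v)
    rw [o10, o11, o12, e0] at h1
    linear_combination -h1
  have z2 : ∀ v, x.1 (Sum.inr (.z v)) 2 = - t v := by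
    intro v
    have h1 := gen _ _ (.ez v)
    rw [z0, z1, e1, e2] at h1
    linear_combination h1
  -- constraints
  have a1 : ∀ c, x.2 (some (Sum.inr (.a c))) 1 = 1 := fun c => hb (.a c)
  have a2 : ∀ c, x.2 (some (Sum.inr (.a c))) 2 = 0 := fun c => vert _ _ (.as c)
  have a0 : ∀ c, x.2 (some (Sum.inr (.a c))) 0 = t (arg1 (cs c)) := by
    intro c
    have h1 := gen _ _ (.ax c)
    rw [x0, x1, x2, a1] at h1
    linear_combination h1
  have b2 : ∀ c, x.2 (some (Sum.inr (.b c))) 2 = 1 := fun c => hb (.b c)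
  have b1 : ∀ c, x.2 (some (Sum.inr (.b c))) 1 = 0 := fun c => vert _ _ (.bs c)
  have b0 : ∀ c, x.2 (some (Sum.inr (.b c))) 0 = t (arg2 (cs c)) := by
    intro c
    have h1 := gen _ _ (.by' c)
    rw [y0, y1, y2, b2] at h1
    linear_combination h1
  have r0 : ∀ c, x.1 (Sum.inr (.r c)) 0 = 1 := fun c => ha (.r c)
  have r1 : ∀ c, x.1 (Sum.inr (.r c)) 1 = - t (arg1 (cs c)) := by
    intro c
    have h1 := gen _ _ (.ra c)
    rw [r0, a0, a1, a2] at h1
    linear_combination h1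
  have r2 : ∀ c, x.1 (Sum.inr (.r c)) 2 = - t (arg2 (cs c)) := by
    intro c
    have h1 := gen _ _ (.rb c)
    rw [r0, b0, b1, b2] at h1
    linear_combination h1
  have cadd : ∀ c, isAdd (cs c) = true → x.2 (some (Sum.inr (.c c))) 1 = 1 ∧
      x.2 (some (Sum.inr (.c c))) 2 = 1 ∧
      x.2 (some (Sum.inr (.c c))) 0 = t (arg1 (cs c)) + t (arg2 (cs c)) ∧
      t (arg1 (cs c)) + t (arg2 (cs c)) = t (arg3 (cs c)) := by
    intro c hc
    have h1 : x.2 (some (Sum.inr (.c c))) 1 = 1 := by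
      have h2 := hb (.c c)
      have h3 : lamm cs (.c c) = 1 := if_pos hc
      rwa [h3] at h2
    have h2 : x.2 (some (Sum.inr (.c c))) 2 = 1 := by
      have h3 := gen _ _ (.c2 c hc)
      rw [o20, o21, o22, h1] at h3
      linear_combination -h3
    have h3 : x.2 (some (Sum.inr (.c c))) 0 = t (arg1 (cs c)) + t (arg2 (cs c)) := by
      have h4 := gen _ _ (.c1 c hc)
      rw [r0, r1, r2, h1, h2] at h4
      linear_combination h4
    refine ⟨h1, h2, h3, ?_⟩
    have h4 := gen _ _ (.c3 c hc)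
    rw [x0, x1, x2, h1, h3] at h4
    linear_combination h4
  have cmul : ∀ c, isAdd (cs c) = false → x.2 (some (Sum.inr (.c c))) 2 = 1 ∧
      x.2 (some (Sum.inr (.c c))) 1 = t (arg2 (cs c)) ∧
      x.2 (some (Sum.inr (.c c))) 0 = t (arg1 (cs c)) * t (arg2 (cs c)) ∧
      t (arg1 (cs c)) * t (arg2 (cs c)) = t (arg3 (cs c)) := by
    intro c hc
    have h1 : x.2 (some (Sum.inr (.c c))) 2 = 1 := by
      have h2 := hb (.c c)
      have h3 : lamm cs (.c c) = 2 := if_neg (by rw [hc]; exact Bool.false_ne_true)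
      rwa [h3] at h2
    have h2 : x.2 (some (Sum.inr (.c c))) 1 = t (arg2 (cs c)) := by
      have h3 := gen _ _ (.c5 c hc)
      rw [z0, z1, z2, h1] at h3
      linear_combination h3
    have h3 : x.2 (some (Sum.inr (.c c))) 0 = t (arg1 (cs c)) * t (arg2 (cs c)) := by
      have h4 := gen _ _ (.c4 c hc)
      rw [x0, x1, x2, h2] at h4
      linear_combination h4
    refine ⟨h1, h2, h3, ?_⟩
    have h4 := gen _ _ (.c6 c hc)
    rw [y0, y1, y2, h1, h3] at h4
    linear_combination h4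
  have to1 : t o = 1 := by
    have h1 := unit _ .xo
    rw [x0, x1, x2] at h1
    linear_combination -h1
  refine ⟨?_, to1, ?_, ?_⟩
  · refine Prod.ext (funext fun i => ?_) (funext fun j => ?_)
    · match i with
      | Sum.inl i => exact hp i
      | Sum.inr a =>
        show x.1 (Sum.inr a) = ptv cs t a
        funext m
        cases a with
        | o1 => fin_cases m; exacts [o10, o11, o12]
        | o2 => fin_cases m; exacts [o20, o21, o22]
        | x v => fin_cases m; exacts [x0 v, x1 v, x2 v]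
        | y v => fin_cases m; exacts [y0 v, y1 v, y2 v]
        | z v => fin_cases m; exacts [z0 v, z1 v, z2 v]
        | r c => fin_cases m; exacts [r0 c, r1 c, r2 c]
    · match j with
      | none => exact h0
      | some (Sum.inl j) => exact hl j
      | some (Sum.inr b) =>
        show x.2 (some (Sum.inr b)) = lnv cs t b
        funext m
        cases b with
        | c c =>
          by_cases hc : isAdd (cs c) = true
          · obtain ⟨h1, h2, h3, -⟩ := cadd c hc
            fin_cases m <;> simp [lnv, hc, h1, h2, h3]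
          · have hc' : isAdd (cs c) = false := by simpa using hc
            obtain ⟨h1, h2, h3, -⟩ := cmul c hc'
            fin_cases m <;> simp [lnv, hc', h1, h2, h3]
        | d v => fin_cases m; exacts [d0 v, d1 v, d2 v]
        | e v => fin_cases m; exacts [e0 v, e1 v, e2 v]
        | a c => fin_cases m; exacts [a0 c, a1 c, a2 c]
        | b c => fin_cases m; exacts [b0 c, b1 c, b2 c]
  · intro v hv
    have h1 := side _ _ (.xS v hv)
    rw [x1] at h1
    exact neg_eq_zero.1 h1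
  · intro c
    rw [holds_iff o t to1]
    exact ⟨fun hc => (cadd c hc).2.2.2, fun hc => (cmul c hc).2.2.2⟩

end

end Pool.Agent.Helper45.RM
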