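import Pool.Agent.Helper45.RM.Cls
import Pool.Agent.Helper45.RM.Gad

/-!
# Configurations of points and lines with a frame
-/

set_option autoImplicit false

open MvPolynomial
open Pool.Agent.Helper81.CP Pool.Agent.Helper81.HG

namespace Pool.Agent.Helper45.RM

variable {G : ∀ (R : Type) [CommRing R], Prop}

section
variable {A B : Type} (π : A → Fin 3) (lam : B → Fin 3)

/-- the products of the frame which are inverted -/
noncomputable def frP [Fintype A] [Fintype B] :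
    MvPolynomial (OV 3 (Fin 3 ⊕ A) (Option (Fin 3 ⊕ B))) ℤ :=
  (((1 * ∏ b : B, pr (Sum.inl (lam b), some (Sum.inr b))) *
    ∏ a : A, pr (Sum.inr a, some (Sum.inl (π a)))) *
    ∏ i : Fin 3, pr (Sum.inl i, some (Sum.inl i))) * ∏ i : Fin 3, pr (Sum.inl i, none)

lemma go_frP (hG : RG G) [Fintype A] [Fintype B] (h : OHyp G 3)
    (E : Set ((Fin 3 ⊕ A) × Option (Fin 3 ⊕ B))) : GO G (orS 3 E) (frP π lam) := by
  unfold frP
  refine go_or_mul hG _ (fun E => go_or_mul hG _ (fun E => go_or_mul hG _ (fun E =>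
    go_or_mul hG _ (fun E => ?_) _ _ E) _ _ E) _ _ E) _ _ E
  rw [hG.gl_one]
  exact h _ _ E

/-- the torus -/
lemma gs_torus (hG : RG G) [Fintype A] [Fintype B]
    (E : Set ((Fin 3 ⊕ A) × Option (Fin 3 ⊕ B))) (h : GO G (orS 3 E) (frP π lam)) :
    GS G (cS 3 E (frF π lam)) := by
  have h0 : GO G (cS 3 E ∅) (frP π lam) := by
    refine (hG.gl_congr fun R _ x => ?_).1 h
    unfold Lc
    rw [pt_ors, pt_cs']
    simp
  unfold frP at h0
  have us1 : ∀ {W : Set (OV 3 (Fin 3 ⊕ A) (Option (Fin 3 ⊕ B)))} {V : Type} (S : Finset V)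
      (f : V → (Fin 3 ⊕ A) × Option (Fin 3 ⊕ B)) (_ : ∀ e, US W (pr e)),
      US W (∏ v ∈ S, pr (f v)) := fun S f hW => US.prod S _ fun v => hW _
  have h1 := phase_p hG (E := E) (f := Sum.inl) Sum.inl_injective (fun _ : Fin 3 => none) _
    (fun a => ((US.one.mul (us1 _ _ (us_p a))).mul (us1 _ _ (us_p a))).mul (us1 _ _ (us_p a)))
    Finset.univ ∅ (fun e he => absurd he (Set.notMem_empty e)) h0
  have h2 := phase_l hG (E := E) (f := fun i : Fin 3 => some (Sum.inl i))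
    ((Option.some_injective _).comp Sum.inl_injective) Sum.inl _
    (fun b => (US.one.mul (us1 _ _ (us_l b))).mul (us1 _ _ (us_l b)))
    Finset.univ _ (by
      rintro e (he | ⟨i, _, rfl⟩) v _
      · exact absurd he (Set.notMem_empty e)
      · exact Option.some_ne_none _ ∘ Eq.symm) h1
  have h3 := phase_p hG (E := E) (f := Sum.inr) Sum.inr_injective
    (fun a : A => some (Sum.inl (π a))) _
    (fun a => US.one.mul (us1 _ _ (us_p a)))
    Finset.univ _ (by
      rintro e ((he | ⟨i, _, rfl⟩) | ⟨i, _, rfl⟩) v _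
      · exact absurd he (Set.notMem_empty e)
      · exact Sum.inl_ne_inr
      · exact Sum.inl_ne_inr) h2
  have h4 := phase_l hG (E := E) (f := fun b : B => some (Sum.inr b))
    ((Option.some_injective _).comp Sum.inr_injective) (fun b => Sum.inl (lam b)) _
    (fun b => US.one) Finset.univ _ (by
      rintro e (((he | ⟨i, _, rfl⟩) | ⟨i, _, rfl⟩) | ⟨a, _, rfl⟩) v _
      · exact absurd he (Set.notMem_empty e)
      · exact Option.some_ne_none _ ∘ Eq.symm
      · exact fun h => Sum.inl_ne_inr (Option.some_injective _ h)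
      · exact fun h => Sum.inl_ne_inr (Option.some_injective _ h)) h3
  rw [hG.gl_one] at h4
  refine (hG.gs_congr fun R _ x => ?_).1 h4
  rw [pt_cs', pt_cs']
  refine and_congr_right fun _ => ?_
  constructor
  · rintro h _ (⟨i, rfl⟩ | ⟨i, rfl⟩ | ⟨a, rfl⟩ | ⟨b, rfl⟩)
    · exact h _ (Or.inl (Or.inl (Or.inl (Or.inr ⟨i, by simp, rfl⟩))))
    · exact h _ (Or.inl (Or.inl (Or.inr ⟨i, by simp, rfl⟩)))
    · exact h _ (Or.inl (Or.inr ⟨a, by simp, rfl⟩))
    · exact h _ (Or.inr ⟨b, by simp, rfl⟩)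
  · rintro h _ ((((he | ⟨i, _, rfl⟩) | ⟨i, _, rfl⟩) | ⟨a, _, rfl⟩) | ⟨b, _, rfl⟩)
    · exact absurd he (Set.notMem_empty _)
    · exact h _ (Or.inl ⟨i, rfl⟩)
    · exact h _ (Or.inr (Or.inl ⟨i, rfl⟩))
    · exact h _ (Or.inr (Or.inr (Or.inl ⟨a, rfl⟩)))
    · exact h _ (Or.inr (Or.inr (Or.inr ⟨b, rfl⟩)))

end

/-! ### The frame and the solutions of the constraints -/

section
variable {Y K : Type} {R : Type} [CommRing R]

/-- the normalized coordinates of a configuration -/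
def cu {A B : Type} (x : OV 3 (Fin 3 ⊕ A) (Option (Fin 3 ⊕ B)) → R) :
    (Fin 3 ⊕ A → Fin 3 → R) × (Option (Fin 3 ⊕ B) → Fin 3 → R) :=
  (fun a j => dt x a (some (Sum.inl j)), fun b j => dt x (Sum.inl j) b)

section
variable {A B : Type} {π : A → Fin 3} {lam : B → Fin 3}
  {E : Set ((Fin 3 ⊕ A) × Option (Fin 3 ⊕ B))}
  {x : OV 3 (Fin 3 ⊕ A) (Option (Fin 3 ⊕ B)) → R}

lemma frame_dt (hx : Pt (cS 3 (frE A B ∪ E) (frF π lam)) x) (i j : Fin 3) :
    dt x (Sum.inl i) (some (Sum.inl j)) = if i = j then 1 else 0 := by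
  rw [pt_cs'] at hx
  split_ifs with h
  · subst h
    exact hx.2 _ (Or.inr (Or.inl ⟨i, rfl⟩))
  · exact hx.1 _ (Or.inl ⟨i, j, h, rfl⟩)

/-- the matrices of the frame -/
lemma frame_mul (hx : Pt (cS 3 (frE A B ∪ E) (frF π lam)) x) (a c : Fin 3) :
    ∑ j, x (Sum.inl (Sum.inl j, a)) * x (Sum.inr (some (Sum.inl j), c)) =
      if a = c then 1 else 0 := by
  let g : Matrix (Fin 3) (Fin 3) R := fun a j => x (Sum.inl (Sum.inl j, a))
  let g' : Matrix (Fin 3) (Fin 3) R := fun j a => x (Sum.inr (some (Sum.inl j), a))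
  have h1 : g' * g = 1 := by
    ext j i
    rw [Matrix.mul_apply, Matrix.one_apply]
    have h2 := frame_dt hx i j
    unfold dt at h2
    rw [if_congr (eq_comm (a := j) (b := i)) rfl rfl, ← h2]
    exact Finset.sum_congr rfl fun l _ => mul_comm _ _
  have h3 : g * g' = 1 := mul_eq_one_comm.1 h1
  have h4 := congrFun (congrFun h3 a) c
  rw [Matrix.mul_apply, Matrix.one_apply] at h4
  exact h4

lemma expand_p (hx : Pt (cS 3 (frE A B ∪ E) (frF π lam)) x) (a : Fin 3 ⊕ A) (i : Fin 3) :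
    ∑ j, (cu x).1 a j * x (Sum.inl (Sum.inl j, i)) = x (Sum.inl (a, i)) := by
  show ∑ j, (∑ l, x (Sum.inl (a, l)) * x (Sum.inr (some (Sum.inl j), l))) *
    x (Sum.inl (Sum.inl j, i)) = _
  simp only [Finset.sum_mul]
  rw [Finset.sum_comm]
  have h1 : ∀ l : Fin 3, ∑ j, x (Sum.inl (a, l)) * x (Sum.inr (some (Sum.inl j), l)) *
      x (Sum.inl (Sum.inl j, i)) = x (Sum.inl (a, l)) * if i = l then 1 else 0 := by
    intro l
    rw [← frame_mul hx i l, Finset.mul_sum]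
    exact Finset.sum_congr rfl fun j _ => by ring
  simp only [h1, mul_ite, mul_one, mul_zero, Finset.sum_ite_eq, Finset.mem_univ, if_true]

lemma expand_l (hx : Pt (cS 3 (frE A B ∪ E) (frF π lam)) x) (b : Option (Fin 3 ⊕ B))
    (i : Fin 3) : ∑ j, (cu x).2 b j * x (Sum.inr (some (Sum.inl j), i)) = x (Sum.inr (b, i)) := by
  show ∑ j, (∑ l, x (Sum.inl (Sum.inl j, l)) * x (Sum.inr (b, l))) *
    x (Sum.inr (some (Sum.inl j), i)) = _
  simp only [Finset.sum_mul]
  rw [Finset.sum_comm]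
  have h1 : ∀ l : Fin 3, ∑ j, x (Sum.inl (Sum.inl j, l)) * x (Sum.inr (b, l)) *
      x (Sum.inr (some (Sum.inl j), i)) = x (Sum.inr (b, l)) * if l = i then 1 else 0 := by
    intro l
    rw [← frame_mul hx l i, Finset.mul_sum]
    exact Finset.sum_congr rfl fun j _ => by ring
  simp only [h1, mul_ite, mul_one, mul_zero, Finset.sum_ite_eq', Finset.mem_univ, if_true]

lemma dt_cu (hx : Pt (cS 3 (frE A B ∪ E) (frF π lam)) x) (a : Fin 3 ⊕ A)
    (b : Option (Fin 3 ⊕ B)) : (cu x).1 a ⬝ᵥ (cu x).2 b = dt x a b := by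
  unfold dotProduct
  have h1 : ∀ j, (cu x).2 b j = ∑ l, x (Sum.inl (Sum.inl j, l)) * x (Sum.inr (b, l)) :=
    fun j => rfl
  simp only [h1, Finset.mul_sum]
  rw [Finset.sum_comm]
  unfold dt
  refine Finset.sum_congr rfl fun l _ => ?_
  rw [← expand_p hx a l, Finset.sum_mul]
  exact Finset.sum_congr rfl fun j _ => by ring

lemma norm_cu (hx : Pt (cS 3 (frE A B ∪ E) (frF π lam)) x) : IsNorm π lam (cu x) := by
  refine ⟨fun i => ?_, fun j => ?_, ?_, fun a => ?_, fun b => ?_⟩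
  · funext j
    rw [Pi.single_apply]
    refine (frame_dt hx i j).trans ?_
    exact if_congr eq_comm rfl rfl
  · funext i
    rw [Pi.single_apply]
    exact frame_dt hx i j
  · funext i
    exact (pt_cs'.1 hx).2 _ (Or.inl ⟨i, rfl⟩)
  · exact (pt_cs'.1 hx).2 _ (Or.inr (Or.inr (Or.inl ⟨a, rfl⟩)))
  · exact (pt_cs'.1 hx).2 _ (Or.inr (Or.inr (Or.inr ⟨b, rfl⟩)))

end

/-- the configuration with the normalized coordinates `u` in the frame given by the matrices in
`y` -/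
def uc {A B τ : Type} (u : (Fin 3 ⊕ A → Fin 3 → R) × (Option (Fin 3 ⊕ B) → Fin 3 → R))
    (y : GV 3 τ → R) : OV 3 (Fin 3 ⊕ A) (Option (Fin 3 ⊕ B)) → R :=
  Sum.elim (fun p => ∑ j, u.1 p.1 j * y (Sum.inr (Sum.inl (j, p.2))))
    (fun p => ∑ j, u.2 p.1 j * y (Sum.inr (Sum.inr (j, p.2))))

lemma uc_p {A B τ : Type} (u : (Fin 3 ⊕ A → Fin 3 → R) × (Option (Fin 3 ⊕ B) → Fin 3 → R))
    (y : GV 3 τ → R) (p : (Fin 3 ⊕ A) × Fin 3) :
    uc u y (Sum.inl p) = ∑ j, u.1 p.1 j * y (Sum.inr (Sum.inl (j, p.2))) := rfl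

lemma uc_l {A B τ : Type} (u : (Fin 3 ⊕ A → Fin 3 → R) × (Option (Fin 3 ⊕ B) → Fin 3 → R))
    (y : GV 3 τ → R) (p : Option (Fin 3 ⊕ B) × Fin 3) :
    uc u y (Sum.inr p) = ∑ j, u.2 p.1 j * y (Sum.inr (Sum.inr (j, p.2))) := rfl

lemma dt_uc {A B τ : Type} (u : (Fin 3 ⊕ A → Fin 3 → R) × (Option (Fin 3 ⊕ B) → Fin 3 → R))
    (y : GV 3 τ → R) (hy : ∀ i j, ∑ a, y (Sum.inr (Sum.inl (i, a))) *
      y (Sum.inr (Sum.inr (j, a))) = if i = j then 1 else 0) (a : Fin 3 ⊕ A)
    (b : Option (Fin 3 ⊕ B)) : dt (uc u y) a b = u.1 a ⬝ᵥ u.2 b := by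
  have h1 : dt (uc u y) a b = ∑ i : Fin 3, ∑ j : Fin 3, u.1 a i * u.2 b j *
      ∑ l, y (Sum.inr (Sum.inl (i, l))) * y (Sum.inr (Sum.inr (j, l))) := by
    have h2 : ∀ i j : Fin 3, (u.1 a i * u.2 b j *
        ∑ l, y (Sum.inr (Sum.inl (i, l))) * y (Sum.inr (Sum.inr (j, l)))) =
        ∑ l, (u.1 a i * y (Sum.inr (Sum.inl (i, l)))) * (u.2 b j * y (Sum.inr (Sum.inr (j, l)))) := by
      intro i j
      rw [Finset.mul_sum]
      exact Finset.sum_congr rfl fun l _ => by ring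
    simp only [h2]
    unfold dt
    simp only [uc_p, uc_l, Finset.sum_mul_sum]
    rw [Finset.sum_comm]
    refine Finset.sum_congr rfl fun i _ => ?_
    rw [Finset.sum_comm]
  rw [h1]
  unfold dotProduct
  refine Finset.sum_congr rfl fun i _ => ?_
  simp only [hy, mul_ite, mul_one, mul_zero, Finset.sum_ite_eq, Finset.mem_univ, if_true]

lemma ptv_map {S : Type} [CommRing S] (φ : R →+* S) (cs : K → Con Y) (t : Y → R) (p : Po Y K)
    (j : Fin 3) : φ (ptv cs t p j) = ptv cs (fun v => φ (t v)) p j := by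
  cases p <;> fin_cases j <;> simp [ptv]

lemma lnv_map {S : Type} [CommRing S] (φ : R →+* S) (cs : K → Con Y) (t : Y → R) (p : Ln Y K)
    (j : Fin 3) : φ (lnv cs t p j) = lnv cs (fun v => φ (t v)) p j := by
  cases p with
  | c c =>
    by_cases hc : isAdd (cs c) = true
    · fin_cases j <;> simp [lnv, hc]
    · fin_cases j <;> simp [lnv, hc]
  | _ => fin_cases j <;> simp [lnv]

lemma cfgv_map_p {S : Type} [CommRing S] (φ : R →+* S) (cs : K → Con Y) (t : Y → R)
    (a : Fin 3 ⊕ Po Y K) (j : Fin 3) :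
    φ ((cfgv cs t).1 a j) = (cfgv cs (fun v => φ (t v))).1 a j := by
  rcases a with i | a
  · show φ ((Pi.single i 1 : Fin 3 → R) j) = (Pi.single i 1 : Fin 3 → S) j
    rw [Pi.single_apply, Pi.single_apply]
    split_ifs <;> simp
  · exact ptv_map φ cs t a j

lemma cfgv_map_l {S : Type} [CommRing S] (φ : R →+* S) (cs : K → Con Y) (t : Y → R)
    (b : Option (Fin 3 ⊕ Ln Y K)) (j : Fin 3) :
    φ ((cfgv cs t).2 b j) = (cfgv cs (fun v => φ (t v))).2 b j := by
  rcases b with _ | i | b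
  · exact map_one φ
  · show φ ((Pi.single i 1 : Fin 3 → R) j) = (Pi.single i 1 : Fin 3 → S) j
    rw [Pi.single_apply, Pi.single_apply]
    split_ifs <;> simp
  · exact lnv_map φ cs t b j

end

/-- **Configurations with a frame are products with the general linear group.** -/
theorem gs_frame (hG : RG G) {Y K : Type} [Finite Y] [Finite K] (o : Y) (S : Set Y)
    (cs : K → Con Y) :
    GS G (cS 3 (frE (Po Y K) (Ln Y K) ∪ {e | Inc o S cs e}) (frF pii (lamm cs))) ↔
      GS G (glS 3 (xS o S cs)) := by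
  refine hG.gs_iso
    (fun R _ x => Sum.elim (fun v => - (cu x).1 (Sum.inr (.x v)) 1)
      (Sum.elim (fun p => x (Sum.inl (Sum.inl p.1, p.2)))
        (fun p => x (Sum.inr (some (Sum.inl p.1), p.2)))))
    (fun R _ y => uc (cfgv cs fun v => y (Sum.inl v)) y) ?_ ?_ ?_ ?_ ?_ ?_
  · intro R R' _ _ φ x _ j
    rcases j with j | j | j
    · show φ (-dt x _ _) = -dt (fun i => φ (x i)) _ _
      unfold dt
      simp only [map_neg, map_sum, map_mul]
    · rfl
    · rfl
  · intro R R' _ _ φ y _ j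
    rcases j with j | j
    · rw [uc_p, uc_p]
      simp only [map_sum, map_mul, cfgv_map_p]
    · rw [uc_l, uc_l]
      simp only [map_sum, map_mul, cfgv_map_l]
  · intro R _ x hx
    have h1 := nrm_eq o S cs (cu x) (norm_cu hx) (fun e he => (dt_cu hx _ _).trans
      ((pt_cs'.1 hx).1 e (Or.inr he))) (fun v => - (cu x).1 (Sum.inr (.x v)) 1) (fun v => rfl)
    rw [pt_gls, pt_xs]
    exact ⟨h1.2, fun i j => frame_dt hx i j⟩
  · intro R _ y hy
    rw [pt_gls, pt_xs] at hy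
    obtain ⟨⟨h1, h2, h3⟩, h4⟩ := hy
    have hn := cfgv_norm cs (fun v => y (Sum.inl v))
    obtain ⟨hp, hl, h0, ha, hb⟩ := hn
    rw [pt_cs']
    refine ⟨?_, ?_⟩
    · rintro e (⟨i, j, hij, rfl⟩ | he)
      · rw [dt_uc _ _ h4, hp, hl, single_dotProduct, one_mul, Pi.single_eq_of_ne hij]
      · rw [dt_uc _ _ h4]
        exact cfgv_inc o S cs _ h1 h2 h3 e he
    · rintro _ (⟨i, rfl⟩ | ⟨i, rfl⟩ | ⟨a, rfl⟩ | ⟨b, rfl⟩)
      · rw [dt_uc _ _ h4, hp, h0, single_dotProduct, one_mul]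
        rfl
      · rw [dt_uc _ _ h4, hp, hl, single_dotProduct, one_mul, Pi.single_eq_same]
      · rw [dt_uc _ _ h4, hl, dotProduct_single, mul_one, ha]
      · rw [dt_uc _ _ h4, hp, single_dotProduct, one_mul, hb]
  · intro R _ x hx
    have h1 := nrm_eq o S cs (cu x) (norm_cu hx) (fun e he => (dt_cu hx _ _).trans
      ((pt_cs'.1 hx).1 e (Or.inr he))) (fun v => - (cu x).1 (Sum.inr (.x v)) 1) (fun v => rfl)
    funext j
    rcases j with j | j
    · rw [uc_p]
      simp only [Sum.elim_inl, Sum.elim_inr]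
      rw [← h1.1]
      exact expand_p hx j.1 j.2
    · rw [uc_l]
      simp only [Sum.elim_inl, Sum.elim_inr]
      rw [← h1.1]
      exact expand_l hx j.1 j.2
  · intro R _ y hy
    rw [pt_gls, pt_xs] at hy
    obtain ⟨_, h4⟩ := hy
    obtain ⟨hp, hl, h0, ha, hb⟩ := cfgv_norm cs (fun v => y (Sum.inl v))
    funext j
    rcases j with v | j | j
    · show - dt (uc _ y) (Sum.inr (Po.x v)) (some (Sum.inl 1)) = y (Sum.inl v)
      rw [dt_uc _ _ h4, hl, dotProduct_single, mul_one]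
      show - (![1, - y (Sum.inl v), 0] : Fin 3 → R) 1 = _
      simp
    · simp only [Sum.elim_inl, Sum.elim_inr]
      rw [uc_p, hp]
      simp [Pi.single_apply]
    · simp only [Sum.elim_inl, Sum.elim_inr]
      rw [uc_l, hl]
      simp [Pi.single_apply]

/-- **Universality of orthogonality relations with a frame.** -/
theorem hyp_of_frames (hG : RG G) (hS : Sem G)
    (h : ∀ (A B : Type) [Fintype A] [Fintype B] (π : A → Fin 3) (lam : B → Fin 3)
      (E : Set ((Fin 3 ⊕ A) × Option (Fin 3 ⊕ B))), GO G (orS 3 (frE A B ∪ E)) (frP π lam))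
    {σ : Type} [Finite σ] (f : MvPolynomial σ ℤ) : GS G {f} := by
  obtain ⟨Y, K, _, _, o, S, cs, hf⟩ := gs_circ hG f
  have : Fintype (Po Y K) := Fintype.ofFinite _
  have : Fintype (Ln Y K) := Fintype.ofFinite _
  have h1 := gs_torus _ _ hG _ (h (Po Y K) (Ln Y K) pii (lamm cs) {e | Inc o S cs e})
  have h2 := (gs_frame hG o S cs).1 h1
  exact hf.1 (hS _ _ _ _ _ _ (fun Q hQ g _ => good_gln hQ 3 Y _ g) h2 h2)

/-- **Universality of orthogonality relations in dimension at least three.** -/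
theorem hyp_of_ohyp (hG : RG G) (hS : Sem G) {d : ℕ} (hd : 3 ≤ d) (h : OHyp G d)
    {σ : Type} [Finite σ] (f : MvPolynomial σ ℤ) : GS G {f} :=
  hyp_of_frames hG hS (fun A B _ _ π lam E => go_frP π lam hG (ohyp_le hS hd h) _) f

end Pool.Agent.Helper45.RM
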