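import Pool.Agent.Helper45.RM.Red

/-!
# Descent along `GL_n`
-/

set_option autoImplicit false

open MvPolynomial
open Pool.Agent.Helper81.CP

namespace Pool.Agent.Helper45.RM

variable {Q : ∀ (R : Type) [CommRing R], ℤ → Prop}

/-! ### Contradictory systems -/

/-- a system without solutions has every cut-and-paste property -/
lemma good_of_false (hQ : RingCP Q) {σ : Type} [Finite σ] {E : Set (MvPolynomial σ ℤ)}
    (h : ∀ (A : Type) [CommRing A] (x : σ → A), Pt E x → (1 : A) = 0) : Good Q E := by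
  have h1 : ∀ s, QS Q (lft E) s ↔ QS Q E s := by
    intro s
    refine hQ.qs_iso (fun A _ x i => x (some i)) (fun A _ y o => o.elim 0 y) ?_ ?_ ?_ ?_ ?_ ?_ s
    · intro A B _ _ φ x _ j; rfl
    · intro A B _ _ φ y _ o
      rcases o with _ | i
      · exact map_zero φ
      · rfl
    · intro A _ x hx
      exact Pt.lft_iff.1 hx
    · intro A _ y hy
      rw [Pt.lft_iff]
      exact hy
    · intro A _ x hx
      have h0 := h A _ (Pt.lft_iff.1 hx)
      funext o
      have hs : ∀ a b : A, a = b := fun a b => by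
        rw [← mul_one a, ← mul_one b, h0, mul_zero, mul_zero]
      exact hs _ _
    · intro A _ y _; rfl
  obtain ⟨s₀, hs₀⟩ := hQ.bdd _ (ft_rng E)
  have key : ∀ k : ℕ, ∀ s : ℤ, s₀ - k ≤ s → QS Q E s := by
    intro k
    induction k with
    | zero =>
      intro s hs
      exact hs₀ s (by simpa using hs)
    | succ k ih =>
      intro s hs
      exact (hQ.qs_line E s).mp ((h1 (s + 1)).mpr (ih (s + 1) (by push_cast at hs; linarith)))
  intro s
  exact key (s₀ - s).toNat s (by have := Int.self_le_toNat (s₀ - s); linarith)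

/-! ### Products with the general linear group -/

/-- the variables of `U × GL_n`: vectors `p_i` and linear forms `l_j` -/
abbrev GV (n : ℕ) (τ : Type) : Type := τ ⊕ ((Fin n × Fin n) ⊕ (Fin n × Fin n))

/-- the system `U × GL_n`: `l_j (p_i)` is one or zero -/
noncomputable def glS (n : ℕ) {τ : Type} (U : Set (MvPolynomial τ ℤ)) :
    Set (MvPolynomial (GV n τ) ℤ) :=
  rename Sum.inl '' U ∪ Set.range fun p : Fin n × Fin n =>
    ∑ a, X (Sum.inr (Sum.inl (p.1, a))) * X (Sum.inr (Sum.inr (p.2, a))) -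
      C (if p.1 = p.2 then 1 else 0)

lemma pt_gls {n : ℕ} {τ : Type} {U : Set (MvPolynomial τ ℤ)} {A : Type} [CommRing A]
    {x : GV n τ → A} : Pt (glS n U) x ↔ Pt U (fun i => x (Sum.inl i)) ∧
      ∀ i j, ∑ a, x (Sum.inr (Sum.inl (i, a))) * x (Sum.inr (Sum.inr (j, a))) =
        if i = j then 1 else 0 := by
  unfold glS Pt
  simp only [Set.mem_union, or_imp, forall_and, Set.forall_mem_image, Set.forall_mem_range,
    ev_rename, map_sub, map_sum, map_mul, ev_X, sub_eq_zero, Prod.forall]
  refine and_congr_right fun _ => forall_congr' fun i => forall_congr' fun j => ?_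
  unfold ev
  split_ifs <;> simp

section
variable (hQ : RingCP Q) {τ : Type} [Finite τ] (U : Set (MvPolynomial τ ℤ)) {n : ℕ}

/-- the first vector -/
noncomputable def wgl (n : ℕ) (τ : Type) : Fin (n + 1) → MvPolynomial (GV (n + 1) τ) ℤ :=
  fun a => X (Sum.inr (Sum.inl (0, a)))

lemma dot_inv {A : Type} [CommRing A] {n : ℕ} (g g' : Matrix (Fin n) (Fin n) A)
    (h : g' * g = 1) (p l : Fin n → A) :
    ∑ a, g.mulVec p a * Matrix.vecMul l g' a = ∑ a, p a * l a := by
  have h1 : (∑ a, g.mulVec p a * Matrix.vecMul l g' a) = Matrix.vecMul l g' ⬝ᵥ g.mulVec p := by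
    unfold dotProduct
    exact Finset.sum_congr rfl fun a _ => mul_comm _ _
  rw [h1, ← Matrix.dotProduct_mulVec, Matrix.mulVec_mulVec, h, Matrix.one_mulVec]
  unfold dotProduct
  exact Finset.sum_congr rfl fun a _ => mul_comm _ _

/-- multiplication by elements of the general linear group -/
noncomputable def actGl : Act (glS (n + 1) U) (wgl n τ) where
  act := fun A _ g g' x => Sum.elim (fun t => x (Sum.inl t)) (Sum.elim
    (fun p => g.mulVec (fun a => x (Sum.inr (Sum.inl (p.1, a)))) p.2)
    (fun p => Matrix.vecMul (fun a => x (Sum.inr (Sum.inr (p.1, a)))) g' p.2))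
  nat := by
    intro A B _ _ φ g g' x i
    rcases i with i | i | i
    · rfl
    · show φ (g.mulVec _ i.2) = (g.map φ).mulVec _ i.2
      simp only [Matrix.mulVec, dotProduct, map_sum, map_mul, Matrix.map_apply]
    · show φ (Matrix.vecMul _ g' i.2) = Matrix.vecMul _ (g'.map φ) i.2
      simp only [Matrix.vecMul, dotProduct, map_sum, map_mul, Matrix.map_apply]
  pres := by
    intro A _ g g' x _ hg hx
    rw [pt_gls] at hx ⊢
    refine ⟨hx.1, fun i j => ?_⟩
    exact (dot_inv g g' hg _ _).trans (hx.2 i j)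
  inv := by
    intro A _ g g' x hg hg'
    funext i
    rcases i with i | i | i
    · rfl
    · show g'.mulVec (g.mulVec (fun a => x (Sum.inr (Sum.inl (i.1, a))))) i.2 = _
      rw [Matrix.mulVec_mulVec, hg', Matrix.one_mulVec]
    · show Matrix.vecMul (Matrix.vecMul (fun a => x (Sum.inr (Sum.inr (i.1, a)))) g') g i.2 = _
      rw [Matrix.vecMul_vecMul, hg', Matrix.vecMul_one]
  equiv := by
    intro A _ g g' x
    unfold wgl
    simp only [ev_X]
    rfl

/-- first vector `e_0` -/
lemma qs_gl_step (hQ : RingCP Q) (s : ℤ) : QS Q (UW (glS (n + 1) U) (wgl n τ)) s ↔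
    QS Q (glS n (rename (Sum.inl : τ → τ ⊕ Fin n) '' U)) s := by
  have hU : ∀ (A : Type) [CommRing A] (z : τ ⊕ Fin n → A),
      Pt (rename (Sum.inl : τ → τ ⊕ Fin n) '' U) z ↔ Pt U (fun i => z (Sum.inl i)) := by
    intro A _ z
    simp only [Pt, Set.forall_mem_image, ev_rename]
  have hw : ∀ (A : Type) [CommRing A] (x : GV (n + 1) τ → A),
      Pt (UW (glS (n + 1) U) (wgl n τ)) x ↔ (Pt U (fun i => x (Sum.inl i)) ∧
      ∀ i j, ∑ a, x (Sum.inr (Sum.inl (i, a))) * x (Sum.inr (Sum.inr (j, a))) =
        if i = j then 1 else 0) ∧ ∀ a, x (Sum.inr (Sum.inl (0, a))) = if a = 0 then 1 else 0 := by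
    intro A _ x
    rw [pt_uw, pt_gls]
    unfold wgl
    simp only [ev_X, funext_iff, e0, Pi.single_apply]
  refine hQ.qs_iso
    (fun A _ x => Sum.elim (Sum.elim (fun t => x (Sum.inl t))
        (fun c => x (Sum.inr (Sum.inr (0, c.succ)))))
      (Sum.elim (fun p => x (Sum.inr (Sum.inl (p.1.succ, p.2.succ))))
        (fun p => x (Sum.inr (Sum.inr (p.1.succ, p.2.succ))))))
    (fun A _ y => Sum.elim (fun t => y (Sum.inl (Sum.inl t)))
      (Sum.elim
        (fun p => Fin.cases (motive := fun _ => A) (if p.2 = 0 then 1 else 0)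
          (fun i => Fin.cases (motive := fun _ => A)
            (-∑ c, y (Sum.inl (Sum.inr c)) * y (Sum.inr (Sum.inl (i, c))))
            (fun a => y (Sum.inr (Sum.inl (i, a)))) p.2) p.1)
        (fun p => Fin.cases (motive := fun _ => A)
          (Fin.cases (motive := fun _ => A) 1 (fun c => y (Sum.inl (Sum.inr c))) p.2)
          (fun j => Fin.cases (motive := fun _ => A) 0
            (fun a => y (Sum.inr (Sum.inr (j, a)))) p.2) p.1)))
    ?_ ?_ ?_ ?_ ?_ ?_ s
  · intro A B _ _ φ x _ j
    rcases j with (j | j) | j | j <;> rfl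
  · intro A B _ _ φ y _ j
    rcases j with j | ⟨i, a⟩ | ⟨i, a⟩
    · rfl
    · refine Fin.cases ?_ (fun i => ?_) i
      · show φ (if a = 0 then 1 else 0) = if a = 0 then 1 else 0
        split_ifs <;> simp
      · refine Fin.cases ?_ (fun a => ?_) a
        · show φ (-∑ c, _) = -∑ c, _
          simp only [map_neg, map_sum, map_mul]
        · rfl
    · refine Fin.cases ?_ (fun i => ?_) i
      · refine Fin.cases ?_ (fun a => ?_) a
        · exact map_one φ
        · rfl
      · refine Fin.cases ?_ (fun a => ?_) a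
        · exact map_zero φ
        · rfl
  · intro A _ x hx
    rw [hw] at hx
    obtain ⟨⟨h1, h2⟩, h3⟩ := hx
    rw [pt_gls, hU]
    refine ⟨h1, fun i j => ?_⟩
    have h4 := h2 0 j.succ
    rw [Fin.sum_univ_succ] at h4
    simp only [h3, Fin.succ_ne_zero, if_true, if_false, zero_mul, Finset.sum_const_zero, one_mul,
      add_zero] at h4
    have h5 : x (Sum.inr (Sum.inr (j.succ, 0))) = 0 := by
      rw [h4, if_neg (Fin.succ_ne_zero j).symm]
    have h6 := h2 i.succ j.succ
    rw [Fin.sum_univ_succ, h5, mul_zero, zero_add] at h6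
    refine h6.trans ?_
    simp only [Fin.succ_inj]
  · intro A _ y hy
    rw [pt_gls, hU] at hy
    obtain ⟨h1, h2⟩ := hy
    rw [hw]
    refine ⟨⟨h1, fun i j => ?_⟩, fun a => rfl⟩
    rw [Fin.sum_univ_succ]
    refine Fin.cases ?_ (fun i => ?_) i
    · refine Fin.cases ?_ (fun j => ?_) j
      · show (if (0 : Fin (n + 1)) = 0 then (1 : A) else 0) * 1 +
          ∑ a : Fin n, (if a.succ = 0 then (1 : A) else 0) * _ = _
        simp [Fin.succ_ne_zero]
      · show (if (0 : Fin (n + 1)) = 0 then (1 : A) else 0) * 0 +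
          ∑ a : Fin n, (if a.succ = 0 then (1 : A) else 0) * _ = _
        rw [if_neg (Fin.succ_ne_zero j).symm]
        simp [Fin.succ_ne_zero]
    · refine Fin.cases ?_ (fun j => ?_) j
      · show (-∑ c, y (Sum.inl (Sum.inr c)) * y (Sum.inr (Sum.inl (i, c)))) * 1 +
          ∑ a : Fin n, y (Sum.inr (Sum.inl (i, a))) * y (Sum.inl (Sum.inr a)) = _
        rw [if_neg (Fin.succ_ne_zero i), mul_one, neg_add_eq_zero]
        exact Finset.sum_congr rfl fun a _ => mul_comm _ _
      · show (-∑ c, y (Sum.inl (Sum.inr c)) * y (Sum.inr (Sum.inl (i, c)))) * 0 +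
          ∑ a : Fin n, y (Sum.inr (Sum.inl (i, a))) * y (Sum.inr (Sum.inr (j, a))) = _
        rw [mul_zero, zero_add, h2]
        simp only [Fin.succ_inj]
  · intro A _ x hx
    rw [hw] at hx
    obtain ⟨⟨h1, h2⟩, h3⟩ := hx
    have hl0 : x (Sum.inr (Sum.inr (0, 0))) = 1 := by
      have h4 := h2 0 0
      rw [Fin.sum_univ_succ] at h4
      simpa [h3, Fin.succ_ne_zero] using h4
    have hl : ∀ j : Fin n, x (Sum.inr (Sum.inr (j.succ, 0))) = 0 := by
      intro j
      have h4 := h2 0 j.succ
      rw [Fin.sum_univ_succ, if_neg (Fin.succ_ne_zero j).symm] at h4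
      simpa [h3, Fin.succ_ne_zero] using h4
    funext j
    rcases j with j | ⟨i, a⟩ | ⟨i, a⟩
    · rfl
    · refine Fin.cases ?_ (fun i => ?_) i
      · exact (h3 a).symm
      · refine Fin.cases ?_ (fun a => ?_) a
        · show (-∑ c : Fin n, x (Sum.inr (Sum.inr (0, c.succ))) *
            x (Sum.inr (Sum.inl (i.succ, c.succ)))) = x (Sum.inr (Sum.inl (i.succ, 0)))
          have h4 := h2 i.succ 0
          rw [Fin.sum_univ_succ, hl0, mul_one, if_neg (Fin.succ_ne_zero i)] at h4
          rw [eq_neg_of_add_eq_zero_left h4]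
          congr 1
          exact Finset.sum_congr rfl fun a _ => mul_comm _ _
        · rfl
    · refine Fin.cases ?_ (fun i => ?_) i
      · refine Fin.cases ?_ (fun a => ?_) a
        · exact hl0.symm
        · rfl
      · refine Fin.cases ?_ (fun a => ?_) a
        · exact (hl i).symm
        · rfl
  · intro A _ y _
    funext j
    rcases j with (j | j) | ⟨i, a⟩ | ⟨i, a⟩ <;> rfl

include hQ

/-- **Descent along `GL_n`.** -/
theorem good_gln (n : ℕ) : ∀ (τ : Type) [Finite τ] (U : Set (MvPolynomial τ ℤ)),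
    Good Q (glS n U) → Good Q U := by
  induction n with
  | zero =>
    intro τ _ U h
    refine fun s => (hQ.qs_iso (fun A _ x i => x (Sum.inl i))
      (fun A _ y => Sum.elim y (Sum.elim (fun p => p.1.elim0) (fun p => p.1.elim0)))
      ?_ ?_ ?_ ?_ ?_ ?_ s).1 (h s)
    · intro A B _ _ φ x _ j; rfl
    · intro A B _ _ φ y _ i
      rcases i with i | i | i
      · rfl
      · exact i.1.elim0
      · exact i.1.elim0
    · intro A _ x hx
      exact (pt_gls.1 hx).1
    · intro A _ y hy
      exact pt_gls.2 ⟨hy, fun i => i.elim0⟩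
    · intro A _ x _
      funext i
      rcases i with i | i | i
      · rfl
      · exact i.1.elim0
      · exact i.1.elim0
    · intro A _ y _; rfl
  | succ n ih =>
    intro τ _ U h
    have h1 : Good Q (UW (glS (n + 1) U) (wgl n τ)) := by
      refine good_reduce hQ _ (actGl U) h (good_of_false hQ fun A _ x hx => ?_)
      rw [pt_fw, pt_gls] at hx
      obtain ⟨⟨_, h2⟩, h3⟩ := hx
      have h4 := h2 0 0
      rw [if_pos rfl] at h4
      rw [← h4]
      refine Finset.sum_eq_zero fun a _ => ?_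
      have h5 := h3 a a.2
      unfold wgl at h5
      rw [ev_X] at h5
      rw [h5, zero_mul]
    have h2 : Good Q (glS n (rename (Sum.inl : τ → τ ⊕ Fin n) '' U)) :=
      fun s => (qs_gl_step U hQ s).1 (h1 s)
    exact (hQ.good_sum (τ := Fin n) U).1 (ih (τ ⊕ Fin n) _ h2)

end

end Pool.Agent.Helper45.RM
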