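import Pool.Agent.Helper81.HG.Defs

/-!
# Realization schemes of matroids
-/

set_option autoImplicit false

open AlgebraicGeometry MvPolynomial
open Pool.Agent.Helper81.HG

namespace Pool.Agent.Helper45.RM

/-- `B 0, ..., B (d - 1)` are the elements of a basis of `M`, without repetition. -/
def Enumerates {V : Type} {d : ℕ} (M : Matroid V) (B : Fin d → V) : Prop :=
  Function.Injective B ∧ M.IsBase (Set.range B)

/-- The scheme over `ℤ/N` of the realizations of the matroid `M` of rank `d` on the set `V`: the
families of vectors `x_v`, `v ∈ V`, of length `d` such that the determinant of the vectors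
`x_(B 0), ..., x_(B (d - 1))` is invertible if these elements form a basis of `M`, and zero
otherwise. The second group of variables are the inverses. -/
noncomputable def Realizations (N d : ℕ) {V : Type} (M : Matroid V) : Scheme.{0} :=
  Zeros N {f : MvPolynomial ((V × Fin d) ⊕ {B : Fin d → V // Enumerates M B}) ℤ |
    (∃ B : Fin d → V, ¬ Enumerates M B ∧
      f = (Matrix.of fun i j => X (Sum.inl (B i, j))).det) ∨
    ∃ B : {B : Fin d → V // Enumerates M B},
      f = (Matrix.of fun i j => X (Sum.inl (B.1 i, j))).det * X (Sum.inr B) - 1}

/-- The scheme over `ℤ/N` of the families of vectors `x_v`, `v ∈ V`, of length `d` such that the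
determinant of `x_(B 0), ..., x_(B (d - 1))` is zero for all `B` in `T`. -/
noncomputable def Dependent (N d : ℕ) {V : Type} (T : Set (Fin d → V)) : Scheme.{0} :=
  Zeros N {f : MvPolynomial (V × Fin d) ℤ | ∃ B ∈ T, f = (Matrix.of fun i j => X (B i, j)).det}

/-- the realization schemes of the matroids of rank `d` on finite sets -/
def MatroidClass (N d : ℕ) : Set Scheme.{0} :=
  {Y | ∃ (V : Type) (_ : Finite V) (M : Matroid V), M.E = Set.univ ∧ M.eRank = d ∧
    Y = Realizations N d M}

/-- the schemes of families of vectors of length `d`, indexed by finite sets, with prescribed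
dependent `d`-tuples -/
def DependentClass (N d : ℕ) : Set Scheme.{0} :=
  {Y | ∃ (V : Type) (_ : Finite V) (T : Set (Fin d → V)), Y = Dependent N d T}

end Pool.Agent.Helper45.RM
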