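import Pool.Agent.Helper45.RM.Mat

/-!
# Lowering the rank
-/

set_option autoImplicit false

open MvPolynomial
open Pool.Agent.Helper81.CP Pool.Agent.Helper81.HG

namespace Pool.Agent.Helper45.RM

section
variable {Q : ∀ (R : Type) [CommRing R], ℤ → Prop} (hQ : RingCP Q) {V : Type} [Finite V] {d : ℕ}
  (T : Set (Fin d → V)) (S : Finset (Fin d → V))

/-- a tuple with the new element -/
def up {V : Type} (B : Fin d → V) : Fin (d + 1) → Option V := Fin.cons none fun i => some (B i)

/-- the system with a new vector -/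
noncomputable def opS : Set (MvPolynomial (Option (Option V × Fin (d + 1))) ℤ) :=
  dop (∏ B ∈ S, mn (up B)) (mS (mxt T))

/-- the new vector -/
noncomputable def wop (d : ℕ) (V : Type) :
    Fin (d + 1) → MvPolynomial (Option (Option V × Fin (d + 1))) ℤ :=
  fun a => X (some (none, a))

omit [Finite V] in
lemma pt_ops {R : Type} [CommRing R] {x : Option (Option V × Fin (d + 1)) → R} :
    Pt (opS T S) x ↔ x none * ∏ B ∈ S, mv (fun i => x (some i)) (up B) = 1 ∧
      ∀ B ∈ T, mv (fun i => x (some i)) (up B) = 0 := by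
  unfold opS
  rw [Pt.dop_iff, map_prod, pt_ms]
  simp only [ev_mn]
  refine and_congr_right fun _ => ⟨fun h B hB => h _ ⟨B, hB, rfl⟩, ?_⟩
  rintro h _ ⟨B, hB, rfl⟩
  exact h B hB

omit [Finite V] in
lemma prod_mulVec {R : Type} [CommRing R] (g : Matrix (Fin (d + 1)) (Fin (d + 1)) R)
    (x : Option V × Fin (d + 1) → R) :
    ∏ B ∈ S, mv (fun p => g.mulVec (fun a => x (p.1, a)) p.2) (up B) =
      (∏ B ∈ S, mv x (up B)) * g.det ^ S.card := by
  simp only [mv_mulVec]
  rw [Finset.prod_mul_distrib, Finset.prod_const]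

/-- the action of the general linear group -/
noncomputable def actOp : Act (opS T S) (wop d V) where
  act := fun R _ g g' x => fun o => o.elim (x none * g'.det ^ S.card)
    (fun p => g.mulVec (fun a => x (some (p.1, a))) p.2)
  nat := by
    intro R R' _ _ φ g g' x i
    rcases i with _ | i
    · show φ (x none * g'.det ^ S.card) = φ (x none) * (g'.map φ).det ^ S.card
      rw [map_mul, map_pow, RingHom.map_det]
      rfl
    · show φ (g.mulVec _ i.2) = (g.map φ).mulVec _ i.2
      simp only [Matrix.mulVec, dotProduct, map_sum, map_mul, Matrix.map_apply]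
  pres := by
    intro R _ g g' x hg _ hx
    rw [pt_ops] at hx ⊢
    obtain ⟨h1, h2⟩ := hx
    have hd : g.det * g'.det = 1 := by rw [← Matrix.det_mul, hg, Matrix.det_one]
    refine ⟨?_, fun B hB => ?_⟩
    · show x none * g'.det ^ S.card *
        ∏ B ∈ S, mv (fun p => g.mulVec (fun a => x (some (p.1, a))) p.2) (up B) = 1
      rw [prod_mulVec S g (fun p => x (some p))]
      have h3 : x none * g'.det ^ S.card *
          ((∏ B ∈ S, mv (fun p => x (some p)) (up B)) * g.det ^ S.card) =
          (x none * ∏ B ∈ S, mv (fun p => x (some p)) (up B)) *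
            (g.det * g'.det) ^ S.card := by
        rw [mul_pow]
        ring
      rw [h3, h1, hd, one_pow, mul_one]
    · exact (mv_mulVec g (fun p => x (some p)) (up B)).trans (by rw [h2 B hB, zero_mul])
  inv := by
    intro R _ g g' x hg hg'
    have hd : g.det * g'.det = 1 := by rw [← Matrix.det_mul, hg, Matrix.det_one]
    funext i
    rcases i with _ | i
    · show x none * g'.det ^ S.card * g.det ^ S.card = x none
      rw [mul_assoc, ← mul_pow, mul_comm g'.det, hd, one_pow, mul_one]
    · show g'.mulVec (g.mulVec (fun a => x (some (i.1, a)))) i.2 = _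
      rw [Matrix.mulVec_mulVec, hg', Matrix.one_mulVec]
  equiv := by
    intro R _ g g' x
    unfold wop
    simp only [ev_X]
    rfl

/-- the new vector is not zero -/
lemma good_op_zero (hQ : RingCP Q) (hS : S.Nonempty) :
    Good Q (FW (opS T S) (wop d V) (d + 1)) := by
  refine good_of_false hQ fun R _ x hx => ?_
  rw [pt_fw, pt_ops] at hx
  obtain ⟨⟨h1, _⟩, h2⟩ := hx
  obtain ⟨B, hB⟩ := hS
  have h3 : mv (fun i => x (some i)) (up B) = 0 := by
    unfold mv
    refine Matrix.det_eq_zero_of_row_eq_zero 0 fun j => ?_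
    have h4 := h2 j j.2
    unfold wop at h4
    rw [ev_X] at h4
    exact h4
  rw [← h1, Finset.prod_eq_zero hB h3, mul_zero]

/-- new vector `e_0` -/
lemma qs_op_step (hQ : RingCP Q) (s : ℤ) : QS Q (UW (opS T S) (wop d V)) s ↔
    QS Q (rename (Sum.inl : Option (V × Fin d) → Option (V × Fin d) ⊕ V) ''
      dop (∏ B ∈ S, mn B) (mS T)) s := by
  have hU : ∀ (R : Type) [CommRing R] (z : Option (V × Fin d) ⊕ V → R),
      Pt (rename (Sum.inl : Option (V × Fin d) → Option (V × Fin d) ⊕ V) ''
        dop (∏ B ∈ S, mn B) (mS T)) z ↔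
        z (Sum.inl none) * ∏ B ∈ S, mv (fun i => z (Sum.inl (some i))) B = 1 ∧
        ∀ B ∈ T, mv (fun i => z (Sum.inl (some i))) B = 0 := by
    intro R _ z
    have h1 : Pt (rename (Sum.inl : Option (V × Fin d) → Option (V × Fin d) ⊕ V) ''
        dop (∏ B ∈ S, mn B) (mS T)) z ↔
        Pt (dop (∏ B ∈ S, mn B) (mS T)) fun i => z (Sum.inl i) := by
      unfold Pt
      simp only [Set.forall_mem_image, ev_rename]
    rw [h1, Pt.dop_iff, map_prod, pt_ms]
    simp only [ev_mn]
  have hw : ∀ (R : Type) [CommRing R] (x : Option (Option V × Fin (d + 1)) → R),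
      Pt (UW (opS T S) (wop d V)) x ↔
        (x none * ∏ B ∈ S, mv (fun i => x (some i)) (up B) = 1 ∧
          ∀ B ∈ T, mv (fun i => x (some i)) (up B) = 0) ∧
          ∀ a, x (some (none, a)) = if a = 0 then 1 else 0 := by
    intro R _ x
    rw [pt_uw, pt_ops]
    unfold wop
    simp only [ev_X, funext_iff, e0, Pi.single_apply]
  refine hQ.qs_iso
    (fun R _ x => Sum.elim (fun o => o.elim (x none) fun p => x (some (some p.1, p.2.succ)))
      (fun a => x (some (some a, 0))))
    (fun R _ y => fun o => o.elim (y (Sum.inl none)) fun p =>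
      p.1.elim (if p.2 = 0 then 1 else 0) fun a =>
      Fin.cases (motive := fun _ => R) (y (Sum.inr a)) (fun i => y (Sum.inl (some (a, i)))) p.2)
    ?_ ?_ ?_ ?_ ?_ ?_ s
  · intro R S _ _ φ x _ j
    rcases j with (_ | j) | j <;> rfl
  · rintro R S _ _ φ y _ (_ | ⟨_ | a, i⟩)
    · rfl
    · show φ (if i = 0 then 1 else 0) = if i = 0 then 1 else 0
      split_ifs <;> simp
    · refine Fin.cases ?_ (fun i => ?_) i <;> rfl
  · intro R _ x hx
    rw [hw] at hx
    obtain ⟨⟨h1, h3⟩, h2⟩ := hx
    have h4 : ∀ B : Fin d → V, mv (fun i => x (some i)) (up B) =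
        mv (fun p : V × Fin d => x (some (some p.1, p.2.succ))) B :=
      fun B => mv_cons (fun i => x (some i)) h2 B
    rw [hU]
    simp only [h4] at h1 h3
    exact ⟨h1, h3⟩
  · intro R _ y hy
    rw [hU] at hy
    rw [hw]
    have h4 : ∀ B : Fin d → V, mv (fun p : Option V × Fin (d + 1) =>
        (p.1.elim (if p.2 = 0 then 1 else 0) fun a =>
          Fin.cases (motive := fun _ => R) (y (Sum.inr a)) (fun i => y (Sum.inl (some (a, i)))) p.2 :
            R)) (up B) = mv (fun i => y (Sum.inl (some i))) B :=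
      fun B => mv_cons _ (fun a => rfl) B
    refine ⟨⟨?_, fun B hB => ?_⟩, fun a => rfl⟩
    · exact (congrArg (y (Sum.inl none) * ·) (Finset.prod_congr rfl fun B _ => h4 B)).trans hy.1
    · exact (h4 B).trans (hy.2 B hB)
  · intro R _ x hx
    rw [hw] at hx
    obtain ⟨_, h2⟩ := hx
    funext j
    rcases j with _ | ⟨_ | a, i⟩
    · rfl
    · exact (h2 i).symm
    · refine Fin.cases ?_ (fun i => ?_) i <;> rfl
  · intro R _ y _
    funext j
    rcases j with (_ | ⟨a, i⟩) | a <;> rfl

include hQ

/-- **Lowering the rank.** -/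
theorem good_op_lower (hS : S.Nonempty) (h1 : Good Q (opS T S)) :
    Good Q (dop (∏ B ∈ S, mn B) (mS T)) := by
  refine (hQ.good_sum (τ := V) _).1 fun s => (qs_op_step T S hQ s).1 ?_
  exact good_reduce hQ _ (actOp T S) h1 (good_op_zero T S hQ hS) s

end

lemma up_inj {V : Type} {d : ℕ} : Function.Injective (up (V := V) (d := d)) := by
  intro B B' h
  funext i
  have h1 := congrFun h i.succ
  exact Option.some_injective _ h1

lemma mop_lower {G : ∀ (R : Type) [CommRing R], Prop} (hS : Sem G) {d : ℕ}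
    (h : MOp G (d + 1)) : MOp G d := by
  classical
  intro V _ T S hne
  have h1 : GS G (opS T S) := by
    have h2 := h (Option V) (mxt T) (S.image up) (hne.image _)
    rwa [Finset.prod_image fun x _ y _ hxy => up_inj hxy] at h2
  exact hS _ _ _ _ _ _ (fun Q hQ g _ => good_op_lower hQ T S hne g) h1 h1

lemma mop_le {G : ∀ (R : Type) [CommRing R], Prop} (hS : Sem G) {d e : ℕ} (hde : e ≤ d)
    (h : MOp G d) : MOp G e := by
  induction d with
  | zero => rwa [Nat.le_zero.1 hde]
  | succ d ih =>
    rcases Nat.lt_or_ge e (d + 1) with h1 | h1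
    · exact ih (Nat.lt_succ_iff.1 h1) (mop_lower hS h)
    · rwa [le_antisymm hde h1]

/-- **Universality of matroid strata in rank at least three.** -/
theorem hyp_of_mop {G : ∀ (R : Type) [CommRing R], Prop} (hG : RG G) (hS : Sem G) {d : ℕ}
    (hd : 3 ≤ d) (h : MOp G d) {σ : Type} [Finite σ] (f : MvPolynomial σ ℤ) : GS G {f} := by
  classical
  refine hyp_of_frames hG hS (fun A B _ _ π lam E => go_frames hG π lam E ?_) f
  let W : Type := Unit ⊕ B ⊕ A ⊕ Fin 3 ⊕ Fin 3
  let F : W → Fin 3 → PV A B := Sum.elim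
    (fun _ => ![Sum.inl (Sum.inl 0), Sum.inl (Sum.inl 1), Sum.inl (Sum.inl 2)])
    (Sum.elim (fun b => tri (Sum.inl (lam b), some (Sum.inr b)))
      (Sum.elim (fun a => tri (Sum.inr a, some (Sum.inl (π a))))
        (Sum.elim (fun i => tri (Sum.inl i, some (Sum.inl i))) fun i => tri (Sum.inl i, none))))
  have h1 := mop_le hS hd h (PV A B) (mT lam (frE A B ∪ E)) (Finset.univ.image F)
    ⟨_, Finset.mem_image_of_mem F (Finset.mem_univ (Sum.inl ()))⟩
  refine (hG.gl_congr fun R _ x => ?_).1 h1
  unfold Lc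
  refine and_congr_right fun _ => ?_
  rw [uc_mnP, map_prod, isUnit_prod_iff]
  simp only [Finset.mem_image, Finset.mem_univ, true_and, forall_exists_index,
    forall_apply_eq_imp_iff, ev_mn]
  unfold UC dD
  have h3 : ∀ a b, lL x a b = mv x (tri (a, b)) := fun a b => (mv_tri x (a, b)).symm
  simp only [h3]
  have h2 : mv x ![Sum.inl (Sum.inl 0), Sum.inl (Sum.inl 1), Sum.inl (Sum.inl 2)] =
      det3 (pP x (Sum.inl 0)) (pP x (Sum.inl 1)) (pP x (Sum.inl 2)) := mv_three x _ _ _
  rw [← h2]
  simp only [W, F, Sum.forall, Sum.elim_inl, Sum.elim_inr, forall_const]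

end Pool.Agent.Helper45.RM
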