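import Pool.Agent.Helper45.RM.Main
import Pool.Agent.Helper45.RM.MDefs
import Pool.Agent.Helper45.RM.Mop

/-!
# Matroids and both questions
-/

set_option autoImplicit false

open AlgebraicGeometry CategoryTheory TopologicalSpace MvPolynomial
open Pool.Agent.Helper81.CP Pool.Agent.Helper81.HG

namespace Pool.Agent.Helper45.RM

universe u

section
variable {G : ∀ (R : Type) [CommRing R], Prop} (hG : RG G)

/-- a system together with the inverses of some polynomials -/
noncomputable def ivS {σ W : Type} (E : Set (MvPolynomial σ ℤ)) (p : W → MvPolynomial σ ℤ) :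
    Set (MvPolynomial (σ ⊕ W) ℤ) :=
  {f | (∃ g ∈ E, f = rename Sum.inl g) ∨ ∃ b, f = rename Sum.inl (p b) * X (Sum.inr b) - 1}

lemma pt_ivs {σ W R : Type} [CommRing R] {E : Set (MvPolynomial σ ℤ)}
    {p : W → MvPolynomial σ ℤ} {x : σ ⊕ W → R} : Pt (ivS E p) x ↔
      Pt E (fun i => x (Sum.inl i)) ∧
        ∀ b, ev (fun i => x (Sum.inl i)) (p b) * x (Sum.inr b) = 1 := by
  constructor
  · intro h
    refine ⟨fun g hg => ?_, fun b => ?_⟩
    · rw [← ev_rename]
      exact h _ (Or.inl ⟨g, hg, rfl⟩)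
    · have h1 := h _ (Or.inr ⟨b, rfl⟩)
      rw [map_sub, map_mul, ev_rename, ev_X, map_one, sub_eq_zero] at h1
      exact h1
  · rintro ⟨h1, h2⟩ _ (⟨g, hg, rfl⟩ | ⟨b, rfl⟩)
    · rw [ev_rename]
      exact h1 g hg
    · rw [map_sub, map_mul, ev_rename, ev_X, map_one, sub_eq_zero]
      exact h2 b

include hG

lemma gs_ivs {σ W : Type} [Finite σ] [Fintype W] (E : Set (MvPolynomial σ ℤ))
    (p : W → MvPolynomial σ ℤ) : GS G (ivS E p) ↔ GO G E (∏ b, p b) := by
  rw [← hG.gl_one (ivS E p)]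
  have hu : ∀ {R : Type} [CommRing R] {x : σ → R}, Lc E (∏ b, p b) x →
      ∀ b, IsUnit (ev x (p b)) := by
    intro R _ x hx b
    have h1 := hx.2
    rw [map_prod, isUnit_prod_iff] at h1
    exact h1 b (Finset.mem_univ b)
  have h1 : ∀ {R : Type} [CommRing R] {y : σ ⊕ W → R}, Lc (ivS E p) 1 y ↔
      Pt E (fun i => y (Sum.inl i)) ∧
        ∀ b, ev (fun i => y (Sum.inl i)) (p b) * y (Sum.inr b) = 1 := by
    intro R _ y
    unfold Lc
    rw [pt_ivs, map_one]
    simp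
  refine hG.gl_iso (fun R _ y i => y (Sum.inl i))
    (fun R _ x => Sum.elim x fun b => Ring.inverse (ev x (p b))) ?_ ?_ ?_ ?_ ?_ ?_
  · intro R S _ _ φ y _ i
    rfl
  · intro R S _ _ φ x hx i
    rcases i with i | b
    · rfl
    · show φ (Ring.inverse (ev x (p b))) = Ring.inverse (ev (fun i => φ (x i)) (p b))
      rw [map_inv_of_unit φ (hu hx b), ev_map]
  · intro R _ y hy
    rw [h1] at hy
    refine ⟨hy.1, ?_⟩
    rw [map_prod, isUnit_prod_iff]
    exact fun b _ => IsUnit.of_mul_eq_one _ (hy.2 b)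
  · intro R _ x hx
    rw [h1]
    exact ⟨hx.1, fun b => Ring.mul_inverse_cancel _ (hu hx b)⟩
  · intro R _ y hy
    rw [h1] at hy
    funext i
    rcases i with i | b
    · rfl
    · exact (eq_inv_of_mul (by rw [mul_comm]; exact hy.2 b)).symm
  · intro R _ x _
    rfl

/-- the plane -/
lemma mhyp_two (h0 : GS G (∅ : Set (MvPolynomial Empty ℤ))) : MHyp G 2 := by
  intro V _ T
  refine (hG.gs_congr fun R _ x => ?_).1 (gs_cols hG h0 {e : V × V | ∃ B ∈ T, e = (B 0, B 1)})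
  rw [pt_cols, pt_ms]
  have h1 : ∀ B : Fin 2 → V, mv x B = x (B 0, 0) * x (B 1, 1) - x (B 1, 0) * x (B 0, 1) := by
    intro B
    unfold mv
    rw [Matrix.det_fin_two]
    simp only [Matrix.of_apply]
    ring
  constructor
  · intro h B hB
    rw [h1, sub_eq_zero]
    exact h _ _ ⟨B, hB, rfl⟩
  · rintro h v w ⟨B, hB, hvw⟩
    obtain ⟨rfl, rfl⟩ := Prod.mk.inj hvw
    rw [← sub_eq_zero, ← h1]
    exact h B hB

end

/-! ### The schemes -/

lemma ren_mn {V W : Type} {d : ℕ} (B : Fin d → V) :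
    rename (Sum.inl : V × Fin d → (V × Fin d) ⊕ W) (mn B) =
      (Matrix.of fun i j => X (Sum.inl (B i, j))).det := by
  unfold mn
  rw [AlgHom.map_det]
  congr 1
  ext1 i j
  exact rename_X _ _

lemma realizations_eq (N d : ℕ) {V : Type} (M : Matroid V) :
    Realizations N d M = Zeros N (ivS (mS (nb M))
      fun B : {B : Fin d → V // Enumerates M B} => mn B.1) := by
  unfold Realizations ivS
  congr 1
  ext f
  constructor
  · rintro (⟨B, hB, rfl⟩ | ⟨B, rfl⟩)
    · exact Or.inl ⟨mn B, ⟨B, hB, rfl⟩, (ren_mn B).symm⟩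
    · refine Or.inr ⟨B, ?_⟩
      rw [ren_mn]
  · rintro (⟨_, ⟨B, hB, rfl⟩, rfl⟩ | ⟨B, rfl⟩)
    · exact Or.inl ⟨B, hB, ren_mn B⟩
    · refine Or.inr ⟨B, ?_⟩
      rw [ren_mn]

lemma dependent_eq (N d : ℕ) {V : Type} (T : Set (Fin d → V)) :
    Dependent N d T = Zeros N (mS T) := by
  unfold Dependent mS
  congr 1
  ext f
  constructor
  · rintro ⟨B, hB, rfl⟩
    exact ⟨B, hB, rfl⟩
  · rintro ⟨B, hB, rfl⟩
    exact ⟨B, hB, rfl⟩

lemma isFT_matroid {N d : ℕ} : ∀ X ∈ MatroidClass N d, IsFT X := by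
  rintro _ ⟨V, hV, M, _, _, rfl⟩
  exact isFT_zero _ _

lemma isFT_dependent {N d : ℕ} : ∀ X ∈ DependentClass N d, IsFT X := by
  rintro _ ⟨V, hV, T, rfl⟩
  exact isFT_zero _ _

section

variable {G : Scheme.{0} → Prop} (hG : SG G) {N : ℕ}

include hG

lemma cc_dependent_iff {d : ℕ} : CC G (DependentClass N d) ↔ MHyp (md (rg G) N) d := by
  constructor
  · intro h V _ T
    rw [gz hG, ← dependent_eq]
    exact h _ ⟨V, inferInstance, T, rfl⟩
  · rintro h _ ⟨V, hV, T, rfl⟩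
    rw [dependent_eq, ← gz hG]
    exact h V T

lemma g_realizations {d : ℕ} {V : Type} [Finite V] (M : Matroid V) (F : Finset (Fin d → V))
    (hF : ∀ B, B ∈ F ↔ B ∉ nb M) : G (Realizations N d M) ↔
      GO (md (rg G) N) (mS (nb M)) (∏ B ∈ F, mn B) := by
  have := Fintype.ofFinite {B : Fin d → V // Enumerates M B}
  rw [realizations_eq, ← gz hG, gs_ivs (hG.rg.mod N)]
  refine (hG.rg.mod N).gl_congr fun R _ x => ?_
  unfold Lc
  refine and_congr_right fun _ => ?_
  rw [map_prod, map_prod, isUnit_prod_iff, isUnit_prod_iff]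
  constructor
  · intro h B hB
    have h1 : Enumerates M B := not_not.1 ((hF B).1 hB)
    exact h ⟨B, h1⟩ (Finset.mem_univ _)
  · rintro h ⟨B, hB⟩ _
    exact h B ((hF B).2 (not_not.2 hB))

lemma mop_of_class {d : ℕ} (h : CC G (MatroidClass N d)) : MOp (md (rg G) N) d := by
  refine mop_of_matroids (hG.rg.mod N) fun V _ M h1 h2 F hF => ?_
  exact (g_realizations hG M F hF).1 (h _ ⟨V, inferInstance, M, h1, h2, rfl⟩)

lemma cc_matroid_of_mhyp {d : ℕ} (h : MHyp (md (rg G) N) d) : CC G (MatroidClass N d) := by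
  classical
  rintro _ ⟨V, hV, M, _, _, rfl⟩
  have := Fintype.ofFinite V
  refine (g_realizations hG M (Finset.univ.filter fun B => B ∉ nb M) (fun B => by simp)).2 ?_
  have h1 := go_ms_mul (hG.rg.mod N) (d := d) (V := V) 1 (fun T => by
    rw [(hG.rg.mod N).gl_one]
    exact h V T) (Finset.univ.filter fun B => B ∉ nb M) (fun B => B) (nb M)
  rwa [one_mul] at h1

/-- hypersurfaces control everything -/
lemma cc_all_of_hyp (h : ∀ (n : ℕ) (f : MvPolynomial (Fin n) ℤ), GS (md (rg G) N) {f}) :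
    CC G (FiniteType N) := by
  intro X hX
  obtain ⟨n, hn⟩ := exists_fibreDim N X hX
  exact cc_fibreDim hG (h n) X hn

end

theorem main_matroid (N : ℕ) :
    (∀ d, 3 ≤ d → Controls.{u} (MatroidClass N d) (FiniteType N)) ∧
    (∀ d, d ≤ 2 → Controls.{u} {Spec (CommRingCat.of (ZMod N))} (MatroidClass N d)) ∧
    (∀ d, 3 ≤ d → Controls.{u} (DependentClass N d) (FiniteType N)) ∧
    (∀ d, d ≤ 2 → Controls.{u} {Spec (CommRingCat.of (ZMod N))} (DependentClass N d)) := by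
  have h2 : ∀ d, d ≤ 2 →
      MHyp (md (rg (Ctl {Spec (CommRingCat.of (ZMod N))})) N) d := by
    intro d hd
    exact mhyp_le (Sem.mod (sg_ctl _).rg (sem_ctl _) N) hd (mhyp_two ((sg_ctl _).rg.mod N)
      (gs_base (sg_ctl _) N (cc_self _ _ (Set.mem_singleton _))))
  refine ⟨fun d hd => ?_, fun d hd => ?_, fun d hd => ?_, fun d hd => ?_⟩
  · refine controls_of_ctl isFT_finiteType (cc_all_of_hyp (sg_ctl _) fun n f => ?_)
    exact hyp_of_mop ((sg_ctl _).rg.mod N) (Sem.mod (sg_ctl _).rg (sem_ctl _) N) hd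
      (mop_of_class (sg_ctl _) (cc_self _)) f
  · exact controls_of_ctl isFT_matroid (cc_matroid_of_mhyp (sg_ctl _) (h2 d hd))
  · refine controls_of_ctl isFT_finiteType (cc_all_of_hyp (sg_ctl _) fun n f => ?_)
    exact hyp_of_mhyp ((sg_ctl _).rg.mod N) (Sem.mod (sg_ctl _).rg (sem_ctl _) N) hd
      ((cc_dependent_iff (sg_ctl _)).1 (cc_self _)) f
  · exact controls_of_ctl isFT_dependent ((cc_dependent_iff (sg_ctl _)).2 (h2 d hd))

end Pool.Agent.Helper45.RM
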