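import Pool.Agent.Helper81.HG.Mod
import Pool.Agent.Helper45.RM.Cls

/-!
# Reduction modulo `m` of graded properties
-/

set_option autoImplicit false

open MvPolynomial
open Pool.Agent.Helper81.CP Pool.Agent.Helper81.HG

namespace Pool.Agent.Helper45.RM

/-- the property of the reduction modulo `m` -/
def qmd (Q : ∀ (R : Type) [CommRing R], ℤ → Prop) (m : ℕ) (R : Type) [CommRing R] (s : ℤ) :
    Prop := Q (R ⧸ Ideal.span {(m : R)}) s

section
variable {Q : ∀ (R : Type) [CommRing R], ℤ → Prop} (hQ : RingCP Q) {m : ℕ}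

include hQ

lemma qmd_rep {R : Type} [CommRing R] {σ : Type} [Finite σ] {E : Set (MvPolynomial σ ℤ)}
    {u : σ → R} (h : Rep R E u) (s : ℤ) : qmd Q m R s ↔ QS Q (insert (C (m : ℤ)) E) s := by
  have h1 := h.closed (C (m : ℤ))
  have e : ev u (C (m : ℤ)) = (m : R) := ev_nat u m
  rw [e] at h1
  exact hQ.rep_iff h1 s

lemma qs_md {σ : Type} [Finite σ] (E : Set (MvPolynomial σ ℤ)) (s : ℤ) :
    QS (qmd Q m) E s ↔ QS Q (insert (C (m : ℤ)) E) s := qmd_rep hQ (rep_rng E) s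

lemma qs_md_dop {σ : Type} [Finite σ] (E : Set (MvPolynomial σ ℤ)) (p : MvPolynomial σ ℤ)
    (s : ℤ) : QS Q (insert (C (m : ℤ)) (dop p E)) s ↔ QS Q (dop p (insert (C (m : ℤ)) E)) s := by
  refine hQ.qs_congr (fun A _ x => ?_) s
  rw [pt_md, Pt.dop_iff, Pt.dop_iff, pt_md]
  tauto

lemma qs_md_lft {σ : Type} [Finite σ] (E : Set (MvPolynomial σ ℤ)) (s : ℤ) :
    QS Q (insert (C (m : ℤ)) (lft E)) s ↔ QS Q (lft (insert (C (m : ℤ)) E)) s := by
  refine hQ.qs_congr (fun A _ x => ?_) s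
  rw [pt_md, Pt.lft_iff, Pt.lft_iff, pt_md]

/-- **The reduction modulo `m` of a graded cut-and-paste property.** -/
theorem ringCP_mod (m : ℕ) : RingCP (fun (R : Type) [CommRing R] => qmd Q m R) := by
  constructor
  · intro R S _ _ hR e s h
    obtain ⟨n, E, u, hu, _⟩ := ft_rep hR
    have h1 : Rep S E (fun i => e (u i)) := by
      refine ⟨hu.pt.map e.toRingHom, fun A _ x hx => ?_, fun A _ φ ψ hh => ?_⟩
      · obtain ⟨φ, hφ⟩ := hu.ex A x hx
        exact ⟨φ.comp e.symm.toRingHom, fun i => by simpa using hφ i⟩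
      · have h2 := hu.uniq A (φ.comp e.toRingHom) (ψ.comp e.toRingHom) hh
        refine RingHom.ext fun s => ?_
        have h3 := congrArg (fun χ : R →+* A => χ (e.symm s)) h2
        simpa using h3
    rw [qmd_rep hQ h1]
    exact (qmd_rep hQ hu s).mp h
  · intro R _ hR
    exact hQ.bdd _ (hR.of_surj (Ideal.Quotient.mk _) Ideal.Quotient.mk_surjective)
  · intro R _ hR f s h1 h2
    obtain ⟨n, E, u, hu, hs⟩ := ft_rep hR
    obtain ⟨p, rfl⟩ := hs f
    rw [qmd_rep hQ (hu.closed p), Set.insert_comm] at h1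
    rw [qmd_rep hQ (hu.dop p), qs_md_dop hQ] at h2
    rw [qmd_rep hQ hu]
    exact hQ.glue' h1 h2
  · intro R _ hR f s h1 h2
    obtain ⟨n, E, u, hu, hs⟩ := ft_rep hR
    obtain ⟨p, rfl⟩ := hs f
    rw [qmd_rep hQ hu] at h1
    rw [qmd_rep hQ (hu.closed p), Set.insert_comm] at h2
    rw [qmd_rep hQ (hu.dop p), qs_md_dop hQ]
    exact hQ.opn' h1 h2
  · intro R _ hR f s h1 h2
    obtain ⟨n, E, u, hu, hs⟩ := ft_rep hR
    obtain ⟨p, rfl⟩ := hs f
    rw [qmd_rep hQ hu] at h1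
    rw [qmd_rep hQ (hu.dop p), qs_md_dop hQ] at h2
    rw [qmd_rep hQ (hu.closed p), Set.insert_comm]
    exact hQ.closed' h1 h2
  · intro R _ hR s
    obtain ⟨n, E, u, hu, _⟩ := ft_rep hR
    rw [qmd_rep hQ hu.line, qmd_rep hQ hu, qs_md_lft hQ, hQ.qs_line]

end

/-- **Reduction modulo `m` of semantically closed classes.** -/
theorem Sem.mod {G : ∀ (R : Type) [CommRing R], Prop} (hG : RG G) (hS : Sem G) (m : ℕ) :
    Sem (fun (R : Type) [CommRing R] => md G m R) := by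
  intro σ₁ σ₂ σ₃ _ _ _ E₁ E₂ E₃ h h1 h2
  have g1 := (gs_md hG (m := m) E₁).1 h1
  have g2 := (gs_md hG (m := m) E₂).1 h2
  refine (gs_md hG (m := m) E₃).2 (hS _ _ _ _ _ _ (fun Q hQ k1 k2 s => ?_) g1 g2)
  refine (qs_md hQ (m := m) E₃ s).1 (h _ (ringCP_mod hQ m) (fun s => ?_) (fun s => ?_) s)
  · exact (qs_md hQ (m := m) E₁ s).2 (k1 s)
  · exact (qs_md hQ (m := m) E₂ s).2 (k2 s)

end Pool.Agent.Helper45.RM
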