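import Pool.Agent.Helper81.HG.Col
import Pool.Agent.Helper81.HG.Cls
import Pool.Agent.Helper45.RM.Heis

/-!
# The positive half: Heisenberg groups of dimension at most three, the plane
-/

set_option autoImplicit false

open AlgebraicGeometry MvPolynomial
open Pool.Agent.Helper81.CP Pool.Agent.Helper81.HG

namespace Pool.Agent.Helper45.RM

section

variable {G : ∀ (R : Type) [CommRing R], Prop} (hG : RG G)
  (h0 : GS G (∅ : Set (MvPolynomial Empty ℤ)))

include hG h0

lemma gs_hes_zero {V : Type} [Finite V] (Γ : SimpleGraph V) : GS G (heS 0 Γ) := by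
  refine (hG.gs_congr fun R _ x => ?_).1 (gs_affine_of_base hG h0 (V × (Fin 0 ⊕ Fin 0 ⊕ Unit)))
  rw [pt_hes]
  constructor
  · intro _ v w _
    simp
  · intro _ p hp
    exact absurd hp (Set.notMem_empty p)

lemma gs_hes_one {V : Type} [Finite V] (Γ : SimpleGraph V) : GS G (heS 1 Γ) := by
  let k : V × Fin 2 → V × (Fin 1 ⊕ Fin 1 ⊕ Unit) := fun p =>
    (p.1, if p.2 = 0 then Sum.inl 0 else Sum.inr (Sum.inl 0))
  have hk : Function.Injective k := by
    rintro ⟨v, i⟩ ⟨w, j⟩ h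
    have h1 : v = w := congrArg Prod.fst h
    have h2 := congrArg Prod.snd h
    subst h1
    fin_cases i <;> fin_cases j <;> simp [k] at h2 ⊢
  have h1 := (hG.gs_emb k hk (cols {e : V × V | Γ.Adj e.1 e.2})).2 (gs_cols hG h0 _)
  refine (hG.gs_congr fun R _ x => ?_).1 h1
  have h2 : Pt (rename k '' cols {e : V × V | Γ.Adj e.1 e.2}) x ↔
      Pt (cols {e : V × V | Γ.Adj e.1 e.2}) (fun p => x (k p)) := by
    unfold Pt
    simp only [Set.forall_mem_image, ev_rename]
  rw [h2, pt_cols, pt_hes]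
  refine forall_congr' fun v => forall_congr' fun w => ?_
  simp only [Set.mem_ofPred_eq, Fin.sum_univ_one]
  exact Iff.rfl

lemma gs_hes_le {m : ℕ} (hm : m ≤ 1) {V : Type} [Finite V] (Γ : SimpleGraph V) :
    GS G (heS m Γ) := by
  rcases Nat.le_one_iff_eq_zero_or_eq_one.1 hm with rfl | rfl
  · exact gs_hes_zero hG h0 Γ
  · exact gs_hes_one hG h0 Γ

lemma ohyp_two : OHyp G 2 := by
  intro A B _ _ E
  let D : Set ((A ⊕ B) × (A ⊕ B)) := {e | ∃ a b, (a, b) ∈ E ∧ e = (Sum.inl a, Sum.inr b)}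
  let f : ∀ (R : Type) [CommRing R], ((A ⊕ B) × Fin 2 → R) → (OV 2 A B → R) :=
    fun R _ x => Sum.elim (fun p => x (Sum.inl p.1, p.2))
      (fun p => if p.2 = 0 then x (Sum.inr p.1, 1) else - x (Sum.inr p.1, 0))
  let g : ∀ (R : Type) [CommRing R], (OV 2 A B → R) → ((A ⊕ B) × Fin 2 → R) :=
    fun R _ y p => Sum.elim (fun a => y (Sum.inl (a, p.2)))
      (fun b => if p.2 = 0 then - y (Sum.inr (b, 1)) else y (Sum.inr (b, 0))) p.1
  refine (hG.gs_iso f g ?_ ?_ ?_ ?_ ?_ ?_).1 (gs_cols hG h0 D)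
  · rintro R S _ _ φ x _ (p | p)
    · rfl
    · show φ (if p.2 = 0 then _ else _) = if p.2 = 0 then _ else _
      split_ifs
      · rfl
      · rw [map_neg]
  · rintro R S _ _ φ y _ ⟨p | p, i⟩
    · rfl
    · show φ (if i = 0 then _ else _) = if i = 0 then _ else _
      split_ifs
      · rw [map_neg]
      · rfl
  · intro R _ x hx
    rw [pt_ors]
    rintro ⟨a, b⟩ he
    have h1 := pt_cols.1 hx (Sum.inl a) (Sum.inr b) ⟨a, b, he, rfl⟩
    unfold dt
    rw [Fin.sum_univ_two]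
    show x (Sum.inl a, 0) * x (Sum.inr b, 1) + x (Sum.inl a, 1) * (- x (Sum.inr b, 0)) = 0
    rw [h1]
    ring
  · intro R _ y hy
    rw [pt_cols]
    rintro v w ⟨a, b, he, hvw⟩
    obtain ⟨rfl, rfl⟩ := Prod.mk.inj hvw
    have h1 := pt_ors.1 hy (a, b) he
    unfold dt at h1
    rw [Fin.sum_univ_two] at h1
    show y (Sum.inl (a, 0)) * y (Sum.inr (b, 0)) = (- y (Sum.inr (b, 1))) * y (Sum.inl (a, 1))
    linear_combination h1
  · intro R _ x _
    funext p
    obtain ⟨v | v, i⟩ := p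
    · rfl
    · fin_cases i
      · show - (if (1 : Fin 2) = 0 then x (Sum.inr v, 1) else - x (Sum.inr v, 0)) = _
        rw [if_neg (by decide), neg_neg]
        rfl
      · rfl
  · intro R _ y _
    funext p
    obtain ⟨v, i⟩ | ⟨v, i⟩ := p
    · rfl
    · fin_cases i
      · rfl
      · show - (- y (Sum.inr (v, 1))) = _
        rw [neg_neg]
        rfl

lemma ohyp_le_two (hS : Sem G) {d : ℕ} (hd : d ≤ 2) : OHyp G d := ohyp_le hS hd (ohyp_two hG h0)

end

/-- the representing system of `ℤ/N` -/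
lemma rep_zmod (N : ℕ) : Rep (ZMod N) (insert (C (N : ℤ)) (∅ : Set (MvPolynomial Empty ℤ)))
    Empty.elim := by
  refine ⟨?_, ?_, ?_⟩
  · rw [pt_md]
    exact ⟨ZMod.natCast_self N, fun p hp => absurd hp (Set.notMem_empty p)⟩
  · intro A _ x hx
    rw [pt_md] at hx
    have h1 : ∀ a ∈ Ideal.span {(N : ℤ)}, (Int.castRingHom A) a = 0 := by
      intro a ha
      obtain ⟨b, rfl⟩ := Ideal.mem_span_singleton'.1 ha
      rw [map_mul]
      have : (Int.castRingHom A) (N : ℤ) = 0 := by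
        rw [map_natCast]
        exact hx.1
      rw [this, mul_zero]
    exact ⟨(Ideal.Quotient.lift _ (Int.castRingHom A) h1).comp
      (Int.quotientSpanNatEquivZMod N).symm.toRingHom, fun i => i.elim⟩
  · intro A _ φ ψ _
    exact RingHom.ext_zmod φ ψ

/-- the base -/
lemma gs_base {G : Scheme.{0} → Prop} (hG : SG G) (N : ℕ)
    (h : G (Spec (CommRingCat.of (ZMod N)))) :
    GS (md (rg G) N) (∅ : Set (MvPolynomial Empty ℤ)) := by
  rw [gs_md hG.rg]
  exact (hG.rg.rep_iff (rep_zmod N)).1 h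

end Pool.Agent.Helper45.RM
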