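import Pool.Agent.Helper81.HG.Main
import Pool.Agent.Helper45.RM.Pos
import Pool.Agent.Helper45.RM.Eqc
import Pool.Agent.Helper45.RM.Frame
import Pool.Agent.Helper45.RM.Mod
import Pool.Agent.Helper45.RM.All

/-!
# The dichotomy for both questions
-/

set_option autoImplicit false

open AlgebraicGeometry CategoryTheory TopologicalSpace MvPolynomial
open Pool.Agent.Helper81.CP Pool.Agent.Helper81.HG

namespace Pool.Agent.Helper45.RM

universe u

lemma isFT_finiteType {N : ℕ} : ∀ X ∈ FiniteType N, IsFT X := fun _ hX => isFT_of_zmod hX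

lemma isFT_orth {N d : ℕ} : ∀ X ∈ OrthClass N d, IsFT X := by
  rintro _ ⟨A, B, hA, hB, E, rfl⟩
  exact isFT_zero _ _

lemma isFT_heis {N m : ℕ} : ∀ X ∈ HeisClass N m, IsFT X := by
  rintro _ ⟨V, hV, Γ, rfl⟩
  exact isFT_zero _ _

section

variable {G : Scheme.{0} → Prop} (hG : SG G) {N : ℕ}

include hG

/-- orthogonality relations -/
lemma cc_orth_iff {d : ℕ} : CC G (OrthClass N d) ↔ OHyp (md (rg G) N) d := by
  constructor
  · intro h A B _ _ E
    exact (gz hG _).2 (h _ ⟨A, B, inferInstance, inferInstance, E, rfl⟩)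
  · rintro h _ ⟨A, B, hA, hB, E, rfl⟩
    exact (gz hG _).1 (h A B E)

/-- the Heisenberg groups of dimension `2 m + 1` -/
lemma ohyp_of_bip {m : ℕ} (h : CC G (BipartiteHeisClass N m)) :
    OHyp (md (rg G) N) (m + m) := by
  intro A B _ _ E
  refine (gs_bip (hG.rg.mod N) m E).1 ((gz hG _).2 (h _ ?_))
  exact ⟨A ⊕ B, inferInstance, bip E, bip_colorable E, rfl⟩

lemma cc_heis_iff {m : ℕ} : CC G (HeisClass N m) ↔
    ∀ (V : Type) [Finite V] (Γ : SimpleGraph V), GS (md (rg G) N) (heS m Γ) := by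
  constructor
  · intro h V _ Γ
    exact (gz hG _).2 (h _ ⟨V, inferInstance, Γ, rfl⟩)
  · rintro h _ ⟨V, hV, Γ, rfl⟩
    exact (gz hG _).1 (h V Γ)

omit hG in
lemma bip_subset (N m : ℕ) : BipartiteHeisClass N m ⊆ CommClass N m := by
  rintro _ ⟨V, hV, Γ, _, rfl⟩
  refine ⟨V, hV, {e : V × V × V × V | Γ.Adj e.1 e.2.1 ∧ e.2.2 = (e.1, e.1)}, ?_⟩
  exact congrArg (Zeros N) (cos_hes m Γ).symm

lemma cc_all_of_comm_one (h : CC G (CommClass N 1)) : CC G (FiniteType N) := by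
  intro X hX
  obtain ⟨n, hn⟩ := exists_fibreDim N X hX
  refine cc_fibreDim hG (fun f => hyp_of_eqc (hG.rg.mod N) (fun V _ E => ?_) f) X hn
  exact (gs_cos (hG.rg.mod N) E).1 ((gz hG _).2 (h _ ⟨V, inferInstance, E, rfl⟩))

/-- **Orthogonality relations in dimension at least three control everything.** -/
lemma cc_all_of_ohyp (hS : Sem (rg G)) {d : ℕ} (hd : 3 ≤ d) (h : OHyp (md (rg G) N) d) :
    CC G (FiniteType N) := by
  intro X hX
  obtain ⟨n, hn⟩ := exists_fibreDim N X hX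
  exact cc_fibreDim hG (hyp_of_ohyp (hG.rg.mod N) (Sem.mod hG.rg hS N) hd h) X hn

end

theorem main (N : ℕ) :
    (∀ m, 1 ≤ m → Controls.{u} (CommClass N m) (FiniteType N)) ∧
    (∀ m, 2 ≤ m → Controls.{u} (BipartiteHeisClass N m) (FiniteType N)) ∧
    (∀ m, m ≤ 1 → Controls.{u} {Spec (CommRingCat.of (ZMod N))} (HeisClass N m)) ∧
    (∀ d, 3 ≤ d → Controls.{u} (OrthClass N d) (FiniteType N)) ∧
    (∀ d, d ≤ 2 → Controls.{u} {Spec (CommRingCat.of (ZMod N))} (OrthClass N d)) := by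
  refine ⟨fun m hm => ?_, fun m hm => ?_, fun m hm => ?_, fun d hd => ?_, fun d hd => ?_⟩
  · refine controls_of_ctl isFT_finiteType ?_
    rcases Nat.lt_or_ge 1 m with h1 | h1
    · exact cc_all_of_ohyp (sg_ctl _) (sem_ctl _) (by omega : 3 ≤ m + m)
        (ohyp_of_bip (sg_ctl _) fun X hX => cc_self (CommClass N m) X (bip_subset N m hX))
    · obtain rfl : m = 1 := le_antisymm h1 hm
      exact cc_all_of_comm_one (sg_ctl _) (cc_self _)
  · refine controls_of_ctl isFT_finiteType ?_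
    exact cc_all_of_ohyp (sg_ctl _) (sem_ctl _) (by omega : 3 ≤ m + m)
      (ohyp_of_bip (sg_ctl _) (cc_self _))
  · refine controls_of_ctl isFT_heis ?_
    refine (cc_heis_iff (sg_ctl _)).2 fun V _ Γ => ?_
    exact gs_hes_le ((sg_ctl _).rg.mod N) (gs_base (sg_ctl _) N (cc_self _ _ (Set.mem_singleton _))) hm Γ
  · refine controls_of_ctl isFT_finiteType ?_
    exact cc_all_of_ohyp (sg_ctl _) (sem_ctl _) hd ((cc_orth_iff (sg_ctl _)).1 (cc_self _))
  · refine controls_of_ctl isFT_orth ?_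
    refine (cc_orth_iff (sg_ctl _)).2 ?_
    exact ohyp_le_two ((sg_ctl _).rg.mod N) (gs_base (sg_ctl _) N (cc_self _ _ (Set.mem_singleton _)))
      (Sem.mod (sg_ctl _).rg (sem_ctl _) N) hd

end Pool.Agent.Helper45.RM
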