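import Pool.Agent.Helper45.RM.Mfr

/-!
# Matroids
-/

set_option autoImplicit false

open MvPolynomial
open Pool.Agent.Helper81.CP Pool.Agent.Helper81.HG

namespace Pool.Agent.Helper45.RM

/-! ### The matroid of a family of vectors -/

section
variable {K V : Type} [Field K] [Finite V] {d : ℕ}

/-- the matroid of a family of vectors -/
noncomputable def vmat (r : V → Fin d → K) : Matroid V :=
  (IndepMatroid.ofFinite (Set.finite_univ (α := V)) (fun I => LinearIndepOn K r I)
    (linearIndepOn_empty K r) (fun _ _ hJ hIJ => hJ.mono hIJ)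
    (by
      intro I J hI hJ hIJ
      by_contra hcon
      push Not at hcon
      have h1 : Submodule.span K (r '' J) ≤ Submodule.span K (r '' I) := by
        rw [Submodule.span_le]
        rintro _ ⟨e, he, rfl⟩
        by_cases heI : e ∈ I
        · exact Submodule.subset_span ⟨e, heI, rfl⟩
        · have h2 := hcon e he heI
          rw [linearIndepOn_insert heI] at h2
          by_contra h3
          exact h2 ⟨hI, h3⟩
      have h2 := Submodule.finrank_mono h1
      have key : ∀ S : Set V, LinearIndepOn K r S →
          Module.finrank K (Submodule.span K (r '' S)) = S.ncard := by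
        intro S hS
        have := Fintype.ofFinite S
        have h3 := finrank_span_eq_card hS
        rw [Set.image_eq_range, h3, Set.ncard_eq_toFinset_card', Set.toFinset_card]
      rw [key I hI, key J hJ] at h2
      omega)
    (fun _ _ => Set.subset_univ _)).matroid

lemma vmat_indep (r : V → Fin d → K) (I : Set V) : (vmat r).Indep I ↔ LinearIndepOn K r I :=
  Iff.rfl

lemma ncard_le (r : V → Fin d → K) {I : Set V} (h : LinearIndepOn K r I) : I.ncard ≤ d := by
  have := Fintype.ofFinite I
  have h1 := LinearIndependent.fintype_card_le_finrank h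
  rw [Module.finrank_fin_fun] at h1
  rwa [Set.ncard_eq_toFinset_card', Set.toFinset_card]

omit [Finite V] in
lemma mv_ne_iff (x : V × Fin d → K) (B : Fin d → V) :
    mv x B ≠ 0 ↔ LinearIndependent K fun i => (fun j => x (B i, j) : Fin d → K) := by
  have h1 := Matrix.linearIndependent_rows_iff_isUnit
    (A := (Matrix.of fun i j => x (B i, j) : Matrix (Fin d) (Fin d) K))
  rw [Matrix.isUnit_iff_isUnit_det, isUnit_iff_ne_zero] at h1
  exact h1.symm

lemma mv_ne_iff_base (x : V × Fin d → K) (B : Fin d → V) : mv x B ≠ 0 ↔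
    Function.Injective B ∧ (vmat fun v => (fun j => x (v, j) : Fin d → K)).IsBase
      (Set.range B) := by
  rw [mv_ne_iff]
  constructor
  · intro h
    have hinj : Function.Injective B := by
      intro i j hij
      have h1 := h.injective (a₁ := i) (a₂ := j)
      exact h1 (by simp only [hij])
    refine ⟨hinj, ?_⟩
    rw [Matroid.isBase_iff_maximal_indep]
    refine ⟨(vmat_indep _ _).2 ((linearIndepOn_range_iff hinj
      (fun v => (fun j => x (v, j) : Fin d → K))).2 h), fun J hJ hBJ => ?_⟩
    have h2 := ncard_le _ ((vmat_indep _ J).1 hJ)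
    have h3 : (Set.range B).ncard = d := by
      rw [Set.ncard_range_of_injective hinj, Nat.card_fin]
    exact (Set.eq_of_subset_of_ncard_le hBJ (by rw [h3]; exact h2)).symm.le
  · rintro ⟨hinj, hB⟩
    exact (linearIndepOn_range_iff hinj (fun v => (fun j => x (v, j) : Fin d → K))).1
      ((vmat_indep _ _).1 hB.indep)

lemma erank_vmat {x : V × Fin d → K} {B : Fin d → V} (h : mv x B ≠ 0) :
    (vmat fun v => (fun j => x (v, j) : Fin d → K)).eRank = d := by
  obtain ⟨hinj, hB⟩ := (mv_ne_iff_base x B).1 h
  rw [← hB.encard_eq_eRank, ← Set.image_univ, hinj.encard_image]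
  simp

end

/-- the tuples which are not bases -/
def nb {V : Type} {d : ℕ} (M : Matroid V) : Set (Fin d → V) :=
  {B | ¬ (Function.Injective B ∧ M.IsBase (Set.range B))}

/-- nontrivial rings have homomorphisms to fields -/
lemma exists_field_hom (R : Type) [CommRing R] [Nontrivial R] :
    ∃ (K : Type) (_ : Field K), Nonempty (R →+* K) := by
  obtain ⟨m, hm⟩ := Ideal.exists_maximal R
  exact ⟨R ⧸ m, Ideal.Quotient.field m, ⟨Ideal.Quotient.mk m⟩⟩

/-! ### Contradictory systems -/

section
variable {G : ∀ (R : Type) [CommRing R], Prop} (hG : RG G) {σ : Type}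

include hG

lemma go_of_false {E : Set (MvPolynomial σ ℤ)} {p : MvPolynomial σ ℤ}
    (h : ∀ (R : Type) [CommRing R] (x : σ → R), Lc E p x → (1 : R) = 0) : GO G E p := by
  refine hG.triv _ ?_
  have h1 : Pt (dop p E) (tau (dop p E)) := (rep_rng (dop p E)).pt
  rw [Pt.dop_iff_lc] at h1
  have h2 := h _ _ h1.1
  exact ⟨fun a b => by rw [← mul_one a, ← mul_one b, h2, mul_zero, mul_zero]⟩

end

/-! ### Strata -/

/-- all systems of vanishing and invertible minors, at least one being inverted -/
def MOp (G : ∀ (R : Type) [CommRing R], Prop) (d : ℕ) : Prop :=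
  ∀ (V : Type) [Finite V] (T : Set (Fin d → V)) (S : Finset (Fin d → V)), S.Nonempty →
    GO G (mS T) (∏ B ∈ S, mn B)

section
variable {G : ∀ (R : Type) [CommRing R], Prop} (hG : RG G) {d : ℕ} {V : Type} [Finite V]

include hG

lemma go_strata [Fintype V] [DecidableEq V]
    (h : ∀ T : Set (Fin d → V), ∀ F : Finset (Fin d → V), F.Nonempty → (∀ B, B ∈ F ↔ B ∉ T) →
      GO G (mS T) (∏ B ∈ F, mn B)) (T : Set (Fin d → V)) (S : Finset (Fin d → V))
    (hS : S.Nonempty) : GO G (mS T) (∏ B ∈ S, mn B) := by
  classical
  have key : ∀ (S : Finset (Fin d → V)) (T : Set (Fin d → V)) (F : Finset (Fin d → V)),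
      F.Nonempty → (∀ B, B ∈ F ↔ B ∉ T ∧ B ∉ S) → GO G (mS T) (∏ B ∈ F, mn B) := by
    intro S
    induction S using Finset.induction_on with
    | empty =>
      intro T F hF0 hF
      refine h T F hF0 fun B => ?_
      rw [hF]
      simp
    | insert a S ha ih =>
      intro T F hF0 hF
      by_cases haT : a ∈ T
      · refine ih T F hF0 fun B => ?_
        rw [hF, Finset.mem_insert]
        constructor
        · rintro ⟨h1, h2⟩
          exact ⟨h1, fun h3 => h2 (Or.inr h3)⟩
        · rintro ⟨h1, h2⟩
          refine ⟨h1, ?_⟩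
          rintro (rfl | h3)
          · exact h1 haT
          · exact h2 h3
      · have haF : a ∉ F := by
          rw [hF]
          simp
        refine hG.gl_glue (mn a) ?_ ?_
        · have h1 := ih (insert a T) F hF0 fun B => by
            rw [hF, Finset.mem_insert, Set.mem_insert_iff]
            tauto
          unfold mS at h1 ⊢
          rwa [Set.image_insert_eq] at h1
        · have h1 := ih T (insert a F) (Finset.insert_nonempty _ _) fun B => by
            rw [Finset.mem_insert, hF, Finset.mem_insert]
            constructor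
            · rintro (rfl | ⟨h1, h2⟩)
              · exact ⟨haT, ha⟩
              · exact ⟨h1, fun h3 => h2 (Or.inr h3)⟩
            · rintro ⟨h1, h2⟩
              by_cases hB : B = a
              · exact Or.inl hB
              · exact Or.inr ⟨h1, fun h3 => h3.elim hB h2⟩
          rw [Finset.prod_insert haF, mul_comm] at h1
          exact h1
  by_cases hST : ∃ B ∈ S, B ∈ T
  · obtain ⟨B, hB, hBT⟩ := hST
    refine go_of_false hG fun R _ x hx => ?_
    have h1 := hx.2
    rw [map_prod, isUnit_prod_iff] at h1
    have h2 := h1 B hB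
    rw [ev_mn, pt_ms.1 hx.1 B hBT] at h2
    obtain ⟨u, hu⟩ := h2.exists_left_inv
    rw [← hu, mul_zero]
  · push Not at hST
    refine key (Finset.univ.filter fun B => B ∉ T ∧ B ∉ S) T S hS fun B => ?_
    constructor
    · intro hB
      exact ⟨hST B hB, by simp [hB]⟩
    · rintro ⟨h1, h2⟩
      by_contra h3
      exact h2 (by simp [h1, h3])

/-- from the matroid strata to all systems -/
theorem mop_of_matroids (h : ∀ (V : Type) [Finite V] (M : Matroid V), M.E = Set.univ →
      M.eRank = d → ∀ F : Finset (Fin d → V), (∀ B, B ∈ F ↔ B ∉ nb M) →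
      GO G (mS (nb M)) (∏ B ∈ F, mn B)) : MOp G d := by
  classical
  intro V _ T S hS
  have := Fintype.ofFinite V
  refine go_strata hG (fun T F hF0 hF => ?_) T S hS
  by_cases hM : ∃ M : Matroid V, M.E = Set.univ ∧ M.eRank = d ∧ T = nb M
  · obtain ⟨M, h1, h2, rfl⟩ := hM
    exact h V M h1 h2 F hF
  · refine go_of_false hG fun R _ x hx => ?_
    by_contra hne
    have hnt : Nontrivial R := ⟨1, 0, hne⟩
    obtain ⟨K, hK, ⟨φ⟩⟩ := exists_field_hom R
    let y : V × Fin d → K := fun i => φ (x i)
    have hy : ∀ B, B ∈ T ↔ mv y B = 0 := by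
      intro B
      have h1 : mv y B = φ (mv x B) := (mv_map φ x B).symm
      constructor
      · intro hB
        rw [h1, pt_ms.1 hx.1 B hB, map_zero]
      · intro hB
        by_contra hBT
        have h2 := hx.2
        rw [map_prod, isUnit_prod_iff] at h2
        have h3 := (h2 B ((hF B).2 hBT)).map φ
        rw [ev_mn, ← h1, hB] at h3
        exact not_isUnit_zero h3
    obtain ⟨B₀, hB₀⟩ := hF0
    have h0 : mv y B₀ ≠ 0 := fun h => (hF B₀).1 hB₀ ((hy B₀).2 h)
    refine hM ⟨vmat fun v => (fun j => y (v, j) : Fin d → K), rfl, erank_vmat h0, ?_⟩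
    ext B
    rw [hy]
    have h1 := mv_ne_iff_base y B
    unfold nb
    rw [Set.mem_ofPred_eq, ← h1, not_not]

end

end Pool.Agent.Helper45.RM
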