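import Pool.Agent.Helper45.RM.Min
import Pool.Agent.Helper45.RM.Frame

/-!
# Minors of matrices with three rows
-/

set_option autoImplicit false

open MvPolynomial
open Pool.Agent.Helper81.CP Pool.Agent.Helper81.HG

namespace Pool.Agent.Helper45.RM

section
variable {R : Type} [CommRing R]

/-- the determinant of three vectors -/
def det3 (u v w : Fin 3 → R) : R :=
  u 0 * (v 1 * w 2 - v 2 * w 1) - u 1 * (v 0 * w 2 - v 2 * w 0) + u 2 * (v 0 * w 1 - v 1 * w 0)

/-- the vector product -/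
def crs (u v : Fin 3 → R) : Fin 3 → R :=
  ![u 1 * v 2 - u 2 * v 1, u 2 * v 0 - u 0 * v 2, u 0 * v 1 - u 1 * v 0]

lemma mv_three {V : Type} (x : V × Fin 3 → R) (a b c : V) :
    mv x ![a, b, c] = det3 (fun i => x (a, i)) (fun i => x (b, i)) (fun i => x (c, i)) := by
  unfold mv det3
  rw [Matrix.det_fin_three]
  simp only [Matrix.of_apply, Matrix.cons_val_zero, Matrix.cons_val_one, Matrix.cons_val]
  ring

lemma dot_crs (p q q' : Fin 3 → R) : ∑ i, p i * crs q q' i = det3 p q q' := by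
  unfold crs det3
  rw [Fin.sum_univ_three]
  simp only [Matrix.cons_val_zero, Matrix.cons_val_one, Matrix.cons_val]
  ring

lemma det3_plk (u q q' a b : Fin 3 → R) : det3 u q q' * det3 u a b =
    det3 u q b * det3 u a q' + det3 u q a * det3 u q' b := by
  unfold det3
  ring

/-- expansion of a form -/
lemma form_eq (p0 p1 p2 l : Fin 3 → R) (i : Fin 3) :
    (∑ k, p0 k * l k) * crs p1 p2 i + (∑ k, p1 k * l k) * crs p2 p0 i +
      (∑ k, p2 k * l k) * crs p0 p1 i = det3 p0 p1 p2 * l i := by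
  unfold crs det3
  simp only [Fin.sum_univ_three]
  fin_cases i
  · simp only [Matrix.cons_val_zero, Fin.zero_eta]
    ring
  · simp only [Matrix.cons_val_zero, Matrix.cons_val_one, Fin.mk_one]
    ring
  · simp only [Matrix.cons_val, Fin.reduceFinMk]
    ring

/-- the vector product of two points on the sides -/
lemma crs_sides (p0 p1 p2 : Fin 3 → R) (L0 L1 L2 s s' : R) (i : Fin 3) :
    crs (fun k => s * (L0 * p1 k - L1 * p0 k)) (fun k => s' * (L0 * p2 k - L2 * p0 k)) i =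
      s * s' * L0 * (L0 * crs p1 p2 i + L1 * crs p2 p0 i + L2 * crs p0 p1 i) := by
  unfold crs
  fin_cases i
  · simp only [Matrix.cons_val_zero, Fin.zero_eta]
    ring
  · simp only [Matrix.cons_val_zero, Matrix.cons_val_one, Fin.mk_one]
    ring
  · simp only [Matrix.cons_val, Fin.reduceFinMk]
    ring

lemma cramer3 (p0 p1 p2 q : Fin 3 → R) (i : Fin 3) :
    det3 q p1 p2 * p0 i + det3 p0 q p2 * p1 i + det3 p0 p1 q * p2 i = det3 p0 p1 p2 * q i := by
  unfold det3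
  fin_cases i
  · simp only [Fin.zero_eta]
    ring
  · simp only [Fin.mk_one]
    ring
  · simp only [Fin.reduceFinMk]
    ring

/-- the first point -/
lemma side_q {p0 p1 p2 q q' : Fin 3 → R} (h1 : det3 p0 p1 q = 0) (i : Fin 3) :
    det3 p0 q p2 * (det3 p0 q q' * p1 i - det3 p1 q q' * p0 i) =
      det3 p0 p1 p2 * det3 p0 q q' * q i := by
  have h2 := cramer3 p0 p1 p2 q i
  have h3 : det3 p0 q q' * det3 q p1 p2 + det3 p1 q q' * det3 p0 q p2 = 0 := by
    have h4 : det3 p0 q q' * det3 q p1 p2 + det3 p1 q q' * det3 p0 q p2 =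
        - det3 q q' p2 * det3 p0 p1 q := by
      unfold det3
      ring
    rw [h4, h1, mul_zero]
  linear_combination (- p0 i) * h3 + det3 p0 q q' * h2 - det3 p0 q q' * p2 i * h1

/-- the second point -/
lemma side_q' {p0 p1 p2 q q' : Fin 3 → R} (h2 : det3 p0 p2 q' = 0) (i : Fin 3) : det3 p0 p1 p2 * (det3 p0 q q' * p2 i - det3 p2 q q' * p0 i) =
      det3 p0 p1 p2 * det3 p0 q p2 * q' i := by
  have h3 := cramer3 p0 p1 p2 q' i
  have h4 : det3 p0 q p2 * det3 p0 p1 q' = det3 p0 q q' * det3 p0 p1 p2 := by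
    have h5 : det3 p0 q p2 * det3 p0 p1 q' - det3 p0 q q' * det3 p0 p1 p2 =
        - det3 p0 p1 q * det3 p0 p2 q' := by
      unfold det3
      ring
    rw [h2, mul_zero] at h5
    exact sub_eq_zero.1 h5
  have h6 : det3 p0 q p2 * det3 q' p1 p2 = - (det3 p2 q q' * det3 p0 p1 p2) := by
    have h5 : det3 p0 q p2 * det3 q' p1 p2 + det3 p2 q q' * det3 p0 p1 p2 =
        - det3 p2 q p1 * det3 p0 p2 q' := by
      unfold det3
      ring
    rw [h2, mul_zero] at h5
    exact eq_neg_of_add_eq_zero_left h5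
  have h7 : det3 p0 q' p2 = 0 := by
    have h5 : det3 p0 q' p2 = - det3 p0 p2 q' := by
      unfold det3
      ring
    rw [h5, h2, neg_zero]
  linear_combination (- p2 i) * h4 - p0 i * h6 + det3 p0 q p2 * h3 - det3 p0 q p2 * p1 i * h7

lemma det3_map {S : Type} [CommRing S] (φ : R →+* S) (u v w : Fin 3 → R) :
    φ (det3 u v w) = det3 (fun i => φ (u i)) (fun i => φ (v i)) (fun i => φ (w i)) := by
  unfold det3
  simp only [map_add, map_sub, map_mul]

lemma crs_map {S : Type} [CommRing S] (φ : R →+* S) (u v : Fin 3 → R) (i : Fin 3) :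
    φ (crs u v i) = crs (fun i => φ (u i)) (fun i => φ (v i)) i := by
  unfold crs
  fin_cases i
  · simp only [Matrix.cons_val_zero, Fin.zero_eta, map_sub, map_mul]
  · simp only [Matrix.cons_val_zero, Matrix.cons_val_one, Fin.mk_one, map_sub, map_mul]
  · simp only [Matrix.cons_val, Fin.reduceFinMk, map_sub, map_mul]

/-- cyclic permutations -/
lemma det3_cyc (p : Fin 3 → Fin 3 → R) (j : Fin 3) :
    det3 (p j) (p (j + 1)) (p (j + 2)) = det3 (p 0) (p 1) (p 2) := by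
  fin_cases j
  · rfl
  · show det3 (p 1) (p 2) (p 0) = _
    unfold det3
    ring
  · show det3 (p 2) (p 0) (p 1) = _
    unfold det3
    ring

end

/-! ### The system of minors -/

section
variable {A B : Type}

/-- a point of the frame which is not on the line -/
def jj (lam : B → Fin 3) : Option (Fin 3 ⊕ B) → Fin 3
  | none => 0
  | some (Sum.inl i) => i
  | some (Sum.inr b) => lam b

/-- the vectors: the points and two points for each line -/
abbrev PV (A B : Type) := (Fin 3 ⊕ A) ⊕ (Option (Fin 3 ⊕ B)) × Fin 2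

/-- the triple of a point and a line -/
def tri (e : (Fin 3 ⊕ A) × Option (Fin 3 ⊕ B)) : Fin 3 → PV A B :=
  ![Sum.inl e.1, Sum.inr (e.2, 0), Sum.inr (e.2, 1)]

/-- the triples with vanishing minors -/
def mT (lam : B → Fin 3) (E : Set ((Fin 3 ⊕ A) × Option (Fin 3 ⊕ B))) :
    Set (Fin 3 → PV A B) :=
  tri '' E ∪ {t | ∃ b, t = ![Sum.inl (Sum.inl (jj lam b)), Sum.inl (Sum.inl (jj lam b + 1)),
      Sum.inr (b, 0)] ∨
    t = ![Sum.inl (Sum.inl (jj lam b)), Sum.inl (Sum.inl (jj lam b + 2)), Sum.inr (b, 1)]}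

variable {R : Type} [CommRing R]

/-- the points -/
def pP (x : PV A B × Fin 3 → R) (a : Fin 3 ⊕ A) : Fin 3 → R := fun i => x (Sum.inl a, i)

/-- the two points on a line -/
def qQ (x : PV A B × Fin 3 → R) (b : Option (Fin 3 ⊕ B)) (k : Fin 2) : Fin 3 → R :=
  fun i => x (Sum.inr (b, k), i)

/-- the value of a line on a point -/
def lL (x : PV A B × Fin 3 → R) (a : Fin 3 ⊕ A) (b : Option (Fin 3 ⊕ B)) : R :=
  det3 (pP x a) (qQ x b 0) (qQ x b 1)

/-- the determinant of the frame -/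
def dD (x : PV A B × Fin 3 → R) : R :=
  det3 (pP x (Sum.inl 0)) (pP x (Sum.inl 1)) (pP x (Sum.inl 2))

lemma dD_cyc (x : PV A B × Fin 3 → R) (j : Fin 3) :
    det3 (pP x (Sum.inl j)) (pP x (Sum.inl (j + 1))) (pP x (Sum.inl (j + 2))) = dD x :=
  det3_cyc (fun i => pP x (Sum.inl i)) j

lemma mv_tri (x : PV A B × Fin 3 → R) (e : (Fin 3 ⊕ A) × Option (Fin 3 ⊕ B)) :
    mv x (tri e) = lL x e.1 e.2 := mv_three x _ _ _

lemma pt_mT {lam : B → Fin 3} {E : Set ((Fin 3 ⊕ A) × Option (Fin 3 ⊕ B))}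
    {x : PV A B × Fin 3 → R} : Pt (mS (mT lam E)) x ↔ (∀ e ∈ E, lL x e.1 e.2 = 0) ∧
      ∀ b, det3 (pP x (Sum.inl (jj lam b))) (pP x (Sum.inl (jj lam b + 1))) (qQ x b 0) = 0 ∧
        det3 (pP x (Sum.inl (jj lam b))) (pP x (Sum.inl (jj lam b + 2))) (qQ x b 1) = 0 := by
  rw [pt_ms]
  constructor
  · intro h
    refine ⟨fun e he => ?_, fun b => ⟨?_, ?_⟩⟩
    · rw [← mv_tri]
      exact h _ (Or.inl ⟨e, he, rfl⟩)
    · exact (mv_three x _ _ _).symm.trans (h _ (Or.inr ⟨b, Or.inl rfl⟩))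
    · exact (mv_three x _ _ _).symm.trans (h _ (Or.inr ⟨b, Or.inr rfl⟩))
  · rintro ⟨h1, h2⟩ t (⟨e, he, rfl⟩ | ⟨b, rfl | rfl⟩)
    · rw [mv_tri]
      exact h1 e he
    · exact (mv_three x _ _ _).trans (h2 b).1
    · exact (mv_three x _ _ _).trans (h2 b).2

/-- the unit conditions -/
def UC (π : A → Fin 3) (lam : B → Fin 3)
    (F : Fin 3 ⊕ A → Option (Fin 3 ⊕ B) → R) : Prop :=
  (∀ b, IsUnit (F (Sum.inl (lam b)) (some (Sum.inr b)))) ∧
    (∀ a, IsUnit (F (Sum.inr a) (some (Sum.inl (π a))))) ∧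
    (∀ i, IsUnit (F (Sum.inl i) (some (Sum.inl i)))) ∧ ∀ i, IsUnit (F (Sum.inl i) none)

lemma UC.jj {π : A → Fin 3} {lam : B → Fin 3} {F : Fin 3 ⊕ A → Option (Fin 3 ⊕ B) → R}
    (h : UC π lam F) (b : Option (Fin 3 ⊕ B)) : IsUnit (F (Sum.inl (RM.jj lam b)) b) := by
  rcases b with _ | i | b
  · exact h.2.2.2 0
  · exact h.2.2.1 i
  · exact h.1 b

lemma uc_frP [Fintype A] [Fintype B] (π : A → Fin 3) (lam : B → Fin 3)
    (x : OV 3 (Fin 3 ⊕ A) (Option (Fin 3 ⊕ B)) → R) :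
    IsUnit (ev x (frP π lam)) ↔ UC π lam (dt x) := by
  unfold frP UC
  simp only [map_mul, map_prod, one_mul, ev_pr, IsUnit.mul_iff, isUnit_prod_iff,
    Finset.mem_univ, true_implies]
  tauto

/-- the minors which are inverted -/
noncomputable def mnP [Fintype A] [Fintype B] (π : A → Fin 3) (lam : B → Fin 3) :
    MvPolynomial (PV A B × Fin 3) ℤ :=
  ((((1 * ∏ _i : Fin 1, mn ![Sum.inl (Sum.inl 0), Sum.inl (Sum.inl 1), Sum.inl (Sum.inl 2)]) *
    ∏ b : B, mn (tri (Sum.inl (lam b), some (Sum.inr b)))) *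
    ∏ a : A, mn (tri (Sum.inr a, some (Sum.inl (π a))))) *
    ∏ i : Fin 3, mn (tri (Sum.inl i, some (Sum.inl i)))) *
    ∏ i : Fin 3, mn (tri (Sum.inl i, none))

lemma uc_mnP [Fintype A] [Fintype B] (π : A → Fin 3) (lam : B → Fin 3)
    (x : PV A B × Fin 3 → R) :
    IsUnit (ev x (mnP π lam)) ↔ IsUnit (dD x) ∧ UC π lam (lL x) := by
  unfold mnP UC
  simp only [map_mul, map_prod, one_mul, ev_mn, IsUnit.mul_iff, isUnit_prod_iff,
    Finset.mem_univ, mv_tri, mv_three, forall_const]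
  unfold dD pP
  tauto

lemma go_mnP {G : ∀ (R : Type) [CommRing R], Prop} (hG : RG G) (h : MHyp G 3) [Fintype A]
    [Fintype B] (π : A → Fin 3) (lam : B → Fin 3) (T : Set (Fin 3 → PV A B)) :
    GO G (mS T) (mnP π lam) := by
  unfold mnP
  refine go_ms_mul hG _ (fun T => go_ms_mul hG _ (fun T => go_ms_mul hG _ (fun T =>
    go_ms_mul hG _ (fun T => go_ms_mul hG _ (fun T => ?_) _ _ T) _ _ T) _ _ T) _ _ T) _ _ T
  rw [hG.gl_one]
  exact h _ T

/-- the frame is a basis -/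
lemma frame_unit {π : A → Fin 3} {lam : B → Fin 3} {E : Set ((Fin 3 ⊕ A) × Option (Fin 3 ⊕ B))}
    {x : OV 3 (Fin 3 ⊕ A) (Option (Fin 3 ⊕ B)) → R} (h1 : ∀ e ∈ frE A B ∪ E, dt x e.1 e.2 = 0)
    (h2 : UC π lam (dt x)) : IsUnit (det3 (fun i => x (Sum.inl (Sum.inl 0, i)))
      (fun i => x (Sum.inl (Sum.inl 1, i))) (fun i => x (Sum.inl (Sum.inl 2, i)))) := by
  let g : Matrix (Fin 3) (Fin 3) R := Matrix.of fun j a => x (Sum.inl (Sum.inl j, a))
  let g' : Matrix (Fin 3) (Fin 3) R := Matrix.of fun a j => x (Sum.inr (some (Sum.inl j), a))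
  have h3 : g * g' = Matrix.diagonal fun i => dt x (Sum.inl i) (some (Sum.inl i)) := by
    ext i j
    rw [Matrix.mul_apply, Matrix.diagonal_apply]
    show dt x (Sum.inl i) (some (Sum.inl j)) = _
    split_ifs with h
    · rw [h]
    · exact h1 _ (Or.inl ⟨i, j, h, rfl⟩)
  have h4 : IsUnit (g.det * g'.det) := by
    rw [← Matrix.det_mul, h3, Matrix.det_diagonal, isUnit_prod_iff]
    exact fun i _ => h2.2.2.1 i
  have h5 : g.det = det3 (fun i => x (Sum.inl (Sum.inl 0, i)))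
      (fun i => x (Sum.inl (Sum.inl 1, i))) (fun i => x (Sum.inl (Sum.inl 2, i))) := by
    unfold det3
    rw [Matrix.det_fin_three]
    simp only [g, Matrix.of_apply]
    ring
  rw [← h5]
  exact (IsUnit.mul_iff.1 h4).1

/-- the scaling factor of the first point on a line -/
noncomputable def sS (lam : B → Fin 3) (x : PV A B × Fin 3 → R) (b : Option (Fin 3 ⊕ B)) : R :=
  det3 (pP x (Sum.inl (jj lam b))) (qQ x b 0) (pP x (Sum.inl (jj lam b + 2))) *
    Ring.inverse (dD x * lL x (Sum.inl (jj lam b)) b)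

/-- from two points on each line to lines -/
noncomputable def fwd (lam : B → Fin 3) (x : PV A B × Fin 3 → R) :
    OV 3 (Fin 3 ⊕ A) (Option (Fin 3 ⊕ B)) ⊕ Option (Fin 3 ⊕ B) → R :=
  Sum.elim (Sum.elim (fun p => x (Sum.inl p.1, p.2)) (fun p => crs (qQ x p.1 0) (qQ x p.1 1) p.2))
    (sS lam x)

/-- the points of a configuration -/
def pY {A B : Type} (y : OV 3 (Fin 3 ⊕ A) (Option (Fin 3 ⊕ B)) ⊕ Option (Fin 3 ⊕ B) → R)
    (a : Fin 3 ⊕ A) : Fin 3 → R := fun i => y (Sum.inl (Sum.inl (a, i)))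

/-- the value of a line on a point -/
def lY {A B : Type} (y : OV 3 (Fin 3 ⊕ A) (Option (Fin 3 ⊕ B)) ⊕ Option (Fin 3 ⊕ B) → R)
    (a : Fin 3 ⊕ A) (b : Option (Fin 3 ⊕ B)) : R := dt (fun i => y (Sum.inl i)) a b

/-- the determinant of the frame -/
def dY {A B : Type} (y : OV 3 (Fin 3 ⊕ A) (Option (Fin 3 ⊕ B)) ⊕ Option (Fin 3 ⊕ B) → R) : R :=
  det3 (pY y (Sum.inl 0)) (pY y (Sum.inl 1)) (pY y (Sum.inl 2))

/-- from lines to two points on each line -/
noncomputable def bwd (lam : B → Fin 3)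
    (y : OV 3 (Fin 3 ⊕ A) (Option (Fin 3 ⊕ B)) ⊕ Option (Fin 3 ⊕ B) → R) :
    PV A B × Fin 3 → R := fun p => Sum.elim (fun a => pY y a p.2)
  (fun b => if b.2 = 0 then y (Sum.inr b.1) *
      (lY y (Sum.inl (jj lam b.1)) b.1 * pY y (Sum.inl (jj lam b.1 + 1)) p.2 -
        lY y (Sum.inl (jj lam b.1 + 1)) b.1 * pY y (Sum.inl (jj lam b.1)) p.2) else
    Ring.inverse (y (Sum.inr b.1) * lY y (Sum.inl (jj lam b.1)) b.1 * dY y) *
      (lY y (Sum.inl (jj lam b.1)) b.1 * pY y (Sum.inl (jj lam b.1 + 2)) p.2 -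
        lY y (Sum.inl (jj lam b.1 + 2)) b.1 * pY y (Sum.inl (jj lam b.1)) p.2)) p.1

/-- the conditions on configurations with scaling factors -/
def CY (π : A → Fin 3) (lam : B → Fin 3) (E : Set ((Fin 3 ⊕ A) × Option (Fin 3 ⊕ B)))
    (y : OV 3 (Fin 3 ⊕ A) (Option (Fin 3 ⊕ B)) ⊕ Option (Fin 3 ⊕ B) → R) : Prop :=
  (∀ e ∈ frE A B ∪ E, lY y e.1 e.2 = 0) ∧ UC π lam (lY y) ∧ ∀ b, IsUnit (y (Sum.inr b))

/-- the conditions on the vectors -/
def CX (π : A → Fin 3) (lam : B → Fin 3) (E : Set ((Fin 3 ⊕ A) × Option (Fin 3 ⊕ B)))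
    (x : PV A B × Fin 3 → R) : Prop :=
  ((∀ e ∈ frE A B ∪ E, lL x e.1 e.2 = 0) ∧
      ∀ b, det3 (pP x (Sum.inl (jj lam b))) (pP x (Sum.inl (jj lam b + 1))) (qQ x b 0) = 0 ∧
        det3 (pP x (Sum.inl (jj lam b))) (pP x (Sum.inl (jj lam b + 2))) (qQ x b 1) = 0) ∧
    IsUnit (dD x) ∧ UC π lam (lL x)

variable {π : A → Fin 3} {lam : B → Fin 3} {E : Set ((Fin 3 ⊕ A) × Option (Fin 3 ⊕ B))}

lemma CY.unit {y : OV 3 (Fin 3 ⊕ A) (Option (Fin 3 ⊕ B)) ⊕ Option (Fin 3 ⊕ B) → R}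
    (h : CY π lam E y) : IsUnit (dY y) := frame_unit h.1 h.2.1

lemma lY_fwd (x : PV A B × Fin 3 → R) (a : Fin 3 ⊕ A) (b : Option (Fin 3 ⊕ B)) :
    lY (fwd lam x) a b = lL x a b := dot_crs (pP x a) (qQ x b 0) (qQ x b 1)

/-- the two determinants of the first point -/
lemma unit_side {x : PV A B × Fin 3 → R} (h : CX π lam E x) (b : Option (Fin 3 ⊕ B)) :
    IsUnit (det3 (pP x (Sum.inl (jj lam b))) (qQ x b 0) (pP x (Sum.inl (jj lam b + 2)))) := by
  have h1 := det3_plk (pP x (Sum.inl (jj lam b))) (qQ x b 0) (qQ x b 1)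
    (pP x (Sum.inl (jj lam b + 1))) (pP x (Sum.inl (jj lam b + 2)))
  have h2 : det3 (pP x (Sum.inl (jj lam b))) (qQ x b 0) (pP x (Sum.inl (jj lam b + 1))) = 0 := by
    have h3 := (h.1.2 b).1
    have h4 : det3 (pP x (Sum.inl (jj lam b))) (qQ x b 0) (pP x (Sum.inl (jj lam b + 1))) =
        - det3 (pP x (Sum.inl (jj lam b))) (pP x (Sum.inl (jj lam b + 1))) (qQ x b 0) := by
      unfold det3
      ring
    rw [h4, h3, neg_zero]
  rw [h2, zero_mul, add_zero, dD_cyc] at h1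
  have h5 : IsUnit (lL x (Sum.inl (jj lam b)) b * dD x) := (h.2.2.jj b).mul h.2.1
  unfold lL at h5
  rw [h1] at h5
  exact (IsUnit.mul_iff.1 h5).1

lemma cy_fwd {x : PV A B × Fin 3 → R} (h : CX π lam E x) : CY π lam E (fwd lam x) := by
  refine ⟨fun e he => ?_, ?_, fun b => ?_⟩
  · rw [lY_fwd]
    exact h.1.1 e he
  · have h1 : lY (fwd lam x) = lL x := by
      funext a b
      exact lY_fwd x a b
    rw [h1]
    exact h.2.2
  · exact (unit_side h b).mul (((h.2.1.mul (h.2.2.jj b)).ringInverse))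

lemma bwd_zero (y : OV 3 (Fin 3 ⊕ A) (Option (Fin 3 ⊕ B)) ⊕ Option (Fin 3 ⊕ B) → R)
    (b : Option (Fin 3 ⊕ B)) (i : Fin 3) : qQ (bwd lam y) b 0 i = y (Sum.inr b) *
      (lY y (Sum.inl (jj lam b)) b * pY y (Sum.inl (jj lam b + 1)) i -
        lY y (Sum.inl (jj lam b + 1)) b * pY y (Sum.inl (jj lam b)) i) := rfl

lemma bwd_one (y : OV 3 (Fin 3 ⊕ A) (Option (Fin 3 ⊕ B)) ⊕ Option (Fin 3 ⊕ B) → R)
    (b : Option (Fin 3 ⊕ B)) (i : Fin 3) : qQ (bwd lam y) b 1 i =
      Ring.inverse (y (Sum.inr b) * lY y (Sum.inl (jj lam b)) b * dY y) *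
      (lY y (Sum.inl (jj lam b)) b * pY y (Sum.inl (jj lam b + 2)) i -
        lY y (Sum.inl (jj lam b + 2)) b * pY y (Sum.inl (jj lam b)) i) := rfl

lemma pP_bwd (y : OV 3 (Fin 3 ⊕ A) (Option (Fin 3 ⊕ B)) ⊕ Option (Fin 3 ⊕ B) → R)
    (a : Fin 3 ⊕ A) : pP (bwd lam y) a = pY y a := rfl

/-- the vector product of the two points is the line -/
lemma crs_bwd {y : OV 3 (Fin 3 ⊕ A) (Option (Fin 3 ⊕ B)) ⊕ Option (Fin 3 ⊕ B) → R}
    (h : CY π lam E y) (b : Option (Fin 3 ⊕ B)) (i : Fin 3) :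
    crs (qQ (bwd lam y) b 0) (qQ (bwd lam y) b 1) i = y (Sum.inl (Sum.inr (b, i))) := by
  have h1 : IsUnit (y (Sum.inr b) * lY y (Sum.inl (jj lam b)) b * dY y) :=
    ((h.2.2 b).mul (h.2.1.jj b)).mul h.unit
  have h2 := Ring.mul_inverse_cancel _ h1
  have h3 := crs_sides (pY y (Sum.inl (jj lam b))) (pY y (Sum.inl (jj lam b + 1)))
    (pY y (Sum.inl (jj lam b + 2))) (lY y (Sum.inl (jj lam b)) b)
    (lY y (Sum.inl (jj lam b + 1)) b) (lY y (Sum.inl (jj lam b + 2)) b) (y (Sum.inr b))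
    (Ring.inverse (y (Sum.inr b) * lY y (Sum.inl (jj lam b)) b * dY y)) i
  have h4 := form_eq (pY y (Sum.inl (jj lam b))) (pY y (Sum.inl (jj lam b + 1)))
    (pY y (Sum.inl (jj lam b + 2))) (fun i => y (Sum.inl (Sum.inr (b, i)))) i
  have h5 : det3 (pY y (Sum.inl (jj lam b))) (pY y (Sum.inl (jj lam b + 1)))
      (pY y (Sum.inl (jj lam b + 2))) = dY y := det3_cyc (fun i => pY y (Sum.inl i)) _
  rw [h5] at h4
  refine h3.trans ?_
  have h6 : lY y (Sum.inl (jj lam b)) b * crs (pY y (Sum.inl (jj lam b + 1)))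
        (pY y (Sum.inl (jj lam b + 2))) i +
      lY y (Sum.inl (jj lam b + 1)) b * crs (pY y (Sum.inl (jj lam b + 2)))
        (pY y (Sum.inl (jj lam b))) i +
      lY y (Sum.inl (jj lam b + 2)) b * crs (pY y (Sum.inl (jj lam b)))
        (pY y (Sum.inl (jj lam b + 1))) i = dY y * y (Sum.inl (Sum.inr (b, i))) := h4
  rw [h6]
  linear_combination y (Sum.inl (Sum.inr (b, i))) * h2

lemma lL_bwd {y : OV 3 (Fin 3 ⊕ A) (Option (Fin 3 ⊕ B)) ⊕ Option (Fin 3 ⊕ B) → R}
    (h : CY π lam E y) (a : Fin 3 ⊕ A) (b : Option (Fin 3 ⊕ B)) :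
    lL (bwd lam y) a b = lY y a b := by
  unfold lL
  rw [← dot_crs]
  have h1 : ∀ i, pP (bwd lam y) a i * crs (qQ (bwd lam y) b 0) (qQ (bwd lam y) b 1) i =
      y (Sum.inl (Sum.inl (a, i))) * y (Sum.inl (Sum.inr (b, i))) := by
    intro i
    rw [crs_bwd h]
    rfl
  simp only [h1]
  rfl

lemma cx_bwd {y : OV 3 (Fin 3 ⊕ A) (Option (Fin 3 ⊕ B)) ⊕ Option (Fin 3 ⊕ B) → R}
    (h : CY π lam E y) : CX π lam E (bwd lam y) := by
  refine ⟨⟨fun e he => ?_, fun b => ⟨?_, ?_⟩⟩, h.unit, ?_⟩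
  · rw [lL_bwd h]
    exact h.1 e he
  · have h1 : qQ (bwd lam y) b 0 = fun i => y (Sum.inr b) *
        (lY y (Sum.inl (jj lam b)) b * pY y (Sum.inl (jj lam b + 1)) i -
        lY y (Sum.inl (jj lam b + 1)) b * pY y (Sum.inl (jj lam b)) i) := rfl
    rw [pP_bwd, pP_bwd, h1]
    unfold det3
    ring
  · have h1 : qQ (bwd lam y) b 1 = fun i =>
        Ring.inverse (y (Sum.inr b) * lY y (Sum.inl (jj lam b)) b * dY y) *
        (lY y (Sum.inl (jj lam b)) b * pY y (Sum.inl (jj lam b + 2)) i -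
        lY y (Sum.inl (jj lam b + 2)) b * pY y (Sum.inl (jj lam b)) i) := rfl
    rw [pP_bwd, pP_bwd, h1]
    unfold det3
    ring
  · have h1 : lL (bwd lam y) = lY y := by
      funext a b
      exact lL_bwd h a b
    rw [h1]
    exact h.2.1

lemma bwd_fwd {x : PV A B × Fin 3 → R} (h : CX π lam E x) : bwd lam (fwd lam x) = x := by
  have hj : ∀ b, IsUnit (dD x * lL x (Sum.inl (jj lam b)) b) := fun b =>
    h.2.1.mul (h.2.2.jj b)
  funext p
  obtain ⟨a | ⟨b, k⟩, i⟩ := p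
  · rfl
  · have h0 := Ring.mul_inverse_cancel _ (hj b)
    by_cases hk : k = 0
    · subst hk
      show sS lam x b * (lY (fwd lam x) (Sum.inl (jj lam b)) b * pP x (Sum.inl (jj lam b + 1)) i -
        lY (fwd lam x) (Sum.inl (jj lam b + 1)) b * pP x (Sum.inl (jj lam b)) i) = qQ x b 0 i
      rw [lY_fwd, lY_fwd]
      unfold sS
      have h1 := side_q (p0 := pP x (Sum.inl (jj lam b))) (p1 := pP x (Sum.inl (jj lam b + 1)))
        (p2 := pP x (Sum.inl (jj lam b + 2))) (q := qQ x b 0) (q' := qQ x b 1) (h.1.2 b).1 i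
      rw [dD_cyc] at h1
      unfold lL at h0 ⊢
      linear_combination Ring.inverse (dD x * det3 (pP x (Sum.inl (jj lam b))) (qQ x b 0)
        (qQ x b 1)) * h1 + qQ x b 0 i * h0
    · obtain rfl : k = 1 := by omega
      show Ring.inverse (sS lam x b * lY (fwd lam x) (Sum.inl (jj lam b)) b * dD x) *
        (lY (fwd lam x) (Sum.inl (jj lam b)) b * pP x (Sum.inl (jj lam b + 2)) i -
        lY (fwd lam x) (Sum.inl (jj lam b + 2)) b * pP x (Sum.inl (jj lam b)) i) = qQ x b 1 i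
      rw [lY_fwd, lY_fwd]
      have h1 := side_q' (p0 := pP x (Sum.inl (jj lam b))) (p1 := pP x (Sum.inl (jj lam b + 1)))
        (p2 := pP x (Sum.inl (jj lam b + 2))) (q := qQ x b 0) (q' := qQ x b 1) (h.1.2 b).2 i
      rw [dD_cyc] at h1
      have h2 : sS lam x b * lL x (Sum.inl (jj lam b)) b * dD x =
          det3 (pP x (Sum.inl (jj lam b))) (qQ x b 0) (pP x (Sum.inl (jj lam b + 2))) := by
        unfold sS
        linear_combination det3 (pP x (Sum.inl (jj lam b))) (qQ x b 0)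
          (pP x (Sum.inl (jj lam b + 2))) * h0
      rw [h2]
      have h3 := Ring.mul_inverse_cancel _ (unit_side h b)
      have h4 := Ring.mul_inverse_cancel _ h.2.1
      have h5 : lL x (Sum.inl (jj lam b)) b * pP x (Sum.inl (jj lam b + 2)) i -
          lL x (Sum.inl (jj lam b + 2)) b * pP x (Sum.inl (jj lam b)) i =
          det3 (pP x (Sum.inl (jj lam b))) (qQ x b 0) (pP x (Sum.inl (jj lam b + 2))) *
            qQ x b 1 i := by
        have h6 : Ring.inverse (dD x) * (dD x * (lL x (Sum.inl (jj lam b)) b *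
            pP x (Sum.inl (jj lam b + 2)) i -
            lL x (Sum.inl (jj lam b + 2)) b * pP x (Sum.inl (jj lam b)) i)) =
          Ring.inverse (dD x) * (dD x * det3 (pP x (Sum.inl (jj lam b))) (qQ x b 0)
            (pP x (Sum.inl (jj lam b + 2))) * qQ x b 1 i) := congrArg _ h1
        have h7 : ∀ z : R, Ring.inverse (dD x) * (dD x * z) = z := by
          intro z
          rw [← mul_assoc, mul_comm (Ring.inverse (dD x)), h4, one_mul]
        rw [mul_assoc (dD x), h7, h7] at h6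
        exact h6
      rw [h5]
      linear_combination qQ x b 1 i * h3

lemma fwd_bwd {y : OV 3 (Fin 3 ⊕ A) (Option (Fin 3 ⊕ B)) ⊕ Option (Fin 3 ⊕ B) → R}
    (h : CY π lam E y) : fwd lam (bwd lam y) = y := by
  funext j
  rcases j with (j | j) | b
  · rfl
  · exact crs_bwd h j.1 j.2
  · show sS lam (bwd lam y) b = y (Sum.inr b)
    unfold sS
    have h0 := Ring.mul_inverse_cancel _ ((cx_bwd h).2.1.mul ((cx_bwd h).2.2.jj b))
    have h1 : det3 (pP (bwd lam y) (Sum.inl (jj lam b))) (qQ (bwd lam y) b 0)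
        (pP (bwd lam y) (Sum.inl (jj lam b + 2))) =
        y (Sum.inr b) * (dD (bwd lam y) * lL (bwd lam y) (Sum.inl (jj lam b)) b) := by
      rw [lL_bwd h, ← dD_cyc (bwd lam y) (jj lam b)]
      have h2 : qQ (bwd lam y) b 0 = fun i => y (Sum.inr b) *
        (lY y (Sum.inl (jj lam b)) b * pP (bwd lam y) (Sum.inl (jj lam b + 1)) i -
        lY y (Sum.inl (jj lam b + 1)) b * pP (bwd lam y) (Sum.inl (jj lam b)) i) := rfl
      rw [h2]
      unfold det3
      ring
    rw [h1]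
    linear_combination y (Sum.inr b) * h0

end

/-! ### Descent along the scaling factors -/

section
variable {G : ∀ (R : Type) [CommRing R], Prop} (hG : RG G) {σ K : Type} [Finite σ] [Finite K]

include hG

lemma go_scl (E : Set (MvPolynomial σ ℤ)) (p : MvPolynomial σ ℤ) (S : Finset K) :
    GO G (rename (Sum.inl : σ → σ ⊕ K) '' E) (rename Sum.inl p * ∏ b ∈ S, X (Sum.inr b)) ↔
      GO G E p := by
  classical
  induction S using Finset.induction_on with
  | empty =>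
    rw [Finset.prod_empty, mul_one]
    exact hG.gl_sum E p
  | insert a S ha ih =>
    rw [← ih, Finset.prod_insert ha]
    have h1 : rename Sum.inl p * (X (Sum.inr a) * ∏ b ∈ S, X (Sum.inr b)) =
        (rename Sum.inl p * ∏ b ∈ S, X (Sum.inr b)) * X (Sum.inr a) := by ring
    rw [h1]
    refine hG.gl_gm (Sum.inr a) ?_
    intro R _ x y hxy hx
    have h2 : ∀ i, y (Sum.inl i) = x (Sum.inl i) := fun i => hxy _ (by simp)
    have h3 : ∀ b ∈ S, y (Sum.inr b) = x (Sum.inr b) := fun b hb =>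
      hxy _ (fun h => ha (by rw [← Sum.inr_injective h]; exact hb))
    obtain ⟨h4, h5⟩ := hx
    refine ⟨?_, ?_⟩
    · unfold Pt at h4 ⊢
      simp only [Set.forall_mem_image, ev_rename] at h4 ⊢
      simpa only [h2] using h4
    · rw [map_mul, map_prod, ev_rename] at h5 ⊢
      simp only [ev_X] at h5 ⊢
      rw [Finset.prod_congr rfl h3]
      simpa only [h2] using h5

end

/-- **Minors of three vectors control configurations with a frame.** -/
theorem go_frames {G : ∀ (R : Type) [CommRing R], Prop} (hG : RG G)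
    {A B : Type} [Fintype A] [Fintype B] (π : A → Fin 3) (lam : B → Fin 3)
    (E : Set ((Fin 3 ⊕ A) × Option (Fin 3 ⊕ B)))
    (h : GO G (mS (mT lam (frE A B ∪ E))) (mnP π lam)) :
    GO G (orS 3 (frE A B ∪ E)) (frP π lam) := by
  rw [← go_scl hG (K := Option (Fin 3 ⊕ B)) _ _ Finset.univ]
  have hx : ∀ (R : Type) [CommRing R] (x : PV A B × Fin 3 → R),
      Lc (mS (mT lam (frE A B ∪ E))) (mnP π lam) x ↔ CX π lam E x := by
    intro R _ x
    unfold Lc CX
    rw [pt_mT, uc_mnP]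
  have hy : ∀ (R : Type) [CommRing R]
      (y : OV 3 (Fin 3 ⊕ A) (Option (Fin 3 ⊕ B)) ⊕ Option (Fin 3 ⊕ B) → R),
      Lc (rename Sum.inl '' orS 3 (frE A B ∪ E))
        (rename Sum.inl (frP π lam) * ∏ b : Option (Fin 3 ⊕ B), X (Sum.inr b)) y ↔
        CY π lam E y := by
    intro R _ y
    unfold Lc CY
    have h1 : Pt (rename Sum.inl '' orS 3 (frE A B ∪ E)) y ↔
        Pt (orS 3 (frE A B ∪ E)) fun i => y (Sum.inl i) := by
      unfold Pt
      simp only [Set.forall_mem_image, ev_rename]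
    rw [h1, pt_ors, map_mul, IsUnit.mul_iff, map_prod, isUnit_prod_iff, ev_rename, uc_frP]
    simp only [ev_X, Finset.mem_univ, true_implies]
    rfl
  refine (hG.gl_iso (fun R _ x => fwd lam x) (fun R _ y => bwd lam y) ?_ ?_ ?_ ?_ ?_ ?_).1
    h
  · intro R S _ _ φ x hx' j
    rw [hx] at hx'
    rcases j with (j | j) | b
    · rfl
    · exact crs_map φ _ _ _
    · show φ (sS lam x b) = sS lam (fun i => φ (x i)) b
      unfold sS
      rw [map_mul, map_inv_of_unit φ (hx'.2.1.mul (hx'.2.2.jj b)), map_mul]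
      unfold dD lL
      rw [det3_map, det3_map, det3_map]
      rfl
  · intro R S _ _ φ y hy' p
    rw [hy] at hy'
    have hd : φ (dY y) = dY fun i => φ (y i) := det3_map φ _ _ _
    have hl : ∀ a b, φ (lY y a b) = lY (fun i => φ (y i)) a b := by
      intro a b
      unfold lY dt
      simp only [map_sum, map_mul]
    obtain ⟨a | ⟨b, k⟩, i⟩ := p
    · rfl
    · show φ (if k = 0 then _ else _) = if k = 0 then _ else _
      split_ifs
      · simp only [map_mul, map_sub, hl]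
        rfl
      · rw [map_mul, map_inv_of_unit φ (((hy'.2.2 b).mul (hy'.2.1.jj b)).mul hy'.unit)]
        simp only [map_mul, map_sub, hl, hd]
        rfl
  · intro R _ x hx'
    rw [hx] at hx'
    rw [hy]
    exact cy_fwd hx'
  · intro R _ y hy'
    rw [hy] at hy'
    rw [hx]
    exact cx_bwd hy'
  · intro R _ x hx'
    rw [hx] at hx'
    exact bwd_fwd hx'
  · intro R _ y hy'
    rw [hy] at hy'
    exact fwd_bwd hy'

/-- **Universality of vanishing minors in rank at least three.** -/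
theorem hyp_of_mhyp {G : ∀ (R : Type) [CommRing R], Prop} (hG : RG G) (hS : Sem G) {d : ℕ}
    (hd : 3 ≤ d) (h : MHyp G d) {σ : Type} [Finite σ] (f : MvPolynomial σ ℤ) : GS G {f} :=
  hyp_of_frames hG hS (fun A B _ _ π lam E =>
    go_frames hG π lam E (go_mnP hG (mhyp_le hS hd h) π lam _)) f

end Pool.Agent.Helper45.RM
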