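import Pool.Agent.Helper45.RM.Cls

/-!
# Matrices with prescribed vanishing minors
-/

set_option autoImplicit false

open MvPolynomial
open Pool.Agent.Helper81.CP Pool.Agent.Helper81.HG

namespace Pool.Agent.Helper45.RM

/-- the determinant of the vectors `B 0, ..., B (d - 1)` -/
noncomputable def mn {d : ℕ} {V : Type} (B : Fin d → V) : MvPolynomial (V × Fin d) ℤ :=
  (Matrix.of fun i j => (X (B i, j) : MvPolynomial (V × Fin d) ℤ)).det

/-- its value -/
def mv {d : ℕ} {V R : Type} [CommRing R] (x : V × Fin d → R) (B : Fin d → V) : R :=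
  (Matrix.of fun i j => x (B i, j)).det

lemma ev_mn {d : ℕ} {V R : Type} [CommRing R] (x : V × Fin d → R) (B : Fin d → V) :
    ev x (mn B) = mv x B := by
  unfold mn mv
  rw [RingHom.map_det]
  congr 1
  ext i j
  exact ev_X x _

lemma mv_map {d : ℕ} {V R S : Type} [CommRing R] [CommRing S] (φ : R →+* S)
    (x : V × Fin d → R) (B : Fin d → V) : φ (mv x B) = mv (fun i => φ (x i)) B := by
  unfold mv
  rw [RingHom.map_det]
  rfl

/-- the system of vanishing minors -/
noncomputable def mS {d : ℕ} {V : Type} (T : Set (Fin d → V)) : Set (MvPolynomial (V × Fin d) ℤ) :=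
  mn '' T

lemma pt_ms {d : ℕ} {V R : Type} [CommRing R] {T : Set (Fin d → V)} {x : V × Fin d → R} :
    Pt (mS T) x ↔ ∀ B ∈ T, mv x B = 0 := by
  unfold mS Pt
  simp only [Set.forall_mem_image, ev_mn]

/-- all systems of vanishing minors -/
def MHyp (G : ∀ (R : Type) [CommRing R], Prop) (d : ℕ) : Prop :=
  ∀ (V : Type) [Finite V] (T : Set (Fin d → V)), GS G (mS T)

/-! ### Strata -/

section
variable {G : ∀ (R : Type) [CommRing R], Prop} (hG : RG G) {d : ℕ} {V : Type} [Finite V]

include hG

/-- inverting minors -/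
lemma go_ms_mul (p : MvPolynomial (V × Fin d) ℤ) (h : ∀ T : Set (Fin d → V), GO G (mS T) p)
    {W : Type} (S : Finset W) (f : W → Fin d → V) :
    ∀ T : Set (Fin d → V), GO G (mS T) (p * ∏ v ∈ S, mn (f v)) := by
  classical
  induction S using Finset.induction_on with
  | empty =>
    intro T
    rw [Finset.prod_empty, mul_one]
    exact h T
  | insert v S hv ih =>
    intro T
    rw [Finset.prod_insert hv]
    have h1 : p * (mn (f v) * ∏ v ∈ S, mn (f v)) = (p * ∏ v ∈ S, mn (f v)) * mn (f v) := by ring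
    rw [h1]
    refine hG.gl_opn _ (ih T) ?_
    have h1 := ih (insert (f v) T)
    unfold mS at h1 ⊢
    rwa [Set.image_insert_eq] at h1

/-- from the strata to the closed systems -/
lemma gs_ms_of_strata [Fintype V] [DecidableEq V]
    (h : ∀ T : Set (Fin d → V), ∀ F : Finset (Fin d → V), (∀ B, B ∈ F ↔ B ∉ T) →
      GO G (mS T) (∏ B ∈ F, mn B)) (T : Set (Fin d → V)) : GS G (mS T) := by
  classical
  have key : ∀ (S : Finset (Fin d → V)) (T : Set (Fin d → V)) (F : Finset (Fin d → V)),
      (∀ B, B ∈ F ↔ B ∉ T ∧ B ∉ S) → GO G (mS T) (∏ B ∈ F, mn B) := by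
    intro S
    induction S using Finset.induction_on with
    | empty =>
      intro T F hF
      refine h T F fun B => ?_
      rw [hF]
      simp
    | insert a S ha ih =>
      intro T F hF
      by_cases haT : a ∈ T
      · refine ih T F fun B => ?_
        rw [hF, Finset.mem_insert]
        constructor
        · rintro ⟨h1, h2⟩
          exact ⟨h1, fun h3 => h2 (Or.inr h3)⟩
        · rintro ⟨h1, h2⟩
          refine ⟨h1, ?_⟩
          rintro (rfl | h3)
          · exact h1 haT
          · exact h2 h3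
      · have haF : a ∉ F := by
          rw [hF]
          simp
        refine hG.gl_glue (mn a) ?_ ?_
        · have h1 := ih (insert a T) F fun B => by
            rw [hF, Finset.mem_insert, Set.mem_insert_iff]
            tauto
          unfold mS at h1 ⊢
          rwa [Set.image_insert_eq] at h1
        · have h1 := ih T (insert a F) fun B => by
            rw [Finset.mem_insert, hF, Finset.mem_insert]
            constructor
            · rintro (rfl | ⟨h1, h2⟩)
              · exact ⟨haT, ha⟩
              · exact ⟨h1, fun h3 => h2 (Or.inr h3)⟩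
            · rintro ⟨h1, h2⟩
              by_cases hB : B = a
              · exact Or.inl hB
              · exact Or.inr ⟨h1, fun h3 => h3.elim hB h2⟩
          rw [Finset.prod_insert haF, mul_comm] at h1
          exact h1
  have h1 := key Finset.univ T ∅ fun B => by simp
  rwa [Finset.prod_empty, hG.gl_one] at h1

end

/-- a product is a unit if and only if the factors are -/
lemma isUnit_prod_iff {R W : Type} [CommRing R] {S : Finset W} {a : W → R} :
    IsUnit (∏ v ∈ S, a v) ↔ ∀ v ∈ S, IsUnit (a v) := by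
  classical
  induction S using Finset.induction_on with
  | empty => simp
  | insert v S hv ih =>
    rw [Finset.prod_insert hv, IsUnit.mul_iff, ih]
    simp

/-! ### Lowering the dimension -/

section
variable {Q : ∀ (R : Type) [CommRing R], ℤ → Prop} (hQ : RingCP Q) {V : Type} [Finite V] {d : ℕ}
  (T : Set (Fin d → V))

/-- the sets with the new element -/
def mxt {V : Type} (T : Set (Fin d → V)) : Set (Fin (d + 1) → Option V) :=
  (fun B => Fin.cons none fun i => some (B i)) '' T

/-- the new vector -/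
noncomputable def wmn (d : ℕ) (V : Type) : Fin (d + 1) → MvPolynomial (Option V × Fin (d + 1)) ℤ :=
  fun a => X (none, a)

omit [Finite V] in
lemma mv_mulVec {R : Type} [CommRing R] {V : Type} {e : ℕ} (g : Matrix (Fin e) (Fin e) R)
    (x : V × Fin e → R) (B : Fin e → V) :
    mv (fun p => g.mulVec (fun a => x (p.1, a)) p.2) B = mv x B * g.det := by
  unfold mv
  rw [← Matrix.det_transpose g, ← Matrix.det_mul]
  congr 1
  ext i j
  rw [Matrix.mul_apply]
  show g.mulVec (fun a => x (B i, a)) j = _
  unfold Matrix.mulVec dotProduct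
  refine Finset.sum_congr rfl fun l _ => ?_
  rw [Matrix.transpose_apply, Matrix.of_apply, mul_comm]

/-- the action of the general linear group -/
noncomputable def actMn : Act (mS (mxt T)) (wmn d V) where
  act := fun R _ g _ x => fun p => g.mulVec (fun a => x (p.1, a)) p.2
  nat := by
    intro R S _ _ φ g g' x i
    show φ (g.mulVec _ i.2) = (g.map φ).mulVec _ i.2
    simp only [Matrix.mulVec, dotProduct, map_sum, map_mul, Matrix.map_apply]
  pres := by
    intro R _ g g' x _ hg hx
    rw [pt_ms] at hx ⊢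
    intro B hB
    rw [mv_mulVec, hx B hB, zero_mul]
  inv := by
    intro R _ g g' x hg hg'
    funext i
    show g'.mulVec (g.mulVec (fun a => x (i.1, a))) i.2 = _
    rw [Matrix.mulVec_mulVec, hg', Matrix.one_mulVec]
  equiv := by
    intro R _ g g' x
    unfold wmn
    simp only [ev_X]

/-- new vector zero -/
lemma qs_mn_zero (hQ : RingCP Q) (s : ℤ) :
    QS Q (FW (mS (mxt T)) (wmn d V) (d + 1)) s ↔
      QS Q (mS (∅ : Set (Fin (d + 1) → V))) s := by
  have hw : ∀ (R : Type) [CommRing R] (x : Option V × Fin (d + 1) → R),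
      Pt (FW (mS (mxt T)) (wmn d V) (d + 1)) x ↔
        (∀ B ∈ mxt T, mv x B = 0) ∧ ∀ a, x (none, a) = 0 := by
    intro R _ x
    rw [pt_fw, pt_ms]
    unfold wmn
    simp only [ev_X, Fin.is_lt, true_implies]
  refine hQ.qs_iso
    (fun R _ x => fun p => x (some p.1, p.2))
    (fun R _ y => fun p => p.1.elim 0 fun a => y (a, p.2)) ?_ ?_ ?_ ?_ ?_ ?_ s
  · intro R S _ _ φ x _ j
    rfl
  · rintro R S _ _ φ y _ ⟨_ | a, i⟩
    · exact map_zero φ
    · rfl
  · intro R _ x hx
    rw [pt_ms]
    exact fun B hB => absurd hB (Set.notMem_empty B)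
  · intro R _ y hy
    rw [hw]
    refine ⟨?_, fun a => rfl⟩
    rintro _ ⟨B, _, rfl⟩
    unfold mv
    exact Matrix.det_eq_zero_of_row_eq_zero 0 fun j => rfl
  · intro R _ x hx
    rw [hw] at hx
    funext j
    obtain ⟨_ | a, i⟩ := j
    · exact (hx.2 i).symm
    · rfl
  · intro R _ y _
    rfl

omit [Finite V] in
lemma mv_cons {R : Type} [CommRing R] (x : Option V × Fin (d + 1) → R)
    (hx : ∀ a, x (none, a) = if a = 0 then 1 else 0) (B : Fin d → V) :
    mv x (Fin.cons none fun i => some (B i)) = mv (fun p => x (some p.1, p.2.succ)) B := by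
  unfold mv
  rw [Matrix.det_succ_row_zero, Fin.sum_univ_succ]
  have h1 : ∀ i : Fin d, (-1 : R) ^ ((i.succ : Fin (d + 1)) : ℕ) *
      (Matrix.of fun (a b : Fin (d + 1)) => x ((Fin.cons none fun i => some (B i) :
        Fin (d + 1) → Option V) a, b)) 0 i.succ *
      ((Matrix.of fun (a b : Fin (d + 1)) => x ((Fin.cons none fun i => some (B i) :
        Fin (d + 1) → Option V) a, b)).submatrix Fin.succ (i.succ).succAbove).det = 0 := by
    intro i
    have h2 : (Matrix.of fun (a b : Fin (d + 1)) => x ((Fin.cons none fun i => some (B i) :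
        Fin (d + 1) → Option V) a, b)) 0 i.succ = 0 := by
      show x (none, i.succ) = 0
      rw [hx, if_neg (Fin.succ_ne_zero i)]
    rw [h2, mul_zero, zero_mul]
  rw [Finset.sum_eq_zero fun i _ => h1 i, add_zero]
  have h2 : (Matrix.of fun (a b : Fin (d + 1)) => x ((Fin.cons none fun i => some (B i) :
        Fin (d + 1) → Option V) a, b)) 0 0 = 1 := by
    show x (none, 0) = 1
    rw [hx, if_pos rfl]
  rw [h2]
  simp only [Fin.val_zero, pow_zero, one_mul]
  rfl

/-- new vector `e_0` -/
lemma qs_mn_step (hQ : RingCP Q) (s : ℤ) : QS Q (UW (mS (mxt T)) (wmn d V)) s ↔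
    QS Q (rename (Sum.inl : V × Fin d → (V × Fin d) ⊕ V) '' mS T) s := by
  have hU : ∀ (R : Type) [CommRing R] (z : (V × Fin d) ⊕ V → R),
      Pt (rename (Sum.inl : V × Fin d → (V × Fin d) ⊕ V) '' mS T) z ↔
        ∀ B ∈ T, mv (fun i => z (Sum.inl i)) B = 0 := by
    intro R _ z
    rw [← pt_ms]
    simp only [Pt, Set.forall_mem_image, ev_rename]
  have hw : ∀ (R : Type) [CommRing R] (x : Option V × Fin (d + 1) → R),
      Pt (UW (mS (mxt T)) (wmn d V)) x ↔
        (∀ B ∈ mxt T, mv x B = 0) ∧
          ∀ a, x (none, a) = if a = 0 then 1 else 0 := by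
    intro R _ x
    rw [pt_uw, pt_ms]
    unfold wmn
    simp only [ev_X, funext_iff, e0, Pi.single_apply]
  refine hQ.qs_iso
    (fun R _ x => Sum.elim (fun p => x (some p.1, p.2.succ)) (fun a => x (some a, 0)))
    (fun R _ y => fun p => p.1.elim (if p.2 = 0 then 1 else 0) fun a =>
      Fin.cases (motive := fun _ => R) (y (Sum.inr a)) (fun i => y (Sum.inl (a, i))) p.2)
    ?_ ?_ ?_ ?_ ?_ ?_ s
  · intro R S _ _ φ x _ j
    rcases j with j | j <;> rfl
  · rintro R S _ _ φ y _ ⟨_ | a, i⟩
    · show φ (if i = 0 then 1 else 0) = if i = 0 then 1 else 0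
      split_ifs <;> simp
    · refine Fin.cases ?_ (fun i => ?_) i <;> rfl
  · intro R _ x hx
    rw [hw] at hx
    obtain ⟨h1, h2⟩ := hx
    rw [hU]
    intro B hB
    have h3 := h1 _ ⟨B, hB, rfl⟩
    rw [mv_cons x h2] at h3
    exact h3
  · intro R _ y hy
    rw [hU] at hy
    rw [hw]
    refine ⟨?_, fun a => rfl⟩
    rintro _ ⟨B, hB, rfl⟩
    exact (mv_cons _ (fun a => rfl) B).trans (hy B hB)
  · intro R _ x hx
    rw [hw] at hx
    obtain ⟨h1, h2⟩ := hx
    funext j
    obtain ⟨_ | a, i⟩ := j
    · exact (h2 i).symm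
    · refine Fin.cases ?_ (fun i => ?_) i <;> rfl
  · intro R _ y _
    funext j
    rcases j with ⟨a, i⟩ | a <;> rfl

include hQ

/-- **Lowering the dimension.** -/
theorem good_mn_lower (h1 : Good Q (mS (mxt T)))
    (h0 : Good Q (mS (∅ : Set (Fin (d + 1) → V)))) : Good Q (mS T) := by
  refine (hQ.good_sum (τ := V) (mS T)).1 fun s => (qs_mn_step T hQ s).1 ?_
  exact good_reduce hQ _ (actMn T) h1 (fun s => (qs_mn_zero T hQ s).2 (h0 s)) s

end

lemma mhyp_lower {G : ∀ (R : Type) [CommRing R], Prop} (hS : Sem G) {d : ℕ}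
    (h : MHyp G (d + 1)) : MHyp G d := by
  intro V _ T
  exact hS _ _ _ _ _ _ (fun Q hQ h1 h0 => good_mn_lower hQ T h1 h0) (h (Option V) (mxt T))
    (h V ∅)

lemma mhyp_le {G : ∀ (R : Type) [CommRing R], Prop} (hS : Sem G) {d e : ℕ} (hde : e ≤ d)
    (h : MHyp G d) : MHyp G e := by
  induction d with
  | zero => rwa [Nat.le_zero.1 hde]
  | succ d ih =>
    rcases Nat.lt_or_ge e (d + 1) with h1 | h1
    · exact ih (Nat.lt_succ_iff.1 h1) (mhyp_lower hS h)
    · rwa [le_antisymm hde h1]

end Pool.Agent.Helper45.RM
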