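import Pool.Agent.Helper45.RM.Wt

/-!
# Reduction of a vector by the general linear group
-/

set_option autoImplicit false

open MvPolynomial
open Pool.Agent.Helper81.CP

namespace Pool.Agent.Helper45.RM

/-! ### Matrices which move `e_0` to a given vector -/

section
variable {m : ℕ} {A B : Type} [CommRing A] [CommRing B]

/-- the first unit vector -/
def e0 (m : ℕ) (A : Type) [CommRing A] : Fin (m + 1) → A := Pi.single 0 1

/-- a linear form which is one on `e_0` -/
def psi (A : Type) [CommRing A] (k : Fin (m + 1)) : Fin (m + 1) → A :=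
  fun i => if i = 0 ∨ i = k then 1 else 0

/-- a matrix which moves `e_0` to `c` -/
def mG (c : Fin (m + 1) → A) (k : Fin (m + 1)) : Matrix (Fin (m + 1)) (Fin (m + 1)) A :=
  1 + Matrix.vecMulVec (c - e0 m A) (psi A k)

/-- its inverse -/
def mG' (c : Fin (m + 1) → A) (u : A) (k : Fin (m + 1)) :
    Matrix (Fin (m + 1)) (Fin (m + 1)) A :=
  1 - u • Matrix.vecMulVec (c - e0 m A) (psi A k)

lemma psi_dot (c : Fin (m + 1) → A) (k : Fin (m + 1)) (h : ∀ i, i < k → c i = 0) :
    psi A k ⬝ᵥ c = c k := by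
  unfold dotProduct psi
  have h1 : ∀ i, (if i = 0 ∨ i = k then (1 : A) else 0) * c i = if i = k then c i else 0 := by
    intro i
    by_cases hk : i = k
    · rw [if_pos (Or.inr hk), if_pos hk, one_mul]
    · rw [if_neg hk]
      by_cases h0 : i = 0
      · rw [h i (by
          rw [h0] at hk ⊢
          exact Fin.pos_iff_ne_zero.2 (Ne.symm hk)), mul_zero]
      · rw [if_neg (by tauto), zero_mul]
  simp only [h1, Finset.sum_ite_eq', Finset.mem_univ, if_true]

lemma psi_e0 (k : Fin (m + 1)) : psi A k ⬝ᵥ e0 m A = 1 := by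
  unfold e0
  rw [dotProduct_single, mul_one]
  exact if_pos (Or.inl rfl)

lemma psi_sub (c : Fin (m + 1) → A) (k : Fin (m + 1)) (h : ∀ i, i < k → c i = 0) :
    psi A k ⬝ᵥ (c - e0 m A) = c k - 1 := by
  rw [dotProduct_sub, psi_dot c k h, psi_e0]

lemma mG_e0 (c : Fin (m + 1) → A) (k : Fin (m + 1)) : (mG c k).mulVec (e0 m A) = c := by
  unfold mG
  rw [Matrix.add_mulVec, Matrix.one_mulVec, Matrix.vecMulVec_mulVec, psi_e0]
  simp

lemma mG'_c (c : Fin (m + 1) → A) (u : A) (k : Fin (m + 1)) (h : ∀ i, i < k → c i = 0)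
    (hu : u * c k = 1) : (mG' c u k).mulVec c = e0 m A := by
  unfold mG'
  rw [Matrix.sub_mulVec, Matrix.one_mulVec, Matrix.smul_mulVec, Matrix.vecMulVec_mulVec,
    psi_dot c k h]
  funext i
  simp only [Pi.sub_apply, Pi.smul_apply, smul_eq_mul, MulOpposite.smul_eq_mul_unop,
    MulOpposite.unop_op]
  linear_combination -(c i - e0 m A i) * hu

lemma mul_aux (v ψ : Fin (m + 1) → A) (a b : A) (h : a - b - a * b * (ψ ⬝ᵥ v) = 0) :
    (1 + a • Matrix.vecMulVec v ψ) * (1 - b • Matrix.vecMulVec v ψ) = 1 := by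
  have h1 : Matrix.vecMulVec v ψ * Matrix.vecMulVec v ψ = (ψ ⬝ᵥ v) • Matrix.vecMulVec v ψ := by
    ext i j
    rw [Matrix.mul_apply]
    simp only [Matrix.vecMulVec_apply, Matrix.smul_apply, smul_eq_mul, dotProduct,
      Finset.sum_mul]
    exact Finset.sum_congr rfl fun l _ => by ring
  rw [add_mul, one_mul, mul_sub, mul_one, Matrix.smul_mul, Matrix.mul_smul, h1]
  ext i j
  simp only [Matrix.add_apply, Matrix.sub_apply, Matrix.smul_apply, smul_eq_mul]
  linear_combination (Matrix.vecMulVec v ψ i j) * h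

lemma mG_mul (c : Fin (m + 1) → A) (u : A) (k : Fin (m + 1)) (h : ∀ i, i < k → c i = 0)
    (hu : u * c k = 1) : mG c k * mG' c u k = 1 := by
  have := mul_aux (c - e0 m A) (psi A k) 1 u (by
    rw [psi_sub c k h]
    linear_combination -hu)
  rw [one_smul] at this
  exact this

lemma mG'_mul (c : Fin (m + 1) → A) (u : A) (k : Fin (m + 1)) (h : ∀ i, i < k → c i = 0)
    (hu : u * c k = 1) : mG' c u k * mG c k = 1 := mul_eq_one_comm.1 (mG_mul c u k h hu)

lemma map_e0 (φ : A →+* B) (i : Fin (m + 1)) : φ (e0 m A i) = e0 m B i := by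
  unfold e0
  rw [Pi.single_apply, Pi.single_apply]
  split_ifs <;> simp

lemma map_psi (φ : A →+* B) (k i : Fin (m + 1)) : φ (psi A k i) = psi B k i := by
  unfold psi
  split_ifs <;> simp

lemma mG_map (φ : A →+* B) (c : Fin (m + 1) → A) (k : Fin (m + 1)) :
    (mG c k).map φ = mG (fun i => φ (c i)) k := by
  ext i j
  simp only [mG, Matrix.map_apply, Matrix.add_apply, Matrix.vecMulVec_apply, Pi.sub_apply,
    map_add, map_mul, map_sub, map_e0, map_psi, Matrix.one_apply]
  split_ifs <;> simp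

lemma mG'_map (φ : A →+* B) (c : Fin (m + 1) → A) (u : A) (k : Fin (m + 1)) :
    (mG' c u k).map φ = mG' (fun i => φ (c i)) (φ u) k := by
  ext i j
  simp only [mG', Matrix.map_apply, Matrix.sub_apply, Matrix.smul_apply, Matrix.vecMulVec_apply,
    Pi.sub_apply, smul_eq_mul, map_mul, map_sub, map_e0, map_psi, Matrix.one_apply]
  split_ifs <;> simp

end

/-! ### Actions of the general linear group -/

/-- an action of invertible matrices `g` (with inverse `g'`) on the solutions of `E` and an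
equivariant vector `w` -/
structure Act {σ : Type} (E : Set (MvPolynomial σ ℤ)) {m : ℕ}
    (w : Fin (m + 1) → MvPolynomial σ ℤ) where
  act : ∀ (A : Type) [CommRing A], Matrix (Fin (m + 1)) (Fin (m + 1)) A →
    Matrix (Fin (m + 1)) (Fin (m + 1)) A → (σ → A) → (σ → A)
  nat : ∀ (A B : Type) [CommRing A] [CommRing B] (φ : A →+* B)
    (g g' : Matrix (Fin (m + 1)) (Fin (m + 1)) A) (x : σ → A) (i : σ),
    φ (act A g g' x i) = act B (g.map φ) (g'.map φ) (fun i => φ (x i)) i
  pres : ∀ (A : Type) [CommRing A] (g g' : Matrix (Fin (m + 1)) (Fin (m + 1)) A) (x : σ → A),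
    g * g' = 1 → g' * g = 1 → Pt E x → Pt E (act A g g' x)
  inv : ∀ (A : Type) [CommRing A] (g g' : Matrix (Fin (m + 1)) (Fin (m + 1)) A) (x : σ → A),
    g * g' = 1 → g' * g = 1 → act A g' g (act A g g' x) = x
  equiv : ∀ (A : Type) [CommRing A] (g g' : Matrix (Fin (m + 1)) (Fin (m + 1)) A) (x : σ → A),
    (fun i => ev (act A g g' x) (w i)) = g.mulVec (fun i => ev x (w i))

section
variable {Q : ∀ (R : Type) [CommRing R], ℤ → Prop} (hQ : RingCP Q) {σ : Type} [Finite σ]
  {E : Set (MvPolynomial σ ℤ)} {m : ℕ} (w : Fin (m + 1) → MvPolynomial σ ℤ)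

/-- the first `k` coordinates of the vector are zero -/
def FW (E : Set (MvPolynomial σ ℤ)) (w : Fin (m + 1) → MvPolynomial σ ℤ) (k : ℕ) :
    Set (MvPolynomial σ ℤ) := E ∪ w '' {i | (i : ℕ) < k}

/-- the vector is `e_0` -/
noncomputable def UW (E : Set (MvPolynomial σ ℤ)) (w : Fin (m + 1) → MvPolynomial σ ℤ) :
    Set (MvPolynomial σ ℤ) := E ∪ Set.range fun i => w i - C (if i = 0 then 1 else 0)

/-- the vector is `e_0` and there are free coordinates `c`, of which the first `k` are zero -/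
noncomputable def CS (E : Set (MvPolynomial σ ℤ)) (w : Fin (m + 1) → MvPolynomial σ ℤ) (k : ℕ) :
    Set (MvPolynomial (σ ⊕ Fin (m + 1)) ℤ) :=
  rename Sum.inl '' UW E w ∪ (fun i => X (Sum.inr i)) '' {i : Fin (m + 1) | (i : ℕ) < k}

omit [Finite σ] in
lemma pt_fw {k : ℕ} {A : Type} [CommRing A] {x : σ → A} :
    Pt (FW E w k) x ↔ Pt E x ∧ ∀ i : Fin (m + 1), (i : ℕ) < k → ev x (w i) = 0 := by
  unfold FW Pt
  simp only [Set.mem_union, or_imp, forall_and, Set.forall_mem_image, Set.mem_ofPred_eq]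

omit [Finite σ] in
lemma pt_uw {A : Type} [CommRing A] {x : σ → A} :
    Pt (UW E w) x ↔ Pt E x ∧ (fun i => ev x (w i)) = e0 m A := by
  unfold UW Pt
  simp only [Set.mem_union, or_imp, forall_and, Set.forall_mem_range, map_sub, sub_eq_zero,
    funext_iff]
  refine and_congr_right fun _ => forall_congr' fun i => ?_
  unfold e0 ev
  rw [Pi.single_apply]
  split_ifs <;> simp

omit [Finite σ] in
lemma pt_cs {k : ℕ} {A : Type} [CommRing A] {x : σ ⊕ Fin (m + 1) → A} :
    Pt (CS E w k) x ↔ Pt (UW E w) (fun i => x (Sum.inl i)) ∧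
      ∀ i : Fin (m + 1), (i : ℕ) < k → x (Sum.inr i) = 0 := by
  unfold CS Pt
  simp only [Set.mem_union, or_imp, forall_and, Set.forall_mem_image, Set.mem_ofPred_eq, ev_rename,
    ev_X]

include hQ

lemma qs_cs_step (k : Fin (m + 1)) (s : ℤ) :
    QS Q (CS E w k) (s + 1) ↔ QS Q (CS E w (k + 1)) s := by
  rw [hQ.qs_free (CS E w k) (Sum.inr k) ?_ s]
  · refine hQ.qs_congr (fun A _ x => ?_) s
    rw [Pt.insert_iff, pt_cs, pt_cs, ev_X]
    constructor
    · rintro ⟨h1, h2, h3⟩
      refine ⟨h2, fun i hi => ?_⟩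
      rcases Nat.lt_succ_iff_lt_or_eq.1 hi with h | h
      · exact h3 i h
      · rw [Fin.ext h]; exact h1
    · rintro ⟨h1, h2⟩
      exact ⟨h2 k (Nat.lt_succ_self _), h1, fun i hi => h2 i (Nat.lt_succ_of_lt hi)⟩
  · intro A _ x y hxy hx
    rw [pt_cs] at hx ⊢
    have h1 : (fun i => y (Sum.inl i)) = fun i => x (Sum.inl i) :=
      funext fun i => hxy (Sum.inl i) (by simp)
    rw [h1]
    refine ⟨hx.1, fun i hi => ?_⟩
    rw [hxy (Sum.inr i) (by
      intro h
      rw [Sum.inr.inj_iff] at h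
      rw [h] at hi
      exact lt_irrefl _ hi)]
    exact hx.2 i hi

lemma qs_cs_top (s : ℤ) : QS Q (CS E w (m + 1)) s ↔ QS Q (UW E w) s := by
  refine hQ.qs_iso (fun A _ x i => x (Sum.inl i)) (fun A _ y => Sum.elim y (fun _ => 0))
    ?_ ?_ ?_ ?_ ?_ ?_ s
  · intro A B _ _ φ x _ j; rfl
  · intro A B _ _ φ y _ i
    rcases i with i | i
    · rfl
    · exact map_zero φ
  · intro A _ x hx
    rw [pt_cs] at hx
    exact hx.1
  · intro A _ y hy
    rw [pt_cs]
    exact ⟨hy, fun i _ => rfl⟩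
  · intro A _ x hx
    rw [pt_cs] at hx
    funext i
    rcases i with i | i
    · rfl
    · exact (hx.2 i i.2).symm
  · intro A _ y _; rfl

lemma qs_cs (j : ℕ) : ∀ k : ℕ, k + j = m + 1 → ∀ s : ℤ,
    (QS Q (CS E w k) (s + j) ↔ QS Q (UW E w) s) := by
  induction j with
  | zero =>
    intro k hk s
    rw [Nat.add_zero] at hk
    rw [hk, Nat.cast_zero, add_zero]
    exact qs_cs_top hQ w s
  | succ j ih =>
    intro k hk s
    have h1 := ih (k + 1) (by omega) s
    rw [← h1]
    have h2 := qs_cs_step hQ (E := E) w ⟨k, by omega⟩ (s + j)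
    push_cast
    rw [← add_assoc]
    exact h2

lemma low_cs (k : ℕ) (hk : k ≤ m + 1) : Low Q (UW E w) (m + 1 - k) (CS E w k) := by
  intro t ht s hs
  have h1 := (qs_cs hQ (E := E) w (m + 1 - k) k (by omega) (s - (m + 1 - k : ℕ))).2 (ht _ (by
    push_cast [Nat.cast_sub hk]
    linarith))
  rwa [sub_add_cancel] at h1

lemma lead_cs (k : ℕ) (hk : k ≤ m + 1) : Lead Q (UW E w) (m + 1 - k) (CS E w k) := by
  intro t ht h
  refine (qs_cs hQ (E := E) w (m + 1 - k) k (by omega) t).1 ?_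
  push_cast [Nat.cast_sub hk]
  exact h

/-- the stratum on which the coordinate with number `k` is the first one which is not zero -/
lemma qs_stratum (α : Act E w) (k : Fin (m + 1)) (s : ℤ) :
    QS Q (dop (w k) (FW E w k)) s ↔ QS Q (dop (X (Sum.inr k)) (CS E w k)) s := by
  refine hQ.qs_iso
    (fun A _ x => fun o => o.elim (x none) (Sum.elim
      (α.act A (mG' (fun i => ev (fun i => x (some i)) (w i)) (x none) k)
        (mG (fun i => ev (fun i => x (some i)) (w i)) k) (fun i => x (some i)))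
      (fun i => ev (fun i => x (some i)) (w i))))
    (fun A _ y => fun o => o.elim (y none)
      (α.act A (mG (fun i => y (some (Sum.inr i))) k)
        (mG' (fun i => y (some (Sum.inr i))) (y none) k) (fun i => y (some (Sum.inl i)))))
    ?_ ?_ ?_ ?_ ?_ ?_ s
  · intro A B _ _ φ x _ o
    rcases o with _ | i | i
    · rfl
    · show φ (α.act A _ _ _ i) = α.act B _ _ _ i
      rw [α.nat, mG'_map, mG_map]
      simp only [ev_map]
    · exact ev_map φ _ _
  · intro A B _ _ φ y _ o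
    rcases o with _ | i
    · rfl
    · show φ (α.act A _ _ _ i) = α.act B _ _ _ i
      rw [α.nat, mG'_map, mG_map]
  · intro A _ x hx
    rw [Pt.dop_iff, pt_fw] at hx
    obtain ⟨h1, h2, h3⟩ := hx
    have hm := mG_mul (fun i => ev (fun i => x (some i)) (w i)) (x none) k (fun i hi => h3 i hi) h1
    have hm' := mG'_mul (fun i => ev (fun i => x (some i)) (w i)) (x none) k
      (fun i hi => h3 i hi) h1
    rw [Pt.dop_iff, pt_cs, pt_uw, ev_X]
    refine ⟨h1, ⟨α.pres A _ _ _ hm' hm h2, ?_⟩, fun i hi => h3 i hi⟩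
    show (fun i => ev (α.act A _ _ _) (w i)) = _
    rw [α.equiv]
    exact mG'_c _ _ k (fun i hi => h3 i hi) h1
  · intro A _ y hy
    rw [Pt.dop_iff, pt_cs, pt_uw, ev_X] at hy
    obtain ⟨h1, ⟨h2, h3⟩, h4⟩ := hy
    have hm := mG_mul (fun i => y (some (Sum.inr i))) (y none) k (fun i hi => h4 i hi) h1
    have hm' := mG'_mul (fun i => y (some (Sum.inr i))) (y none) k (fun i hi => h4 i hi) h1
    have hw : (fun i => ev (α.act A (mG (fun i => y (some (Sum.inr i))) k)
        (mG' (fun i => y (some (Sum.inr i))) (y none) k) (fun i => y (some (Sum.inl i)))) (w i)) =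
        fun i => y (some (Sum.inr i)) := by
      rw [α.equiv, h3, mG_e0]
    rw [Pt.dop_iff, pt_fw]
    refine ⟨?_, α.pres A _ _ _ hm hm' h2, fun i hi => ?_⟩
    · exact (congrArg (y none * ·) (congrFun hw k)).trans h1
    · exact (congrFun hw i).trans (h4 i hi)
  · intro A _ x hx
    rw [Pt.dop_iff, pt_fw] at hx
    obtain ⟨h1, h2, h3⟩ := hx
    have hm := mG_mul (fun i => ev (fun i => x (some i)) (w i)) (x none) k (fun i hi => h3 i hi) h1
    have hm' := mG'_mul (fun i => ev (fun i => x (some i)) (w i)) (x none) k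
      (fun i hi => h3 i hi) h1
    funext o
    rcases o with _ | i
    · rfl
    · exact congrFun (α.inv A _ _ _ hm' hm) i
  · intro A _ y hy
    rw [Pt.dop_iff, pt_cs, pt_uw, ev_X] at hy
    obtain ⟨h1, ⟨h2, h3⟩, h4⟩ := hy
    have hm := mG_mul (fun i => y (some (Sum.inr i))) (y none) k (fun i hi => h4 i hi) h1
    have hm' := mG'_mul (fun i => y (some (Sum.inr i))) (y none) k (fun i hi => h4 i hi) h1
    have hw : (fun i => ev (α.act A (mG (fun i => y (some (Sum.inr i))) k)
        (mG' (fun i => y (some (Sum.inr i))) (y none) k) (fun i => y (some (Sum.inl i)))) (w i)) =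
        fun i => y (some (Sum.inr i)) := by
      rw [α.equiv, h3, mG_e0]
    funext o
    rcases o with _ | i | i
    · rfl
    · show α.act A (mG' (fun i => ev (α.act A _ _ _) (w i)) _ k)
        (mG (fun i => ev (α.act A _ _ _) (w i)) k) (α.act A _ _ _) i = _
      rw [hw]
      exact congrFun (α.inv A _ _ _ hm hm') i
    · exact congrFun hw i

lemma low_stratum (α : Act E w) (k : Fin (m + 1)) :
    Low Q (UW E w) (m + 1 - (k : ℕ)) (dop (w k) (FW E w k)) := by
  refine Low.congr (fun s => qs_stratum hQ w α k s) ?_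
  refine Low.opn hQ (low_cs hQ w k (by omega)) ?_
  refine ((low_cs hQ w (k + 1) (by omega)).mono (by push_cast; linarith)).congr fun s => ?_
  refine hQ.qs_congr (fun A _ x => ?_) s
  rw [Pt.insert_iff, pt_cs, pt_cs, ev_X]
  constructor
  · rintro ⟨h1, h2, h3⟩
    refine ⟨h2, fun i hi => ?_⟩
    rcases Nat.lt_succ_iff_lt_or_eq.1 hi with h | h
    · exact h3 i h
    · rw [Fin.ext h]; exact h1
  · rintro ⟨h1, h2⟩
    exact ⟨h2 k (Nat.lt_succ_self _), h1, fun i hi => h2 i (Nat.lt_succ_of_lt hi)⟩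

lemma lead_stratum (α : Act E w) :
    Lead Q (UW E w) (m + 1) (dop (w 0) (FW E w 0)) := by
  refine Lead.congr (fun s => qs_stratum hQ w α 0 s) ?_
  have h1 := lead_cs hQ (E := E) w 0 (by omega)
  rw [Nat.cast_zero, sub_zero] at h1
  refine Lead.dop hQ h1 ?_
  refine ((low_cs hQ w 1 (by omega)).mono (by push_cast; linarith)).congr fun s => ?_
  refine hQ.qs_congr (fun A _ x => ?_) s
  rw [Pt.insert_iff, pt_cs, pt_cs, ev_X]
  constructor
  · rintro ⟨h1, h2, h3⟩
    refine ⟨h2, fun i hi => ?_⟩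
    have hi0 : i = 0 := Fin.ext (Nat.lt_one_iff.1 hi)
    rw [hi0]; exact h1
  · rintro ⟨h1, h2⟩
    exact ⟨h2 0 Nat.one_pos, h1, fun i hi => absurd hi (Nat.not_lt_zero _)⟩

lemma fw_step (k : Fin (m + 1)) (s : ℤ) :
    QS Q (insert (w k) (FW E w k)) s ↔ QS Q (FW E w (k + 1)) s := by
  refine hQ.qs_congr (fun A _ x => ?_) s
  rw [Pt.insert_iff, pt_fw, pt_fw]
  constructor
  · rintro ⟨h1, h2, h3⟩
    refine ⟨h2, fun i hi => ?_⟩
    rcases Nat.lt_succ_iff_lt_or_eq.1 hi with h | h
    · exact h3 i h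
    · rw [Fin.ext h]; exact h1
  · rintro ⟨h1, h2⟩
    exact ⟨h2 k (Nat.lt_succ_self _), h1, fun i hi => h2 i (Nat.lt_succ_of_lt hi)⟩

lemma low_fw (α : Act E w) (h0 : Good Q (FW E w (m + 1))) (j : ℕ) :
    ∀ k : ℕ, k + j = m + 1 → Low Q (UW E w) (m + 1 - k) (FW E w k) := by
  induction j with
  | zero =>
    intro k hk
    rw [Nat.add_zero] at hk
    rw [hk]
    exact low_of_good h0
  | succ j ih =>
    intro k hk
    have hk' : k < m + 1 := by omega
    have h1 : Low Q (UW E w) (m + 1 - k) (dop (w ⟨k, hk'⟩) (FW E w k)) :=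
      low_stratum hQ w α ⟨k, hk'⟩
    have h2 : Low Q (UW E w) (m + 1 - k) (FW E w (k + 1)) :=
      (ih (k + 1) (by omega)).mono (by push_cast; linarith)
    have h3 : ∀ s, QS Q (insert (w ⟨k, hk'⟩) (FW E w k)) s ↔ QS Q (FW E w (k + 1)) s :=
      fun s => fw_step hQ w ⟨k, hk'⟩ s
    exact Low.glue hQ (h2.congr h3) h1

/-- **Reduction of a vector.** -/
theorem good_reduce (α : Act E w) (hE : Good Q E) (h0 : Good Q (FW E w (m + 1))) :
    Good Q (UW E w) := by
  have h2 : Low Q (UW E w) (m + 1 - 1) (FW E w 1) := by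
    have := low_fw hQ w α h0 m 1 (by omega)
    rwa [Nat.cast_one] at this
  have h3 : ∀ s, QS Q (insert (w 0) (FW E w 0)) s ↔ QS Q (FW E w 1) s := fun s => by
    have := fw_step hQ (E := E) w 0 s
    rwa [Fin.val_zero, Nat.zero_add] at this
  have h1 : Lead Q (UW E w) (m + 1) (FW E w 0) :=
    Lead.of_dop hQ (lead_stratum hQ w α) (h2.congr h3)
  refine good_of_lead hQ h1 ((hQ.good_congr fun A _ x => ?_).1 hE)
  rw [pt_fw]
  simp

end

end Pool.Agent.Helper45.RM
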