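import Pool.Agent.Helper81.CP.Good

/-!
# Systems which are monic over a system

`X` is bounded by `U` in degree `n` if the property for `U` in all weights `≥ t` implies the
property for `X` in all weights `≥ t + n`.  `X` leads to `U` in degree `n` if the property for `U`
in all weights `> t` and for `X` in weight `t + n` imply the property for `U` in weight `t`.
-/

set_option autoImplicit false

open MvPolynomial
open Pool.Agent.Helper81.CP

namespace Pool.Agent.Helper45.RM

variable {Q : ∀ (R : Type) [CommRing R], ℤ → Prop}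

/-- `X` is bounded by `U` in degree `n` -/
def Low (Q : ∀ (R : Type) [CommRing R], ℤ → Prop) {σ₀ : Type} (U : Set (MvPolynomial σ₀ ℤ))
    (n : ℤ) {σ : Type} (E : Set (MvPolynomial σ ℤ)) : Prop :=
  ∀ t : ℤ, (∀ s, t ≤ s → QS Q U s) → ∀ s, t + n ≤ s → QS Q E s

/-- `X` leads to `U` in degree `n` -/
def Lead (Q : ∀ (R : Type) [CommRing R], ℤ → Prop) {σ₀ : Type} (U : Set (MvPolynomial σ₀ ℤ))
    (n : ℤ) {σ : Type} (E : Set (MvPolynomial σ ℤ)) : Prop :=
  ∀ t : ℤ, (∀ s, t < s → QS Q U s) → QS Q E (t + n) → QS Q U t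

section
variable (hQ : RingCP Q) {σ₀ σ τ : Type} [Finite σ₀] [Finite σ] [Finite τ]
  {U : Set (MvPolynomial σ₀ ℤ)} {E : Set (MvPolynomial σ ℤ)} {n m : ℤ}

omit [Finite σ₀] [Finite σ] in
lemma low_of_good (h : Good Q E) : Low Q U n E := fun _ _ s _ => h s

omit [Finite σ₀] [Finite σ] in
lemma Low.mono (h : Low Q U n E) (hnm : n ≤ m) : Low Q U m E :=
  fun t ht s hs => h t ht s (by linarith)

omit [Finite σ₀] in
lemma low_self : Low Q U 0 U := fun t ht s hs => ht s (by linarith)

omit [Finite σ₀] in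
lemma lead_self : Lead Q U 0 U := fun t _ h => by rwa [add_zero] at h

omit [Finite σ₀] [Finite σ] in
/-- isomorphic systems -/
lemma Low.congr {E' : Set (MvPolynomial τ ℤ)} (h : ∀ s, QS Q E' s ↔ QS Q E s)
    (hl : Low Q U n E) : Low Q U n E' := fun t ht s hs => (h s).2 (hl t ht s hs)

omit [Finite σ₀] [Finite σ] [Finite τ] in
lemma Lead.congr {E' : Set (MvPolynomial τ ℤ)} (h : ∀ s, QS Q E' s ↔ QS Q E s)
    (hl : Lead Q U n E) : Lead Q U n E' := fun t ht h' => hl t ht ((h _).1 h')

include hQ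

omit [Finite σ₀] in
lemma Low.glue {p : MvPolynomial σ ℤ} (h1 : Low Q U n (insert p E)) (h2 : Low Q U n (dop p E)) :
    Low Q U n E := fun t ht s hs => hQ.glue' (h1 t ht s hs) (h2 t ht s hs)

omit [Finite σ₀] in
lemma Low.opn {p : MvPolynomial σ ℤ} (h1 : Low Q U n E) (h2 : Low Q U n (insert p E)) :
    Low Q U n (dop p E) := fun t ht s hs => hQ.opn' (h1 t ht s hs) (h2 t ht s hs)

omit [Finite σ₀] in
lemma Low.closed {p : MvPolynomial σ ℤ} (h1 : Low Q U n E) (h2 : Low Q U n (dop p E)) :
    Low Q U n (insert p E) := fun t ht s hs => hQ.closed' (h1 t ht s hs) (h2 t ht s hs)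

omit [Finite σ₀] in
/-- removing a small closed part -/
lemma Lead.of_dop {p : MvPolynomial σ ℤ} (h1 : Lead Q U n (dop p E))
    (h2 : Low Q U (n - 1) (insert p E)) : Lead Q U n E := fun t ht h =>
  h1 t ht (hQ.opn' h (h2 (t + 1) (fun s hs => ht s (by linarith)) _ (by linarith)))

omit [Finite σ₀] in
/-- adding a small closed part -/
lemma Lead.dop {p : MvPolynomial σ ℤ} (h1 : Lead Q U n E)
    (h2 : Low Q U (n - 1) (insert p E)) : Lead Q U n (Helper81.CP.dop p E) := fun t ht h =>
  h1 t ht (hQ.glue' (h2 (t + 1) (fun s hs => ht s (by linarith)) _ (by linarith)) h)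

omit [Finite σ₀] in
/-- a free coordinate -/
lemma low_line (h : Low Q U n E) : Low Q U (n + 1) (lft E) := fun t ht s hs => by
  have h1 := (hQ.qs_line E (s - 1)).mpr (h t ht _ (by linarith))
  rwa [sub_add_cancel] at h1

omit [Finite σ₀] in
lemma lead_line (h : Lead Q U n E) : Lead Q U (n + 1) (lft E) := fun t ht h' => by
  rw [← add_assoc] at h'
  exact h t ht ((hQ.qs_line E (t + n)).mp h')

/-- **descent** -/
theorem good_of_lead (h : Lead Q U n E) (hE : Good Q E) : Good Q U := by
  obtain ⟨s₀, hs₀⟩ := hQ.bdd _ (ft_rng U)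
  have key : ∀ k : ℕ, ∀ s : ℤ, s₀ - k ≤ s → QS Q U s := by
    intro k
    induction k with
    | zero =>
      intro s hs
      exact hs₀ s (by simpa using hs)
    | succ k ih =>
      intro s hs
      exact h s (fun r hr => ih r (by push_cast at hs; linarith [Int.add_one_le_iff.mpr hr])) (hE _)
  intro s
  exact key (s₀ - s).toNat s (by have := Int.self_le_toNat (s₀ - s); linarith)

end

end Pool.Agent.Helper45.RM
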